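import Mathlib
import Pool.Agent.TH942.Grp

/-!
# The minimum of a trace form

For a positive semidefinite real matrix `G` whose form is at least `μ` on non-zero integral
vectors, and a positive semidefinite `N`, `μ ^ r * det N ≤ (∑ N i j * G i j) ^ r`.
-/

set_option autoImplicit false
set_option linter.unusedSectionVars false

open MeasureTheory Filter Topology Matrix Module

namespace Pool.Agent.TH910.LS

variable {ι : Type} [Fintype ι] [DecidableEq ι]

/-- the inequality of the arithmetic and geometric means for the eigenvalues -/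
lemma trace_det [Nonempty ι] {X : Matrix ι ι ℝ} (hX : X.PosSemidef) :
    (Fintype.card ι : ℝ) ^ (Fintype.card ι) * X.det ≤ X.trace ^ (Fintype.card ι) := by
  set n := Fintype.card ι with hn
  have hn0 : n ≠ 0 := Fintype.card_ne_zero
  have hnR : (n : ℝ) ≠ 0 := by exact_mod_cast hn0
  have hnp : (0 : ℝ) < n := by positivity
  have h1 := hX.isHermitian.det_eq_prod_eigenvalues
  have h2 := hX.isHermitian.trace_eq_sum_eigenvalues
  simp only [RCLike.ofReal_real_eq_id, id_eq] at h1 h2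
  set z := hX.isHermitian.eigenvalues with hz
  have hz0 : ∀ i, 0 ≤ z i := fun i => hX.eigenvalues_nonneg i
  have h3 := Real.geom_mean_le_arith_mean_weighted Finset.univ (fun _ : ι => (1 / n : ℝ)) z
    (fun i _ => by positivity) (by simp [← hn, hnR]) (fun i _ => hz0 i)
  have h4 : (∏ i, z i ^ (1 / n : ℝ)) ^ n = ∏ i, z i := by
    rw [← Finset.prod_pow]
    apply Finset.prod_congr rfl
    intro i _
    rw [← Real.rpow_natCast, ← Real.rpow_mul (hz0 i), one_div, inv_mul_cancel₀ hnR, Real.rpow_one]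
  have h5 : ∑ i, (1 / n : ℝ) * z i = (∑ i, z i) / n := by
    rw [← Finset.mul_sum]
    ring
  rw [h5] at h3
  have h6 : (∏ i, z i ^ (1 / n : ℝ)) ^ n ≤ ((∑ i, z i) / n) ^ n :=
    pow_le_pow_left₀ (Finset.prod_nonneg fun i _ => Real.rpow_nonneg (hz0 i) _) h3 n
  rw [h4, div_pow, le_div_iff₀ (by positivity)] at h6
  rw [h1, h2]
  linarith

/-- Minkowski's theorem for the ellipsoid, in a weak form. -/
lemma mink_det [Nonempty ι] {M : Matrix ι ι ℝ} (hM : M.det ≠ 0) {μ : ℝ} (hμ : 0 < μ)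
    (h : ∀ c : ι → ℤ, c ≠ 0 → μ ≤ ∑ i, (M *ᵥ (fun j => (c j : ℝ))) i ^ 2) :
    μ ^ (Fintype.card ι) ≤ (Fintype.card ι : ℝ) ^ (Fintype.card ι) * M.det ^ 2 := by
  set n := Fintype.card ι with hn
  have hn0 : n ≠ 0 := Fintype.card_ne_zero
  have hnp : (0 : ℝ) < n := by positivity
  set t : ℝ := √(μ / n) with ht
  have htp : 0 < t := Real.sqrt_pos.2 (by positivity)
  have ht2 : t ^ 2 = μ / n := Real.sq_sqrt (by positivity)
  -- the box and its preimage
  set B : Set (ι → ℝ) := Set.pi Set.univ (fun _ : ι => Set.Ioo (-t) t) with hB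
  set S : Set (ι → ℝ) := (toLin' M) ⁻¹' B with hS
  have hBm : MeasurableSet B := MeasurableSet.pi Set.countable_univ fun _ _ => measurableSet_Ioo
  have hmeas : Measurable (toLin' M) := (LinearMap.continuous_of_finiteDimensional _).measurable
  have hBv : volume B = ENNReal.ofReal ((2 * t) ^ n) := by
    rw [hB, volume_pi, Measure.pi_pi]
    simp only [Real.volume_Ioo, Finset.prod_const, Finset.card_univ]
    rw [← ENNReal.ofReal_pow (by linarith), ← hn]
    congr 2
    ring
  have hSv : volume S = ENNReal.ofReal |M.det⁻¹| * ENNReal.ofReal ((2 * t) ^ n) := by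
    rw [hS, ← Measure.map_apply hmeas hBm, Real.map_matrix_volume_pi_eq_smul_volume_pi hM,
      Measure.smul_apply, hBv, smul_eq_mul]
  by_contra hcon
  rw [not_le] at hcon
  have hdet : |M.det| < t ^ n := by
    have h1 : |M.det| ^ 2 < (t ^ n) ^ 2 := by
      rw [sq_abs, ← pow_mul, mul_comm n 2, pow_mul, ht2, div_pow, lt_div_iff₀ (by positivity)]
      linarith
    exact lt_of_pow_lt_pow_left₀ 2 (by positivity) h1
  have hdp : 0 < |M.det| := abs_pos.2 hM
  have hvol : volume (ZSpan.fundamentalDomain (Pi.basisFun ℝ ι)) * 2 ^ finrank ℝ (ι → ℝ) <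
      volume S := by
    have h1 : volume (ZSpan.fundamentalDomain (Pi.basisFun ℝ ι)) = 1 := by
      rw [ZSpan.fundamentalDomain_pi_basisFun, volume_pi, Measure.pi_pi]
      simp
    rw [h1, one_mul, Module.finrank_fintype_fun_eq_card, ← hn, hSv,
      ← ENNReal.ofReal_mul (abs_nonneg _)]
    have h2 : (2 : ENNReal) ^ n = ENNReal.ofReal ((2 : ℝ) ^ n) := by
      rw [ENNReal.ofReal_pow (by norm_num)]
      norm_num
    rw [h2]
    apply (ENNReal.ofReal_lt_ofReal_iff (by positivity)).2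
    rw [abs_inv, mul_pow, inv_mul_eq_div, lt_div_iff₀ hdp]
    exact mul_lt_mul_of_pos_left hdet (by positivity)
  have hcount : Countable (Submodule.span ℤ (Set.range (Pi.basisFun ℝ ι))).toAddSubgroup := by
    change Countable (Submodule.span ℤ (Set.range (Pi.basisFun ℝ ι)))
    infer_instance
  obtain ⟨x, hx0, hxS⟩ := exists_ne_zero_mem_lattice_of_measure_mul_two_pow_lt_measure
    (ZSpan.isAddFundamentalDomain' (Pi.basisFun ℝ ι) volume) (s := S)
    (by
      intro x hx
      simp only [hS, hB, Set.mem_preimage, Set.mem_pi, Set.mem_univ, forall_true_left,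
        Set.mem_Ioo, map_neg, Pi.neg_apply] at hx ⊢
      intro i
      have := hx i
      constructor <;> linarith [this.1, this.2])
    ((convex_pi fun i _ => convex_Ioo _ _).linear_preimage _) hvol
  -- the lattice point is integral
  have hx2 := x.2
  have hx3 : (x : ι → ℝ) ∈ Submodule.span ℤ (Set.range (Pi.basisFun ℝ ι)) := hx2
  rw [Module.Basis.mem_span_iff_repr_mem] at hx3
  choose c hc using hx3
  have hxc : (x : ι → ℝ) = fun i => (c i : ℝ) := by
    ext i
    have := hc i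
    simp at this
    exact this.symm
  have hc0 : c ≠ 0 := by
    rintro rfl
    apply hx0
    apply Subtype.ext
    rw [hxc]
    ext i
    simp
  have h5 := h c hc0
  have h6 : ∀ i, (M *ᵥ (fun j => (c j : ℝ))) i ^ 2 < μ / n := by
    intro i
    rw [← hxc]
    simp only [hS, hB, Set.mem_preimage, Set.mem_pi, Set.mem_univ, forall_true_left,
        Set.mem_Ioo, Matrix.toLin'_apply] at hxS
    rw [← ht2]
    exact sq_lt_sq' (hxS i).1 (hxS i).2
  have h7 : ∑ i, (M *ᵥ (fun j => (c j : ℝ))) i ^ 2 < ∑ _i : ι, μ / n :=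
    Finset.sum_lt_sum_of_nonempty Finset.univ_nonempty fun i _ => h6 i
  rw [Finset.sum_const, Finset.card_univ, ← hn, nsmul_eq_mul, mul_div_cancel₀ _ hnp.ne'] at h7
  linarith

/-- **The trace form**, the positive definite case. -/
lemma trace_form_pos [Nonempty ι] {N G : Matrix ι ι ℝ} (hN : N.PosSemidef) (hG : G.PosSemidef)
    (hdet : G.det ≠ 0) {μ : ℝ} (hμ : 0 < μ)
    (h : ∀ c : ι → ℤ, c ≠ 0 → μ ≤ ∑ i, ∑ j, (c i : ℝ) * (c j : ℝ) * G i j) :
    μ ^ (Fintype.card ι) * N.det ≤ (∑ i, ∑ j, N i j * G i j) ^ (Fintype.card ι) := by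
  obtain ⟨M, hM⟩ := Pool.Agent.TH942.exists_sqrt hG
  have hMt : Mᴴ = Mᵀ := by
    ext i j
    simp
  have hMd : G.det = M.det ^ 2 := by
    rw [hM, hMt, Matrix.det_mul, Matrix.det_transpose, sq]
  have hM0 : M.det ≠ 0 := by
    intro h0
    apply hdet
    rw [hMd, h0]
    ring
  have h1 := mink_det hM0 hμ (fun c hc => by
    have h2 := h c hc
    rwa [← Pool.Agent.TH942.emb_gram hM, Pool.Agent.TH942.emb_sq] at h2)
  have hX : (M * N * Mᴴ).PosSemidef := hN.mul_mul_conjTranspose_same M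
  have h2 := trace_det hX
  have h3 : (M * N * Mᴴ).trace = ∑ i, ∑ j, N i j * G i j := by
    rw [Matrix.mul_assoc, Matrix.trace_mul_comm, Matrix.mul_assoc, ← hM, Matrix.trace]
    apply Finset.sum_congr rfl
    intro i _
    rw [Matrix.diag_apply, Matrix.mul_apply]
    apply Finset.sum_congr rfl
    intro j _
    have : G j i = G i j := by
      have := hG.isHermitian.apply i j
      simpa using this
    rw [this]
  have h4 : (M * N * Mᴴ).det = N.det * M.det ^ 2 := by
    rw [hMt, Matrix.det_mul, Matrix.det_mul, Matrix.det_transpose]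
    ring
  rw [h3, h4] at h2
  have h5 : 0 ≤ N.det := hN.det_nonneg
  calc μ ^ (Fintype.card ι) * N.det ≤
      ((Fintype.card ι : ℝ) ^ (Fintype.card ι) * M.det ^ 2) * N.det :=
        mul_le_mul_of_nonneg_right h1 h5
    _ = (Fintype.card ι : ℝ) ^ (Fintype.card ι) * (N.det * M.det ^ 2) := by ring
    _ ≤ _ := h2

/-- The quadratic form of `G + ε`. -/
lemma form_add_one {G : Matrix ι ι ℝ} (ε : ℝ) (c : ι → ℤ) :
    ∑ i, ∑ j, (c i : ℝ) * (c j : ℝ) * (G + ε • (1 : Matrix ι ι ℝ)) i j =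
      ∑ i, ∑ j, (c i : ℝ) * (c j : ℝ) * G i j + ε * ∑ i, (c i : ℝ) ^ 2 := by
  rw [Finset.mul_sum, ← Finset.sum_add_distrib]
  apply Finset.sum_congr rfl
  intro i _
  simp only [Matrix.add_apply, Matrix.smul_apply, smul_eq_mul, mul_add, Finset.sum_add_distrib]
  congr 1
  rw [Finset.sum_eq_single i]
  · rw [Matrix.one_apply_eq]
    ring
  · intro j _ hj
    rw [Matrix.one_apply_ne hj.symm]
    ring
  · intro h
    exact absurd (Finset.mem_univ i) h

/-- **The trace form**. -/
theorem trace_form [Nonempty ι] {N G : Matrix ι ι ℝ} (hN : N.PosSemidef) (hG : G.PosSemidef)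
    {μ : ℝ} (hμ : 0 < μ)
    (h : ∀ c : ι → ℤ, c ≠ 0 → μ ≤ ∑ i, ∑ j, (c i : ℝ) * (c j : ℝ) * G i j) :
    μ ^ (Fintype.card ι) * N.det ≤ (∑ i, ∑ j, N i j * G i j) ^ (Fintype.card ι) := by
  have key : ∀ ε : ℝ, 0 < ε → μ ^ (Fintype.card ι) * N.det ≤
      (∑ i, ∑ j, N i j * (G + ε • (1 : Matrix ι ι ℝ)) i j) ^ (Fintype.card ι) := by
    intro ε hε
    have hpd : (G + ε • (1 : Matrix ι ι ℝ)).PosDef :=
      Matrix.PosDef.posSemidef_add hG (Matrix.PosDef.one.smul hε)
    refine trace_form_pos hN hpd.posSemidef hpd.det_pos.ne' hμ (fun c hc => ?_)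
    rw [form_add_one]
    have h1 := h c hc
    have h2 : 0 ≤ ε * ∑ i, (c i : ℝ) ^ 2 := by positivity
    linarith
  have hlim : Tendsto (fun ε : ℝ => (∑ i, ∑ j, N i j * (G + ε • (1 : Matrix ι ι ℝ)) i j) ^
      (Fintype.card ι)) (𝓝[>] 0) (𝓝 ((∑ i, ∑ j, N i j * (G + (0 : ℝ) • (1 : Matrix ι ι ℝ)) i j) ^
      (Fintype.card ι))) := by
    apply Tendsto.mono_left _ nhdsWithin_le_nhds
    apply Continuous.tendsto (x := (0 : ℝ))
      (f := fun ε : ℝ => (∑ i, ∑ j, N i j * (G + ε • (1 : Matrix ι ι ℝ)) i j) ^ (Fintype.card ι))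
    simp only [Matrix.add_apply, Matrix.smul_apply, smul_eq_mul]
    fun_prop
  rw [zero_smul, add_zero] at hlim
  exact ge_of_tendsto hlim (Filter.eventually_of_mem self_mem_nhdsWithin (fun ε hε => key ε hε))

end Pool.Agent.TH910.LS
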