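import Mathlib
import Pool.Agent.TH910.LS.Red

/-!
# The canonical height on `y² = x³ + a x + b` and on its powers
-/

set_option autoImplicit false
set_option linter.unusedSectionVars false

open Filter Topology Matrix Height WeierstrassCurve

namespace Pool.Agent.TH910.LS

open Pool.Agent.TH942

section abs

variable {A : Type} [AddCommGroup A]

lemma q_nsmul {q : A → ℝ} (hq : ∀ P Q, q (P + Q) + q (P - Q) = 2 * (q P + q Q)) (n : ℕ) (P : A) :
    q (n • P) = (n : ℝ) ^ 2 * q P := by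
  obtain ⟨B, hB1, hB2⟩ := H437R2.Man.MW.polar q hq
  rw [← hB1, ← hB1]
  simp only [map_nsmul, AddMonoidHom.smul_apply, nsmul_eq_mul]
  ring

lemma q_pos {q : A → ℝ} (hq0 : ∀ P, 0 ≤ q P) (hq : ∀ P Q, q (P + Q) + q (P - Q) = 2 * (q P + q Q))
    (hfin : {P | q P ≤ 0}.Finite) {P : A} (hP : ¬ IsOfFinAddOrder P) : 0 < q P := by
  by_contra hcon
  have h0 : q P = 0 := le_antisymm (not_lt.1 hcon) (hq0 P)
  have h1 : ∀ n : ℕ, n • P ∈ {P | q P ≤ 0} := by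
    intro n
    simp only [Set.mem_ofPred_eq]
    rw [q_nsmul hq, h0, mul_zero]
  apply hP
  by_contra h2
  have h3 : Function.Injective (fun n : ℕ => n • P) := injective_nsmul_iff_not_isOfFinAddOrder.2 h2
  have h4 : (Set.range (fun n : ℕ => n • P)).Finite := hfin.subset (by
    rintro _ ⟨n, rfl⟩
    exact h1 n)
  exact Set.infinite_range_of_injective h3 h4

lemma q_tors {q : A → ℝ} (hq : ∀ P Q, q (P + Q) + q (P - Q) = 2 * (q P + q Q)) {P : A}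
    (hP : IsOfFinAddOrder P) : q P = 0 := by
  obtain ⟨n, hn, h⟩ := isOfFinAddOrder_iff_nsmul_eq_zero.1 hP
  have h1 := q_nsmul hq n P
  rw [h, q_zero q hq] at h1
  have h2 : (0 : ℝ) < (n : ℝ) ^ 2 := by positivity
  have h3 : (n : ℝ) ^ 2 * q P = 0 := h1.symm
  rcases mul_eq_zero.1 h3 with h4 | h4
  · linarith
  · exact h4

lemma exists_min_of_finite {q : A → ℝ} (hfin : ∀ B : ℝ, {P | q P ≤ B}.Finite) {S : Set A}
    (hS : S.Nonempty) : ∃ Q ∈ S, ∀ Q' ∈ S, q Q ≤ q Q' := by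
  obtain ⟨P, hP⟩ := hS
  have h1 : (S ∩ {Q | q Q ≤ q P}).Finite := (hfin (q P)).subset Set.inter_subset_right
  obtain ⟨Q, ⟨hQ, hQ1⟩, hQ2⟩ := Set.exists_min_image _ q h1 ⟨P, hP, show q P ≤ q P from le_rfl⟩
  refine ⟨Q, hQ, fun Q' hQ' => ?_⟩
  by_cases h : q Q' ≤ q P
  · exact hQ2 Q' ⟨hQ', h⟩
  · exact hQ1.trans (not_le.1 h).le

lemma exists_nontors {κ : Type} [Fintype κ] {P : κ → A} (hP : ¬ IsOfFinAddOrder P) :
    ∃ i, ¬ IsOfFinAddOrder (P i) := by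
  by_contra hcon
  push Not at hcon
  apply hP
  rw [isOfFinAddOrder_iff_nsmul_eq_zero]
  refine ⟨∏ i, addOrderOf (P i), Finset.prod_pos fun i _ => (hcon i).addOrderOf_pos, ?_⟩
  ext i
  rw [Pi.smul_apply, Pi.zero_apply]
  obtain ⟨m, hm⟩ := Finset.dvd_prod_of_mem (fun i => addOrderOf (P i)) (Finset.mem_univ i)
  rw [hm, mul_comm, mul_smul, addOrderOf_nsmul_eq_zero, smul_zero]

end abs

variable {K : Type} [Field K] [NumberField K] [DecidableEq K]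

/-- The canonical height of a point of `y² = x³ + a x + b`: the limit of
`h (x (2 ^ k P)) / 4 ^ k`. -/
noncomputable def chat {a b : K} (P : SPt a b) : ℝ :=
  limUnder atTop (fun k : ℕ => sht ((2 ^ k : ℕ) • P) / 4 ^ k)

/-- The canonical height of a point `P` of the power `E ^ κ`, with respect to the polarization
given by the symmetric matrix `M`. -/
noncomputable def chatM {κ : Type} [Fintype κ] {a b : K} (M : Matrix κ κ ℤ) (P : κ → SPt a b) : ℝ :=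
  ∑ i, ∑ j, (M i j : ℝ) * ((chat (P i + P j) - chat (P i) - chat (P j)) / 2)

variable {a b : K}

theorem chat_spec (hD : 4 * a ^ 3 + 27 * b ^ 2 ≠ 0) :
    (∀ P : SPt a b, Tendsto (fun k : ℕ => sht ((2 ^ k : ℕ) • P) / 4 ^ k) atTop (𝓝 (chat P))) ∧
    (∀ P : SPt a b, 0 ≤ chat P) ∧
    (∀ P Q : SPt a b, chat (P + Q) + chat (P - Q) = 2 * (chat P + chat Q)) ∧
    ∃ C : ℝ, ∀ P : SPt a b, |chat P - sht P| ≤ C := by
  obtain ⟨q, C, h1, h2, h3, h4, -⟩ := neron hD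
  have h5 : ∀ P : SPt a b, chat P = q P := fun P => (h4 P).limUnder_eq
  refine ⟨fun P => ?_, fun P => ?_, fun P Q => ?_, C, fun P => ?_⟩
  · rw [h5]; exact h4 P
  · rw [h5]; exact h1 P
  · rw [h5, h5, h5, h5]; exact h2 P Q
  · rw [h5]; exact h3 P

lemma chat_fin (hD : 4 * a ^ 3 + 27 * b ^ 2 ≠ 0) (B : ℝ) : {P : SPt a b | chat P ≤ B}.Finite := by
  obtain ⟨-, -, -, C, hC⟩ := chat_spec hD
  refine (sfinite_ht (a := a) (b := b) (B + C)).subset ?_
  intro P hP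
  simp only [Set.mem_ofPred_eq] at hP ⊢
  have := abs_le.1 (hC P)
  linarith

lemma chat_pos (hD : 4 * a ^ 3 + 27 * b ^ 2 ≠ 0) {P : SPt a b} (hP : ¬ IsOfFinAddOrder P) :
    0 < chat P :=
  q_pos (chat_spec hD).2.1 (chat_spec hD).2.2.1 (chat_fin hD 0) hP

/-- **Reduction to one coordinate.** -/
theorem reduction {κ : Type} [Fintype κ] [DecidableEq κ] (hD : 4 * a ^ 3 + 27 * b ^ 2 ≠ 0)
    (M : Matrix κ κ ℤ) (hM : (M.map (Int.cast : ℤ → ℝ)).PosDef) (P : κ → SPt a b)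
    (hP : ¬ IsOfFinAddOrder P) :
    ∃ Q ∈ AddSubgroup.closure (Set.range P), ¬ IsOfFinAddOrder Q ∧ chat Q ≤ chatM M P := by
  obtain ⟨i, hi⟩ := exists_nontors hP
  obtain ⟨Q, ⟨hQ1, hQ2⟩, hQ3⟩ := exists_min_of_finite (chat_fin hD)
    (S := {Q : SPt a b | Q ∈ AddSubgroup.closure (Set.range P) ∧ ¬ IsOfFinAddOrder Q})
    ⟨P i, AddSubgroup.subset_closure ⟨i, rfl⟩, hi⟩
  refine ⟨Q, hQ1, hQ2, ?_⟩
  have hQ4 : ∀ Q' ∈ AddSubgroup.closure (Set.range P), ¬ IsOfFinAddOrder Q' →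
      chat Q ≤ chat Q' := fun Q' h1 h2 => hQ3 Q' (by exact ⟨h1, h2⟩)
  have h := group_bound (fun P : SPt a b => chat P) (chat_spec hD).2.1 (chat_spec hD).2.2.1 P M hM
    ⟨i, hi⟩ (chat_pos hD hQ2) hQ4
  exact h

/-- **Independent coordinates.** -/
theorem reduction_indep {κ : Type} [Fintype κ] [DecidableEq κ] [Nonempty κ]
    (hD : 4 * a ^ 3 + 27 * b ^ 2 ≠ 0)
    (M : Matrix κ κ ℤ) (hM : (M.map (Int.cast : ℤ → ℝ)).PosDef) (P : κ → SPt a b)
    (hP : ∀ c : κ → ℤ, c ≠ 0 → ¬ IsOfFinAddOrder (∑ i, c i • P i)) :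
    ∃ Q ∈ AddSubgroup.closure (Set.range P), ¬ IsOfFinAddOrder Q ∧
      chat Q ^ Fintype.card κ * (M.det : ℝ) ≤ chatM M P ^ Fintype.card κ := by
  have hmem : ∀ c : κ → ℤ, ∑ i, c i • P i ∈ AddSubgroup.closure (Set.range P) := fun c =>
    AddSubgroup.sum_mem _ fun i _ =>
      AddSubgroup.zsmul_mem _ (AddSubgroup.subset_closure (Set.mem_range_self i)) _
  obtain ⟨i⟩ : Nonempty κ := inferInstance
  obtain ⟨Q, ⟨hQ1, hQ2⟩, hQ3⟩ := exists_min_of_finite (chat_fin hD)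
    (S := {Q : SPt a b | Q ∈ AddSubgroup.closure (Set.range P) ∧ ¬ IsOfFinAddOrder Q})
    ⟨∑ j, (Pi.single i 1 : κ → ℤ) j • P j, hmem _, hP _ (by
      intro h
      have := congrFun h i
      simp at this)⟩
  refine ⟨Q, hQ1, hQ2, ?_⟩
  have h := indep_bound (fun P : SPt a b => chat P) (chat_spec hD).2.1 (chat_spec hD).2.2.1 P M hM
    (chat_pos hD hQ2) (fun c hc => hQ3 _ ⟨hmem c, hP c hc⟩)
  exact h

end Pool.Agent.TH910.LS
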