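import Mathlib
import Pool.Agent.TH910.LS.Chat

/-!
# Lower bounds for the canonical height from duplication
-/

set_option autoImplicit false
set_option linter.unusedSectionVars false

open Filter Topology Matrix Height WeierstrassCurve

namespace Pool.Agent.TH910.LS

open Pool.Agent.TH942

section abs

variable {A : Type} [AddCommGroup A]

lemma ge_of_dup {N q : A → ℝ} {C : ℝ} (hC : 0 ≤ C)
    (hlim : ∀ P, Tendsto (fun k : ℕ => N ((2 ^ k : ℕ) • P) / 4 ^ k) atTop (𝓝 (q P)))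
    (hdup : ∀ P, 4 * N P - C ≤ N ((2 : ℕ) • P)) (P : A) : N P - C / 3 ≤ q P := by
  refine ge_of_tendsto' (hlim P) (fun k => ?_)
  have h1 : ∀ k : ℕ, (4 : ℝ) ^ k * N P - C * (4 ^ k - 1) / 3 ≤ N ((2 ^ k : ℕ) • P) := by
    intro k
    induction k with
    | zero => simp
    | succ k ih =>
      have h2 := hdup ((2 ^ k : ℕ) • P)
      rw [← mul_smul, ← pow_succ'] at h2
      rw [pow_succ (4 : ℝ)]
      linarith
  rw [le_div_iff₀ (by positivity)]
  have h2 := h1 k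
  have h3 : (N P - C / 3) * 4 ^ k = (4 : ℝ) ^ k * N P - C * (4 ^ k - 1) / 3 - C / 3 := by ring
  rw [h3]
  linarith

lemma pigeon {q : A → ℝ} (hq : ∀ P Q, q (P + Q) + q (P - Q) = 2 * (q P + q Q)) {n : ℕ}
    (hfin : {P | q P ≤ 1}.Finite) (hn : {P | q P ≤ 1}.ncard ≤ n) {P : A}
    (hP : ¬ IsOfFinAddOrder P) : 1 / ((n : ℝ) + 1) ^ 2 ≤ q P := by
  by_contra hcon
  rw [not_le, lt_div_iff₀ (by positivity)] at hcon
  have hinj : Function.Injective (fun k : ℕ => k • P) := injective_nsmul_iff_not_isOfFinAddOrder.2 hP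
  have h1 : ((fun k : ℕ => k • P) '' (Set.Icc 1 (n + 1))) ⊆ {P | q P ≤ 1} := by
    rintro _ ⟨k, hk, rfl⟩
    simp only [Set.mem_ofPred_eq]
    rw [q_nsmul hq]
    have h2 : (k : ℝ) ≤ n + 1 := by exact_mod_cast hk.2
    have h3 : (k : ℝ) ^ 2 ≤ ((n : ℝ) + 1) ^ 2 := pow_le_pow_left₀ (Nat.cast_nonneg _) h2 2
    rcases le_or_gt 0 (q P) with h4 | h4
    · nlinarith
    · have : (k : ℝ) ^ 2 * q P ≤ 0 := mul_nonpos_of_nonneg_of_nonpos (by positivity) h4.le
      linarith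
  have h2 := Set.ncard_le_ncard h1 hfin
  rw [Set.ncard_image_of_injective _ hinj] at h2
  have h3 : (Set.Icc 1 (n + 1)).ncard = n + 1 := by
    rw [← Finset.coe_Icc, Set.ncard_coe_finset]
    simp
  omega

lemma tors_le {q : A → ℝ} (hq : ∀ P Q, q (P + Q) + q (P - Q) = 2 * (q P + q Q)) {n : ℕ}
    (hfin : {P | q P ≤ 1}.Finite) (hn : {P | q P ≤ 1}.ncard ≤ n) {P : A}
    (hP : IsOfFinAddOrder P) : addOrderOf P ≤ n := by
  refine le_trans ?_ hn
  rw [← Nat.card_zmultiples, ← Nat.card_coe_set_eq]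
  have hf : Finite {P | q P ≤ 1} := hfin.to_subtype
  refine Nat.card_le_card_of_injective (fun x : AddSubgroup.zmultiples P =>
    (⟨x.1, ?_⟩ : {P | q P ≤ 1})) ?_
  · obtain ⟨x, hx⟩ := x
    rw [AddSubgroup.mem_zmultiples_iff] at hx
    obtain ⟨k, rfl⟩ := hx
    simp only [Set.mem_ofPred_eq]
    rw [q_tors hq hP.zsmul]
    exact zero_le_one
  · intro x y hxy
    simp only [Subtype.mk.injEq] at hxy
    exact Subtype.ext hxy

/-- The constant. -/
noncomputable def cst (n : ℕ) (C C' : ℝ) : ℝ :=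
  1 / ((1 + C' + C' * C / 3) * ((n : ℝ) + 1) ^ 2 + C')

lemma cst_pos {n : ℕ} {C C' : ℝ} (hC : 0 ≤ C) (hC' : 0 < C') : 0 < cst n C C' := by
  unfold cst
  positivity

theorem single {N q : A → ℝ} {C : ℝ} (hC : 0 ≤ C)
    (hq : ∀ P Q, q (P + Q) + q (P - Q) = 2 * (q P + q Q))
    (hlim : ∀ P, Tendsto (fun k : ℕ => N ((2 ^ k : ℕ) • P) / 4 ^ k) atTop (𝓝 (q P)))
    (hdup : ∀ P, 4 * N P - C ≤ N ((2 : ℕ) • P)) {n : ℕ}
    (hfin : {P | N P ≤ 1 + C / 3}.Finite) (hn : {P | N P ≤ 1 + C / 3}.ncard ≤ n) :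
    (∀ P : A, IsOfFinAddOrder P → addOrderOf P ≤ n) ∧
    ∀ P : A, ¬ IsOfFinAddOrder P → ∀ C' : ℝ, 0 < C' → ∀ L, L ≤ C' * (1 + N P) →
      cst n C C' * (1 + L) ≤ q P := by
  have h1 := ge_of_dup hC hlim hdup
  have hsub : {P | q P ≤ 1} ⊆ {P | N P ≤ 1 + C / 3} := by
    intro P hP
    simp only [Set.mem_ofPred_eq] at hP ⊢
    have := h1 P
    linarith
  have hfin' := hfin.subset hsub
  have hn' := (Set.ncard_le_ncard hsub hfin).trans hn
  refine ⟨fun P hP => tors_le hq hfin' hn' hP, fun P hP C' hC' L hL => ?_⟩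
  have h2 := pigeon hq hfin' hn' hP
  have h3 := h1 P
  have hn1 : (0 : ℝ) < ((n : ℝ) + 1) ^ 2 := by positivity
  rw [div_le_iff₀ hn1] at h2
  unfold cst
  rw [one_div, inv_mul_le_iff₀ (by positivity)]
  have h4 : L ≤ C' * (1 + (q P + C / 3)) := hL.trans (mul_le_mul_of_nonneg_left (by linarith) hC'.le)
  have h5 : 0 ≤ 1 + C' + C' * C / 3 := by positivity
  have h6 : (1 + C' + C' * C / 3) * 1 ≤ (1 + C' + C' * C / 3) * (q P * ((n : ℝ) + 1) ^ 2) :=
    mul_le_mul_of_nonneg_left h2 h5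
  have h7 : ((1 + C' + C' * C / 3) * ((n : ℝ) + 1) ^ 2 + C') * q P =
      (1 + C' + C' * C / 3) * (q P * ((n : ℝ) + 1) ^ 2) + C' * q P := by ring
  rw [h7]
  have h8 : C' * (1 + (q P + C / 3)) = C' + C' * q P + C' * C / 3 := by ring
  rw [h8] at h4
  linarith

end abs

variable {K : Type} [Field K] [NumberField K]

/-- The height of `x ^ m / D`, divided by `m`. -/
noncomputable def nht (m : ℕ) (D : K) {a b : K} (P : SPt a b) : ℝ :=
  logHeight ![P.xRep 0 ^ m, D * P.xRep 1 ^ m] / m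

variable {a b : K}

lemma nht_zero {m : ℕ} (hm : m ≠ 0) (D : K) : nht m D (0 : SPt a b) = 0 := by
  unfold nht
  rw [Affine.Point.xRep_zero]
  simp only [Matrix.cons_val_zero, Matrix.cons_val_one, one_pow, zero_pow hm, mul_zero]
  rw [logHeight_swap, ← logHeight₁_zero (K := K), logHeight₁_eq_logHeight]
  have : logHeight₁ (0 : K) = 0 := logHeight₁_zero
  rw [logHeight₁_eq_logHeight] at this
  rw [this]
  simp

lemma nht_some {m : ℕ} {D : K} {x y : K}
    (h : (sw a b).toAffine.Nonsingular x y) :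
    nht m D (Affine.Point.some x y h : SPt a b) = logHeight₁ (x ^ m / D) / m := by
  unfold nht
  rw [Affine.Point.xRep_some, logHeight₁_div_eq_logHeight]
  simp

lemma nht_nonneg (m : ℕ) (D : K) (P : SPt a b) : 0 ≤ nht m D P :=
  div_nonneg (logHeight_nonneg _) (Nat.cast_nonneg _)

lemma sht_some' {x y : K} (h : (sw a b).toAffine.Nonsingular x y) :
    sht (Affine.Point.some x y h : SPt a b) = logHeight₁ x := by
  rw [sht, Affine.Point.xRep_some, ← logHeight₁_eq_logHeight]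

lemma nht_sht {m : ℕ} (hm : m ≠ 0) {D : K} (hD : D ≠ 0) (P : SPt a b) :
    |nht m D P - sht P| ≤ logHeight₁ D := by
  have hm0 : (0 : ℝ) < m := by positivity
  have hm1 : (1 : ℝ) ≤ m := by exact_mod_cast Nat.one_le_iff_ne_zero.2 hm
  have hD0 : 0 ≤ logHeight₁ D := zero_le_logHeight₁ D
  match P with
  | 0 =>
    rw [nht_zero hm, sht_zero]
    simpa using hD0
  | .some x y h =>
    rw [nht_some, sht_some']
    have h1 := logHeight₁_mul_le (x ^ m) D⁻¹
    have h2 := logHeight₁_mul_le (x ^ m / D) D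
    rw [div_mul_cancel₀ _ hD, logHeight₁_pow] at h2
    rw [logHeight₁_pow, logHeight₁_inv, ← div_eq_mul_inv] at h1
    have h3 : logHeight₁ (x ^ m / D) / m - logHeight₁ x =
        (logHeight₁ (x ^ m / D) - m * logHeight₁ x) / m := by
      field_simp
    rw [h3, abs_div, abs_of_pos hm0, div_le_iff₀ hm0]
    have h4 : logHeight₁ D ≤ logHeight₁ D * m := le_mul_of_one_le_right hD0 hm1
    refine le_trans ?_ h4
    rw [abs_le]
    constructor <;> linarith

lemma nht_lim [DecidableEq K] (hab : 4 * a ^ 3 + 27 * b ^ 2 ≠ 0) {m : ℕ} (hm : m ≠ 0) {D : K}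
    (hD : D ≠ 0) (P : SPt a b) :
    Tendsto (fun k : ℕ => nht m D ((2 ^ k : ℕ) • P) / 4 ^ k) atTop (𝓝 (chat P)) := by
  obtain ⟨h1, h2, h3, C, hC⟩ := chat_spec hab
  refine canon_lim (h := fun P : SPt a b => nht m D P) (q := fun P : SPt a b => chat P)
    (C := C + logHeight₁ D) (fun P => ?_) h3 P
  have h4 := hC P
  have h5 := nht_sht hm hD P
  have h6 : chat P - nht m D P = (chat P - sht P) - (nht m D P - sht P) := by ring
  rw [h6]
  exact (abs_sub _ _).trans (by linarith)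

end Pool.Agent.TH910.LS
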