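import Mathlib
import Pool.Agent.TH910.LS.Low

/-!
# Duplication, uniformly in the number field
-/

set_option autoImplicit false
set_option linter.unusedSectionVars false

open Filter Topology Matrix Height WeierstrassCurve NumberField

namespace Pool.Agent.TH910.LS

open Pool.Agent.TH942

/-- an integer of `K` is an integer of `L` -/
lemma exists_int_alg {K : Type} [Field K] [NumberField K] (L : Type) [Field L] [NumberField L]
    [Algebra K L] (a : 𝓞 K) : ∃ z : 𝓞 L, (z : L) = algebraMap K L (a : K) := by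
  refine ⟨⟨algebraMap K L (a : K), ?_⟩, rfl⟩
  have h : IsIntegral ℤ (a : K) := a.isIntegral_coe
  exact h.map ((algebraMap K L).toIntAlgHom)

/-- integral vectors, as vectors over an extension -/
lemma int_height {K : Type} [Field K] [NumberField K] {ι : Type} [Fintype ι] (b : ι → 𝓞 K) :
    ∃ c : ℝ, 0 ≤ c ∧ ∀ (L : Type) [Field L] [NumberField L] [Algebra K L],
      logHeight (fun i => algebraMap K L (b i : K)) ≤ c * totalWeight L := by
  set s : ℝ := 1 + ∑ i, ∑ φ : K →+* ℂ, ‖φ (b i : K)‖ with hs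
  have hs1 : 1 ≤ s := by
    have : 0 ≤ ∑ i, ∑ φ : K →+* ℂ, ‖φ (b i : K)‖ :=
      Finset.sum_nonneg fun _ _ => Finset.sum_nonneg fun _ _ => norm_nonneg _
    linarith
  refine ⟨Real.log s, Real.log_nonneg hs1, fun L _ _ _ => ?_⟩
  by_cases h0 : (fun i => algebraMap K L (b i : K)) = 0
  · rw [h0, logHeight_zero]
    exact mul_nonneg (Real.log_nonneg hs1) (Nat.cast_nonneg _)
  obtain ⟨i₀, hi₀⟩ := Function.ne_iff.1 h0
  have hne : Nonempty ι := ⟨i₀⟩
  rw [logHeight_eq_log_mulHeight]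
  have h1 : mulHeight (fun i => algebraMap K L (b i : K)) ≤ s ^ totalWeight L := by
    rw [NumberField.mulHeight_eq h0]
    have hf : ∀ v : FinitePlace L, 0 ≤ (⨆ i, v (algebraMap K L (b i : K))) ∧
        (⨆ i, v (algebraMap K L (b i : K))) ≤ 1 := by
      intro v
      constructor
      · exact Real.iSup_nonneg fun i => apply_nonneg v _
      · apply ciSup_le
        intro i
        obtain ⟨z, hz⟩ := exists_int_alg L (b i)
        have h2 := FinitePlace.norm_le_one L v.maximalIdeal z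
        have h3 := FinitePlace.norm_embedding_eq v (z : L)
        rw [← hz, ← h3]
        exact h2
    have hfin : (∏ᶠ v : FinitePlace L, ⨆ i, v (algebraMap K L (b i : K))) ≤ 1 ∧
        0 ≤ (∏ᶠ v : FinitePlace L, ⨆ i, v (algebraMap K L (b i : K))) := by
      apply finprod_induction (p := fun x : ℝ => x ≤ 1 ∧ 0 ≤ x)
      · exact ⟨le_refl _, zero_le_one⟩
      · intro x y hx hy
        exact ⟨mul_le_one₀ hx.1 hy.2 hy.1, mul_nonneg hx.2 hy.2⟩
      · intro v
        exact ⟨(hf v).2, (hf v).1⟩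
    have hinf : (∏ v : InfinitePlace L, (⨆ i, v (algebraMap K L (b i : K))) ^ v.mult) ≤
        s ^ totalWeight L := by
      rw [NumberField.totalWeight_eq_sum_mult, ← Finset.prod_pow_eq_pow_sum]
      apply Finset.prod_le_prod
      · intro v _
        exact pow_nonneg (Real.iSup_nonneg fun i => apply_nonneg v _) _
      · intro v _
        apply pow_le_pow_left₀ (Real.iSup_nonneg fun i => apply_nonneg v _)
        apply ciSup_le
        intro i
        have h2 : v (algebraMap K L (b i : K)) =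
            ‖(v.embedding.comp (algebraMap K L)) (b i : K)‖ := by
          rw [← InfinitePlace.norm_embedding_eq]
          rfl
        rw [h2, hs]
        have h3 : ‖(v.embedding.comp (algebraMap K L)) (b i : K)‖ ≤
            ∑ φ : K →+* ℂ, ‖φ (b i : K)‖ :=
          Finset.single_le_sum (f := fun φ : K →+* ℂ => ‖φ (b i : K)‖)
            (fun _ _ => norm_nonneg _) (Finset.mem_univ _)
        have h4 : ∑ φ : K →+* ℂ, ‖φ (b i : K)‖ ≤ ∑ i, ∑ φ : K →+* ℂ, ‖φ (b i : K)‖ :=
          Finset.single_le_sum (f := fun i => ∑ φ : K →+* ℂ, ‖φ (b i : K)‖)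
            (fun _ _ => Finset.sum_nonneg fun _ _ => norm_nonneg _) (Finset.mem_univ i)
        linarith
    calc _ ≤ s ^ totalWeight L * 1 := mul_le_mul hinf hfin.1 hfin.2 (by positivity)
      _ = _ := mul_one _
  calc Real.log (mulHeight (fun i => algebraMap K L (b i : K))) ≤
        Real.log (s ^ totalWeight L) := Real.log_le_log (mulHeight_pos _) h1
    _ = Real.log s * totalWeight L := by rw [Real.log_pow]; ring

/-- the monomials of degree three -/
def mon3 {L : Type} [Field L] (w : Fin 2 → L) : Fin 2 × Fin 2 × Fin 2 → L :=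
  fun m => w m.1 * (w m.2.1 * w m.2.2)

lemma mon3_height {L : Type} [Field L] [NumberField L] (w : Fin 2 → L) :
    logHeight (mon3 w) ≤ 3 * logHeight w := by
  by_cases hw : w = 0
  · subst hw
    have : mon3 (0 : Fin 2 → L) = 0 := by
      ext m
      simp [mon3]
    rw [this, logHeight_zero, logHeight_zero]
    simp
  · have h1 := logHeight_fun_mul_eq hw hw
    have hne : (fun a : Fin 2 × Fin 2 => w a.1 * w a.2) ≠ 0 := by
      obtain ⟨i, hi⟩ := Function.ne_iff.1 hw
      intro h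
      have h2 := congrFun h (i, i)
      simp only [Pi.zero_apply, mul_self_eq_zero] at h2
      exact hi h2
    have h2 := logHeight_fun_mul_eq hw hne
    have h3 : mon3 w = fun a : Fin 2 × (Fin 2 × Fin 2) => w a.1 * (fun a : Fin 2 × Fin 2 =>
      w a.1 * w a.2) a.2 := rfl
    rw [h3, h2, h1]
    linarith

/-- integral forms of degree three -/
def frm {K : Type} [Field K] {ι : Type} {L : Type} [Field L] [Algebra K L]
    (B : ι × (Fin 2 × Fin 2 × Fin 2) → 𝓞 K) (w : Fin 2 → L) : ι → L :=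
  fun i => ∑ m, algebraMap K L (B (i, m) : K) * mon3 w m

lemma frm_height {K : Type} [Field K] [NumberField K] {ι : Type} [Fintype ι]
    (B : ι × (Fin 2 × Fin 2 × Fin 2) → 𝓞 K) :
    ∃ c : ℝ, 0 ≤ c ∧ ∀ (L : Type) [Field L] [NumberField L] [Algebra K L] (w : Fin 2 → L),
      logHeight (frm B w) ≤ c * totalWeight L + 3 * logHeight w := by
  obtain ⟨c, hc, h⟩ := int_height B
  refine ⟨c + Real.log 8, by positivity, fun L _ _ _ w => ?_⟩
  have h1 := logHeight_linearMap_apply_le (fun a => algebraMap K L (B a : K)) (mon3 w)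
  have h2 := h L
  have h3 := mon3_height w
  have h4 : Nat.card (Fin 2 × Fin 2 × Fin 2) = 8 := by simp
  rw [h4] at h1
  have h5 : frm B w = fun j => ∑ i, algebraMap K L (B (j, i) : K) * mon3 w i := rfl
  rw [h5]
  push_cast at h1
  linarith

/-- the coefficients of a binary cubic form -/
def arr {R : Type} [CommRing R] (c3 c2 c1 c0 : R) : Fin 2 × Fin 2 × Fin 2 → R := fun m =>
  if m = (0, 0, 0) then c3 else if m = (0, 0, 1) then c2 else if m = (0, 1, 1) then c1
    else if m = (1, 1, 1) then c0 else 0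

lemma arr_sum {K : Type} [Field K] {L : Type} [Field L] [Algebra K L] (c3 c2 c1 c0 : 𝓞 K)
    (w : Fin 2 → L) :
    ∑ m, algebraMap K L ((arr c3 c2 c1 c0 m : 𝓞 K) : K) * mon3 w m =
      algebraMap K L c3 * w 0 ^ 3 + algebraMap K L c2 * w 0 ^ 2 * w 1 +
        algebraMap K L c1 * w 0 * w 1 ^ 2 + algebraMap K L c0 * w 1 ^ 3 := by
  simp only [Fintype.sum_prod_type, Fin.sum_univ_two, arr, mon3]
  simp
  ring

/-- the coefficients for duplication -/
def dupArr {R : Type} [CommRing R] (A B : R) :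
    (Fin 2 × Fin 2) × (Fin 2 × Fin 2 × Fin 2) → R := fun a =>
  if a.1 = (0, 0) then arr (4 * (4 * A ^ 3 + 27 * B ^ 2)) (-(4 * A ^ 2 * B))
      (4 * A * (3 * A ^ 3 + 22 * B ^ 2)) (12 * B * (A ^ 3 + 8 * B ^ 2)) a.2
  else if a.1 = (0, 1) then arr (A ^ 2 * B) (A * (5 * A ^ 3 + 32 * B ^ 2))
      (2 * B * (13 * A ^ 3 + 96 * B ^ 2)) (-(3 * A ^ 2 * (A ^ 3 + 8 * B ^ 2))) a.2
  else if a.1 = (1, 0) then arr 0 12 0 (16 * A) a.2
  else arr (-3) 0 (5 * A) (27 * B) a.2

section frms

variable {K : Type} [Field K] {L : Type} [Field L] [Algebra K L] (a b : 𝓞 K) (w : Fin 2 → L)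

lemma frm00 : frm (dupArr a b) w (0, 0) =
    4 * (4 * algebraMap K L a ^ 3 + 27 * algebraMap K L b ^ 2) * w 0 ^ 3 -
      4 * algebraMap K L a ^ 2 * algebraMap K L b * w 0 ^ 2 * w 1 +
      4 * algebraMap K L a * (3 * algebraMap K L a ^ 3 + 22 * algebraMap K L b ^ 2) * w 0 * w 1 ^ 2 +
      12 * algebraMap K L b * (algebraMap K L a ^ 3 + 8 * algebraMap K L b ^ 2) * w 1 ^ 3 := by
  have h : frm (dupArr a b) w (0, 0) = ∑ m, algebraMap K L ((arr (4 * (4 * a ^ 3 + 27 * b ^ 2))
      (-(4 * a ^ 2 * b)) (4 * a * (3 * a ^ 3 + 22 * b ^ 2)) (12 * b * (a ^ 3 + 8 * b ^ 2)) m :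
        𝓞 K) : K) *
      mon3 w m := rfl
  rw [h, arr_sum]
  simp [map_ofNat]
  ring

lemma frm01 : frm (dupArr a b) w (0, 1) =
    algebraMap K L a ^ 2 * algebraMap K L b * w 0 ^ 3 +
      algebraMap K L a * (5 * algebraMap K L a ^ 3 + 32 * algebraMap K L b ^ 2) * w 0 ^ 2 * w 1 +
      2 * algebraMap K L b * (13 * algebraMap K L a ^ 3 + 96 * algebraMap K L b ^ 2) *
        w 0 * w 1 ^ 2 -
      3 * algebraMap K L a ^ 2 * (algebraMap K L a ^ 3 + 8 * algebraMap K L b ^ 2) * w 1 ^ 3 := by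
  have h : frm (dupArr a b) w (0, 1) = ∑ m, algebraMap K L ((arr (a ^ 2 * b)
      (a * (5 * a ^ 3 + 32 * b ^ 2)) (2 * b * (13 * a ^ 3 + 96 * b ^ 2))
      (-(3 * a ^ 2 * (a ^ 3 + 8 * b ^ 2))) m : 𝓞 K) : K) * mon3 w m := rfl
  rw [h, arr_sum]
  simp [map_ofNat]
  ring

lemma frm10 : frm (dupArr a b) w (1, 0) = 12 * w 0 ^ 2 * w 1 + 16 * algebraMap K L a * w 1 ^ 3 := by
  have h : frm (dupArr a b) w (1, 0) = ∑ m, algebraMap K L ((arr 0 12 0 (16 * a) m : 𝓞 K) : K) *
      mon3 w m := rfl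
  rw [h, arr_sum]
  simp [map_ofNat]

lemma frm11 : frm (dupArr a b) w (1, 1) = -3 * w 0 ^ 3 + 5 * algebraMap K L a * w 0 * w 1 ^ 2 +
    27 * algebraMap K L b * w 1 ^ 3 := by
  have h : frm (dupArr a b) w (1, 1) = ∑ m, algebraMap K L ((arr (-3) 0 (5 * a) (27 * b) m : 𝓞 K) : K) *
      mon3 w m := rfl
  rw [h, arr_sum]
  simp [map_ofNat]

end frms

theorem udup {K : Type} [Field K] [NumberField K] (a b : 𝓞 K)
    (hab : 4 * (a : K) ^ 3 + 27 * (b : K) ^ 2 ≠ 0) : ∃ C : ℝ, 0 ≤ C ∧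
    ∀ (L : Type) [Field L] [NumberField L] [Algebra K L] [DecidableEq L]
      (P : SPt (algebraMap K L a) (algebraMap K L b)),
      4 * sht P - C * totalWeight L ≤ sht (P + P) := by
  obtain ⟨c, hc, h⟩ := frm_height (dupArr a b)
  refine ⟨c + Real.log 2, by positivity, fun L _ _ _ _ P => ?_⟩
  have hab' : 4 * (algebraMap K L a) ^ 3 + 27 * (algebraMap K L b) ^ 2 ≠ 0 := by
    have h1 : algebraMap K L (4 * (a : K) ^ 3 + 27 * (b : K) ^ 2) ≠ 0 := by
      rw [ne_eq, map_eq_zero]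
      exact hab
    rw [map_add, map_mul, map_mul, map_pow, map_pow, map_ofNat, map_ofNat] at h1
    exact h1
  obtain ⟨k, hk, h1⟩ := saddSub_sym2x hab' P P
  set x0 := P.xRep 0 with hx0
  set x1 := P.xRep 1 with hx1
  set z0 := (P + P).xRep 0 with hz0
  set z1 := (P + P).xRep 1 with hz1
  have hs : P.sym2x P = ![x0 * x0, x0 * x1 + x1 * x0, x1 * x1] := rfl
  have hs2 : (P + P).sym2x (P - P) = ![z0, z1, 0] := by
    rw [sub_self]
    have : (P + P).sym2x 0 = ![z0 * 1, z0 * 0 + z1 * 1, z1 * 0] := rfl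
    rw [this]
    simp
  rw [hs, hs2, seval_addSub] at h1
  have e0 := congrFun h1 0
  have e1 := congrFun h1 1
  simp at e0 e1
  have h2 := logHeight_linearMap_apply_le (frm (dupArr a b) ![x0, x1]) ![k * z0, k * z1]
  have h3 : (fun j => ∑ i, frm (dupArr a b) ![x0, x1] (j, i) * ![k * z0, k * z1] i) =
      (4 * (4 * (algebraMap K L a) ^ 3 + 27 * (algebraMap K L b) ^ 2)) • (![x0, x1] ^ 7) := by
    ext j
    fin_cases j
    · simp only [Fin.sum_univ_two, Fin.zero_eta, frm00, frm01]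
      simp
      rw [← e0, ← e1]
      ring
    · simp only [Fin.sum_univ_two, Fin.mk_one, frm10, frm11]
      simp
      rw [← e0, ← e1]
      ring
  have h4 : ![k * z0, k * z1] = k • ![z0, z1] := by
    ext i
    fin_cases i <;> simp
  have hP : P.xRep = ![x0, x1] := by
    ext i
    fin_cases i <;> rfl
  have hPP : (P + P).xRep = ![z0, z1] := by
    ext i
    fin_cases i <;> rfl
  rw [h3, logHeight_smul_eq_logHeight _ (mul_ne_zero (by norm_num) hab'), logHeight_pow, h4,
    logHeight_smul_eq_logHeight _ hk, ← hP, ← hPP] at h2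
  have h5 := h L P.xRep
  have h6 : Nat.card (Fin 2) = 2 := by simp
  rw [h6] at h2
  rw [sht, sht]
  push_cast at h2
  linarith

end Pool.Agent.TH910.LS
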