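import Mathlib
import Pool.Agent.TH910.LS.UDup

/-!
# Heights of polynomials in two integers
-/

set_option autoImplicit false
set_option linter.unusedSectionVars false

open Height NumberField IsDedekindDomain

namespace Pool.Agent.TH910.LS

open Pool.Agent.TH942

lemma pol_bd (p : MvPolynomial (Fin 2) ℤ) : ∃ n : ℝ, ∃ m : ℕ, 1 ≤ n ∧ ∀ x y : ℂ,
    ‖MvPolynomial.aeval ![x, y] p‖ ≤ n * (max 1 ‖x‖ * max 1 ‖y‖) ^ m := by
  have ht : ∀ x y : ℂ, 1 ≤ max 1 ‖x‖ * max 1 ‖y‖ := fun x y =>
    one_le_mul_of_one_le_of_one_le (le_max_left _ _) (le_max_left _ _)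
  induction p using MvPolynomial.induction_on with
  | C k =>
    refine ⟨max 1 ‖(k : ℂ)‖, 0, le_max_left _ _, fun x y => ?_⟩
    simp
  | add p q hp hq =>
    obtain ⟨n1, m1, h1, hp⟩ := hp
    obtain ⟨n2, m2, h2, hq⟩ := hq
    refine ⟨n1 + n2, m1 + m2, by linarith, fun x y => ?_⟩
    rw [map_add]
    have e1 : (max 1 ‖x‖ * max 1 ‖y‖) ^ m1 ≤ (max 1 ‖x‖ * max 1 ‖y‖) ^ (m1 + m2) :=
      pow_le_pow_right₀ (ht x y) (Nat.le_add_right _ _)
    have e2 : (max 1 ‖x‖ * max 1 ‖y‖) ^ m2 ≤ (max 1 ‖x‖ * max 1 ‖y‖) ^ (m1 + m2) :=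
      pow_le_pow_right₀ (ht x y) (Nat.le_add_left _ _)
    calc _ ≤ _ := norm_add_le _ _
      _ ≤ n1 * (max 1 ‖x‖ * max 1 ‖y‖) ^ m1 + n2 * (max 1 ‖x‖ * max 1 ‖y‖) ^ m2 :=
        add_le_add (hp x y) (hq x y)
      _ ≤ n1 * (max 1 ‖x‖ * max 1 ‖y‖) ^ (m1 + m2) + n2 * (max 1 ‖x‖ * max 1 ‖y‖) ^ (m1 + m2) := by
        gcongr
      _ = _ := by ring
  | mul_X p i hp =>
    obtain ⟨n1, m1, h1, hp⟩ := hp
    refine ⟨n1, m1 + 1, h1, fun x y => ?_⟩
    rw [map_mul, MvPolynomial.aeval_X, norm_mul, pow_succ, ← mul_assoc]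
    refine mul_le_mul (hp x y) ?_ (norm_nonneg _) (by positivity)
    fin_cases i
    · exact (le_max_right 1 ‖x‖).trans (le_mul_of_one_le_right (by positivity) (le_max_left _ _))
    · exact (le_max_right 1 ‖y‖).trans (le_mul_of_one_le_left (by positivity) (le_max_left _ _))

lemma prod_le_mulHeight₁ {K : Type} [Field K] [NumberField K] (a : 𝓞 K) :
    ∏ v : InfinitePlace K, (max 1 (v (a : K))) ^ v.mult = mulHeight₁ (a : K) := by
  rw [NumberField.mulHeight₁_eq]
  have h1 : (∏ᶠ v : FinitePlace K, max (v (a : K)) 1) = 1 := by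
    apply finprod_eq_one_of_forall_eq_one
    intro v
    apply max_eq_right
    have h2 := FinitePlace.norm_le_one K v.maximalIdeal a
    have h3 := FinitePlace.norm_embedding_eq v (a : K)
    rw [← h3]
    exact h2
  rw [h1, mul_one]
  apply Finset.prod_congr rfl
  intro v _
  rw [max_comm]

theorem height_pol {ι : Type} [Fintype ι] (p : ι → MvPolynomial (Fin 2) ℤ) :
    ∃ c : ℝ, 0 ≤ c ∧ ∃ m : ℕ, ∀ (K : Type) [Field K] [NumberField K] (a b : 𝓞 K),
      logHeight (fun i => (MvPolynomial.aeval ![(a : K), (b : K)] (p i) : K)) ≤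
        c * totalWeight K + m * (logHeight₁ (a : K) + logHeight₁ (b : K)) := by
  choose n m hn h using fun i => pol_bd (p i)
  set s : ℝ := 1 + ∑ i, n i with hs
  set m' : ℕ := ∑ i, m i with hm'
  have hn0 : ∀ i, 0 ≤ n i := fun i => zero_le_one.trans (hn i)
  have hs1 : 1 ≤ s := by
    have : 0 ≤ ∑ i, n i := Finset.sum_nonneg fun i _ => hn0 i
    linarith
  refine ⟨Real.log s, Real.log_nonneg hs1, m', fun K _ _ a b => ?_⟩
  have hh0 : 0 ≤ logHeight₁ (a : K) + logHeight₁ (b : K) :=
    add_nonneg (zero_le_logHeight₁ _) (zero_le_logHeight₁ _)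
  set x : ι → K := fun i => (MvPolynomial.aeval ![(a : K), (b : K)] (p i) : K) with hx
  by_cases h0 : x = 0
  · rw [h0, logHeight_zero]
    have := Real.log_nonneg hs1
    positivity
  obtain ⟨i₀, hi₀⟩ := Function.ne_iff.1 h0
  have hne : Nonempty ι := ⟨i₀⟩
  have hxint : ∀ i, ∃ z : 𝓞 K, (z : K) = x i := by
    intro i
    refine ⟨MvPolynomial.aeval ![a, b] (p i), ?_⟩
    rw [hx]
    have e1 := MvPolynomial.map_aeval (![a, b]) (algebraMap (𝓞 K) K) (p i)
    have e2 : (algebraMap (𝓞 K) K) (MvPolynomial.aeval ![a, b] (p i)) =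
        MvPolynomial.aeval ![(a : K), (b : K)] (p i) := by
      rw [e1, MvPolynomial.aeval_def, MvPolynomial.coe_eval₂Hom]
      congr 1
      ext i
      fin_cases i <;> rfl
    exact e2
  have ht : ∀ v : InfinitePlace K, 1 ≤ max 1 (v (a : K)) * max 1 (v (b : K)) := fun v =>
    one_le_mul_of_one_le_of_one_le (le_max_left _ _) (le_max_left _ _)
  have h1 : mulHeight x ≤ s ^ totalWeight K * (mulHeight₁ (a : K) * mulHeight₁ (b : K)) ^ m' := by
    rw [NumberField.mulHeight_eq h0]
    have hf : ∀ v : FinitePlace K, 0 ≤ (⨆ i, v (x i)) ∧ (⨆ i, v (x i)) ≤ 1 := by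
      intro v
      constructor
      · exact Real.iSup_nonneg fun i => apply_nonneg v _
      · apply ciSup_le
        intro i
        obtain ⟨z, hz⟩ := hxint i
        have h2 := FinitePlace.norm_le_one K v.maximalIdeal z
        have h3 := FinitePlace.norm_embedding_eq v (z : K)
        rw [← hz, ← h3]
        exact h2
    have hfin : (∏ᶠ v : FinitePlace K, ⨆ i, v (x i)) ≤ 1 ∧
        0 ≤ (∏ᶠ v : FinitePlace K, ⨆ i, v (x i)) := by
      apply finprod_induction (p := fun x : ℝ => x ≤ 1 ∧ 0 ≤ x)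
      · exact ⟨le_refl _, zero_le_one⟩
      · intro x y hx hy
        exact ⟨mul_le_one₀ hx.1 hy.2 hy.1, mul_nonneg hx.2 hy.2⟩
      · intro v
        exact ⟨(hf v).2, (hf v).1⟩
    have hinf : (∏ v : InfinitePlace K, (⨆ i, v (x i)) ^ v.mult) ≤
        s ^ totalWeight K * (mulHeight₁ (a : K) * mulHeight₁ (b : K)) ^ m' := by
      rw [← prod_le_mulHeight₁, ← prod_le_mulHeight₁, ← Finset.prod_mul_distrib,
        ← Finset.prod_pow, NumberField.totalWeight_eq_sum_mult, ← Finset.prod_pow_eq_pow_sum,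
        ← Finset.prod_mul_distrib]
      apply Finset.prod_le_prod
      · intro v _
        exact pow_nonneg (Real.iSup_nonneg fun i => apply_nonneg v _) _
      · intro v _
        rw [← mul_pow, ← pow_mul, mul_comm v.mult m', pow_mul, ← mul_pow]
        apply pow_le_pow_left₀ (Real.iSup_nonneg fun i => apply_nonneg v _)
        apply ciSup_le
        intro i
        have h2 : v (x i) = ‖MvPolynomial.aeval ![v.embedding (a : K), v.embedding (b : K)]
            (p i)‖ := by
          rw [← InfinitePlace.norm_embedding_eq]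
          congr 1
          have e1 := MvPolynomial.map_aeval (![(a : K), (b : K)]) v.embedding (p i)
          rw [hx]
          change v.embedding (MvPolynomial.aeval ![(a : K), (b : K)] (p i)) = _
          have hr : v.embedding.comp (algebraMap ℤ K) = algebraMap ℤ ℂ := RingHom.ext_int _ _
          have hg : (fun k => v.embedding ((![(a : K), (b : K)] : Fin 2 → K) k)) =
              ![v.embedding (a : K), v.embedding (b : K)] := by
            ext k
            fin_cases k <;> rfl
          rw [e1, MvPolynomial.aeval_def, MvPolynomial.coe_eval₂Hom, hr, hg]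
        rw [h2]
        refine (h i _ _).trans ?_
        rw [InfinitePlace.norm_embedding_eq, InfinitePlace.norm_embedding_eq]
        have e3 : n i ≤ s := by
          have := Finset.single_le_sum (f := n) (fun i _ => hn0 i) (Finset.mem_univ i)
          linarith
        have e4 : m i ≤ m' := Finset.single_le_sum (f := m) (fun i _ => Nat.zero_le _)
          (Finset.mem_univ i)
        exact mul_le_mul e3 (pow_le_pow_right₀ (ht v) e4) (by positivity) (by positivity)
    calc _ ≤ (s ^ totalWeight K * (mulHeight₁ (a : K) * mulHeight₁ (b : K)) ^ m') * 1 :=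
          mul_le_mul hinf hfin.1 hfin.2 (by positivity)
      _ = _ := mul_one _
  rw [logHeight_eq_log_mulHeight]
  have hpa := mulHeight₁_pos (a : K)
  have hpb := mulHeight₁_pos (b : K)
  calc Real.log (mulHeight x) ≤
        Real.log (s ^ totalWeight K * (mulHeight₁ (a : K) * mulHeight₁ (b : K)) ^ m') :=
        Real.log_le_log (mulHeight_pos _) h1
    _ = Real.log s * totalWeight K + m' * (logHeight₁ (a : K) + logHeight₁ (b : K)) := by
      rw [Real.log_mul (by positivity) (by positivity), Real.log_pow, Real.log_pow,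
        Real.log_mul hpa.ne' hpb.ne', logHeight₁_eq_log_mulHeight₁, logHeight₁_eq_log_mulHeight₁]
      ring

end Pool.Agent.TH910.LS
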