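import Mathlib

/-!
# Splitting a lattice by an idempotent with a denominator
-/

set_option autoImplicit false
set_option linter.unusedSectionVars false

open Matrix

namespace Pool.Agent.TH910.LS

/-- factorization of a multiple of an idempotent through a direct factor of the lattice -/
lemma exists_fac {g : ℕ} {N : ℤ} (φ : Matrix (Fin g) (Fin g) ℤ) (h : φ * φ = N • φ) :
    ∃ (m : ℕ) (β : Matrix (Fin g) (Fin m) ℤ) (β' γ : Matrix (Fin m) (Fin g) ℤ),
      β' * β = 1 ∧ β * γ = φ ∧ γ * β = N • 1 := by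
  set f : (Fin g → ℤ) →ₗ[ℤ] (Fin g → ℤ) := Matrix.mulVecLin φ with hf
  set ψ : (Fin g → ℤ) →ₗ[ℤ] (Fin g → ℤ) := f - N • LinearMap.id with hψ
  obtain ⟨s, hs⟩ := Module.projective_lifting_property ψ.rangeRestrict
    (LinearMap.id : LinearMap.range ψ →ₗ[ℤ] LinearMap.range ψ) ψ.surjective_rangeRestrict
  set S := LinearMap.ker ψ with hS
  let π : (Fin g → ℤ) →ₗ[ℤ] S :=
    (LinearMap.id - s ∘ₗ ψ.rangeRestrict).codRestrict S (by
      intro x
      rw [hS, LinearMap.mem_ker]
      have h1 := LinearMap.congr_fun hs (ψ.rangeRestrict x)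
      have h2 := congrArg Subtype.val h1
      have h3 : ψ (s (ψ.rangeRestrict x)) = ψ x := h2
      simp only [LinearMap.sub_apply, LinearMap.id_apply, LinearMap.comp_apply, map_sub]
      rw [h3, sub_self])
  have hπ : ∀ x : S, π x = x := by
    intro x
    apply Subtype.ext
    have h1 : ψ.rangeRestrict (x : Fin g → ℤ) = 0 := by
      apply Subtype.ext
      exact x.2
    simp [π, h1]
  have hφS : ∀ x, f x ∈ S := by
    intro x
    rw [hS, LinearMap.mem_ker]
    simp only [hψ, hf, LinearMap.sub_apply, LinearMap.smul_apply, LinearMap.id_apply,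
      Matrix.mulVecLin_apply, Matrix.mulVec_mulVec, h, Matrix.smul_mulVec, sub_self]
  let F : (Fin g → ℤ) →ₗ[ℤ] S := f.codRestrict S hφS
  let B := Module.finBasis ℤ S
  refine ⟨Module.finrank ℤ S, LinearMap.toMatrix B (Pi.basisFun ℤ (Fin g)) S.subtype,
    LinearMap.toMatrix (Pi.basisFun ℤ (Fin g)) B π,
    LinearMap.toMatrix (Pi.basisFun ℤ (Fin g)) B F, ?_, ?_, ?_⟩
  · rw [← LinearMap.toMatrix_comp]
    have : π ∘ₗ S.subtype = LinearMap.id := by
      ext x : 1
      exact hπ x
    rw [this, LinearMap.toMatrix_id]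
  · rw [← LinearMap.toMatrix_comp]
    have : S.subtype ∘ₗ F = f := by
      ext x : 1
      rfl
    rw [this, hf, ← Matrix.toLin'_apply', LinearMap.toMatrix_eq_toMatrix', LinearMap.toMatrix'_toLin']
  · rw [← LinearMap.toMatrix_comp]
    have : F ∘ₗ S.subtype = N • LinearMap.id := by
      ext x : 1
      apply Subtype.ext
      have h1 : ψ x = 0 := x.2
      rw [hψ, LinearMap.sub_apply, sub_eq_zero] at h1
      exact h1
    rw [this, map_smul, LinearMap.toMatrix_id]

lemma det_pos_int {m : ℕ} {C : Matrix (Fin m) (Fin m) ℤ}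
    (hC : (C.map (Int.cast : ℤ → ℝ)).PosDef) : 0 < C.det := by
  have h6 := hC.det_pos
  have h7 : (C.map (Int.cast : ℤ → ℝ)).det = (C.det : ℝ) :=
    ((Int.castRingHom ℝ).map_det C).symm
  rw [h7] at h6
  exact_mod_cast h6

lemma posDef_restrict {g m : ℕ} {M : Matrix (Fin g) (Fin g) ℤ}
    (hM : (M.map (Int.cast : ℤ → ℝ)).PosDef) {β : Matrix (Fin g) (Fin m) ℤ}
    {β' : Matrix (Fin m) (Fin g) ℤ} (h : β' * β = 1) :
    ((βᵀ * M * β).map (Int.cast : ℤ → ℝ)).PosDef := by
  have h1 : (βᵀ * M * β).map (Int.cast : ℤ → ℝ) =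
      (β.map (Int.cast : ℤ → ℝ))ᴴ * M.map (Int.cast : ℤ → ℝ) * β.map (Int.cast : ℤ → ℝ) := by
    have e1 := Matrix.map_mul (L := βᵀ * M) (M := β) (f := Int.castRingHom ℝ)
    have e2 := Matrix.map_mul (L := βᵀ) (M := M) (f := Int.castRingHom ℝ)
    change (βᵀ * M * β).map (Int.castRingHom ℝ) = _
    rw [e1, e2]
    rfl
  rw [h1]
  apply hM.conjTranspose_mul_mul_same
  have h2 : β'.map (Int.cast : ℤ → ℝ) * β.map (Int.cast : ℤ → ℝ) = 1 := by
    have e1 := Matrix.map_mul (L := β') (M := β) (f := Int.castRingHom ℝ)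
    rw [h] at e1
    change β'.map (Int.castRingHom ℝ) * β.map (Int.castRingHom ℝ) = _
    rw [← e1]
    exact Matrix.map_one _ (map_zero _) (map_one _)
  intro x y hxy
  have h3 := congrArg (fun z => β'.map (Int.cast : ℤ → ℝ) *ᵥ z) hxy
  simpa [Matrix.mulVec_mulVec, h2] using h3

/-- the orthogonal splitting of a positive definite lattice, up to a denominator -/
theorem split_det {g : ℕ} {N : ℤ} (hN : 0 < N) (φ M : Matrix (Fin g) (Fin g) ℤ)
    (h : φ * φ = N • φ) (hne : φ ≠ N • 1) (hM : (M.map (Int.cast : ℤ → ℝ)).PosDef)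
    (hMφ : φᵀ * M = M * φ) :
    ∃ (m : ℕ) (β : Matrix (Fin g) (Fin m) ℤ) (β' γ : Matrix (Fin m) (Fin g) ℤ), m < g ∧
      β' * β = 1 ∧ β * γ = φ ∧ γ * β = N • 1 ∧ (βᵀ * M * β).det ≤ N ^ (2 * g) * M.det := by
  obtain ⟨m, β, β', γ, h1, h2, h3⟩ := exists_fac φ h
  set θ : Matrix (Fin g) (Fin g) ℤ := N • 1 - φ with hθ
  have hθ2 : θ * θ = N • θ := by
    rw [hθ, sub_mul, mul_sub, mul_sub, h]
    simp only [smul_mul_assoc, mul_smul_comm, one_mul, mul_one, smul_sub]
    abel
  obtain ⟨c, κ, κ', δ, k1, k2, k3⟩ := exists_fac θ hθ2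
  -- the ranks
  have htr : m + c = g := by
    have e1 : (β * γ).trace + (κ * δ).trace = N * g := by
      rw [h2, k2, ← Matrix.trace_add, hθ, add_sub_cancel, Matrix.trace_smul, Matrix.trace_one,
        Fintype.card_fin, smul_eq_mul]
    rw [Matrix.trace_mul_comm β γ, Matrix.trace_mul_comm κ δ, h3, k3, Matrix.trace_smul,
      Matrix.trace_smul, Matrix.trace_one, Matrix.trace_one, Fintype.card_fin, Fintype.card_fin,
      smul_eq_mul, smul_eq_mul, ← mul_add] at e1
    have e2 := mul_left_cancel₀ hN.ne' e1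
    exact_mod_cast e2
  have hc : 0 < c := by
    rcases Nat.eq_zero_or_pos c with h0 | h0
    · exfalso
      subst h0
      have e1 : θ = 0 := by
        rw [← k2]
        ext i j
        simp [Matrix.mul_apply]
      apply hne
      rw [hθ, sub_eq_zero] at e1
      exact e1.symm
    · exact h0
  refine ⟨m, β, β', γ, by omega, h1, h2, h3, ?_⟩
  have hA := det_pos_int (posDef_restrict hM h1)
  have hC := det_pos_int (posDef_restrict hM k1)
  have hMd := det_pos_int hM
  set A := βᵀ * M * β with hAd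
  set C := κᵀ * M * κ with hCd
  -- the quadratic form
  have hθM : θᵀ * M = M * θ := by
    rw [hθ, Matrix.transpose_sub, sub_mul, mul_sub, hMφ, Matrix.transpose_smul,
      Matrix.transpose_one, smul_mul_assoc, mul_smul_comm, one_mul, mul_one]
  have hsum : (N * N) • M = γᵀ * A * γ + δᵀ * C * δ := by
    have e1 : γᵀ * A * γ = φᵀ * M * φ := by
      rw [hAd, ← h2, Matrix.transpose_mul]
      simp only [Matrix.mul_assoc]
    have e2 : δᵀ * C * δ = θᵀ * M * θ := by
      rw [hCd, ← k2, Matrix.transpose_mul]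
      simp only [Matrix.mul_assoc]
    rw [e1, e2, hMφ, hθM, Matrix.mul_assoc, Matrix.mul_assoc, h, hθ2, ← Matrix.mul_add, ← smul_add,
      hθ, add_sub_cancel, smul_smul, mul_smul_comm, mul_one]
  let e : Fin g ≃ Fin m ⊕ Fin c := (finCongr htr.symm).trans finSumFinEquiv.symm
  set W : Matrix (Fin m ⊕ Fin c) (Fin g) ℤ := Matrix.fromRows γ δ with hW
  set D : Matrix (Fin m ⊕ Fin c) (Fin m ⊕ Fin c) ℤ := Matrix.fromBlocks A 0 0 C with hD
  have hWD : (N * N) • M = Wᵀ * D * W := by
    rw [hsum, hW, hD, Matrix.transpose_fromRows, Matrix.fromCols_mul_fromBlocks,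
      Matrix.fromCols_mul_fromRows]
    simp
  have hWD2 : (N * N) • M = (W.submatrix e id)ᵀ * D.submatrix e e * W.submatrix e id := by
    rw [hWD, Matrix.transpose_submatrix, Matrix.submatrix_mul_equiv, Matrix.submatrix_mul_equiv,
      Matrix.submatrix_id_id]
  have hdet := congrArg Matrix.det hWD2
  rw [Matrix.det_smul, Fintype.card_fin, Matrix.det_mul, Matrix.det_mul, Matrix.det_transpose,
    Matrix.det_submatrix_equiv_self, hD, Matrix.det_fromBlocks_zero₂₁] at hdet
  set x := (W.submatrix e id).det with hx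
  have hpow : (N * N) ^ g = N ^ (2 * g) := by rw [← sq, ← pow_mul]
  rw [hpow] at hdet
  have hpos : 0 < N ^ (2 * g) * M.det := by positivity
  have hx0 : x ≠ 0 := by
    intro h0
    rw [h0] at hdet
    simp only [zero_mul] at hdet
    exact hpos.ne' hdet
  have hx1 : 1 ≤ x * x := by
    have : 0 < x * x := mul_self_pos.2 hx0
    omega
  rw [hdet]
  have h5 : A.det * C.det ≤ x * (A.det * C.det) * x := by
    have e1 : x * (A.det * C.det) * x = (x * x) * (A.det * C.det) := by ring
    rw [e1]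
    exact le_mul_of_one_le_left (by positivity) hx1
  refine le_trans ?_ h5
  exact le_mul_of_one_le_right hA.le (by omega)

end Pool.Agent.TH910.LS
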