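import Mathlib

/-!
# Finite groups of integral matrices
-/

set_option autoImplicit false
set_option linter.unusedSectionVars false

open Polynomial

namespace Pool.Agent.TH910.LS

variable {g : ℕ}

/-- every entry is divisible by `m` -/
def Dv (m : ℤ) (N : Matrix (Fin g) (Fin g) ℤ) : Prop := ∃ B : Matrix (Fin g) (Fin g) ℤ, N = m • B

lemma Dv.add {m : ℤ} {N N' : Matrix (Fin g) (Fin g) ℤ} (h : Dv m N) (h' : Dv m N') :
    Dv m (N + N') := by
  obtain ⟨B, rfl⟩ := h
  obtain ⟨B', rfl⟩ := h'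
  exact ⟨B + B', by rw [smul_add]⟩

lemma Dv.neg {m : ℤ} {N : Matrix (Fin g) (Fin g) ℤ} (h : Dv m N) : Dv m (-N) := by
  obtain ⟨B, rfl⟩ := h
  exact ⟨-B, by rw [smul_neg]⟩

lemma Dv.mul {m m' : ℤ} {N N' : Matrix (Fin g) (Fin g) ℤ} (h : Dv m N) (h' : Dv m' N') :
    Dv (m * m') (N * N') := by
  obtain ⟨B, rfl⟩ := h
  obtain ⟨B', rfl⟩ := h'
  exact ⟨B * B', by rw [smul_mul_assoc, mul_smul_comm, smul_smul]⟩

lemma Dv.mul_right {m : ℤ} {N : Matrix (Fin g) (Fin g) ℤ} (h : Dv m N)
    (N' : Matrix (Fin g) (Fin g) ℤ) : Dv m (N * N') := by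
  obtain ⟨B, rfl⟩ := h
  exact ⟨B * N', by rw [smul_mul_assoc]⟩

lemma Dv.of_dvd {m m' : ℤ} (hm : m' ∣ m) {N : Matrix (Fin g) (Fin g) ℤ} (h : Dv m N) :
    Dv m' N := by
  obtain ⟨B, rfl⟩ := h
  obtain ⟨k, rfl⟩ := hm
  exact ⟨k • B, by rw [smul_smul]⟩

lemma dv_iff {m : ℤ} {N : Matrix (Fin g) (Fin g) ℤ} : Dv m N ↔ ∀ i j, m ∣ N i j := by
  constructor
  · rintro ⟨B, rfl⟩ i j
    exact ⟨B i j, by simp⟩
  · intro h
    choose B hB using h
    exact ⟨Matrix.of B, by
      ext i j
      simpa using hB i j⟩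

/-- the binomial formula up to the second order -/
lemma binom (N : Matrix (Fin g) (Fin g) ℤ) (p : ℕ) :
    ∃ Q : Matrix (Fin g) (Fin g) ℤ, (1 + N) ^ p = 1 + (p : ℤ) • N + N * N * Q := by
  induction p with
  | zero => exact ⟨0, by simp⟩
  | succ p ih =>
    obtain ⟨Q, hQ⟩ := ih
    refine ⟨(p : ℤ) • 1 + Q * (1 + N), ?_⟩
    have e1 : N * N * ((p : ℤ) • 1 + Q * (1 + N)) = (p : ℤ) • (N * N) + N * N * Q * (1 + N) := by
      rw [mul_add, mul_smul_comm, mul_one, mul_assoc (N * N)]
    have e2 : (1 + (p : ℤ) • N + N * N * Q) * (1 + N) =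
        1 + N + ((p : ℤ) • N + (p : ℤ) • (N * N)) + N * N * Q * (1 + N) := by
      rw [add_mul, add_mul, one_mul, smul_mul_assoc, mul_add N, mul_one, smul_add]
    rw [pow_succ, hQ, e1, e2]
    push_cast
    rw [add_smul, one_smul]
    abel

/-- the step -/
lemma dv_step {N : Matrix (Fin g) (Fin g) ℤ} {p : ℕ} (hp : p.Prime) (h1 : (1 + N) ^ p = 1)
    {k : ℕ} (hk : 1 ≤ k) (hN : Dv (3 ^ k) N) : Dv (3 ^ (k + 1)) N := by
  have hNN : Dv (3 ^ (2 * k)) (N * N) := by
    have := hN.mul hN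
    rwa [← pow_add, ← two_mul] at this
  by_cases h3 : p = 3
  · subst h3
    have e : (3 : ℤ) • N = -((3 : ℤ) • (N * N) + N * N * N) := by
      have h2 : (1 + N) ^ 3 = 1 + ((3 : ℤ) • N + ((3 : ℤ) • (N * N) + N * N * N)) := by
        noncomm_ring
      rw [h2] at h1
      have h4 : (3 : ℤ) • N + ((3 : ℤ) • (N * N) + N * N * N) = 0 := by
        have := h1
        rwa [add_eq_left] at this
      exact eq_neg_of_add_eq_zero_left h4
    have hd : Dv (3 ^ (k + 2)) ((3 : ℤ) • N) := by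
      rw [e]
      apply Dv.neg
      apply Dv.add
      · rw [dv_iff] at hNN ⊢
        intro i j
        rw [Matrix.smul_apply, smul_eq_mul]
        have h5 : (3 : ℤ) ^ (k + 2) ∣ 3 * 3 ^ (2 * k) := by
          rw [← pow_succ']
          exact pow_dvd_pow _ (by omega)
        exact h5.trans (mul_dvd_mul_left _ (hNN i j))
      · have h5 := hNN.mul hN
        rw [← pow_add] at h5
        exact h5.of_dvd (pow_dvd_pow _ (by omega))
    rw [dv_iff] at hd ⊢
    intro i j
    have h5 := hd i j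
    rw [Matrix.smul_apply, smul_eq_mul, show k + 2 = (k + 1) + 1 from rfl, pow_succ' _ (k + 1)] at h5
    exact (mul_dvd_mul_iff_left (by norm_num)).1 h5
  · obtain ⟨Q, hQ⟩ := binom N p
    rw [hQ] at h1
    have e : (p : ℤ) • N = -(N * N * Q) := by
      rw [add_assoc, add_eq_left] at h1
      exact eq_neg_of_add_eq_zero_left h1
    have hd : Dv (3 ^ (k + 1)) ((p : ℤ) • N) := by
      rw [e]
      exact ((hNN.mul_right Q).neg).of_dvd (pow_dvd_pow _ (by omega))
    rw [dv_iff] at hd ⊢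
    intro i j
    have h5 := hd i j
    rw [Matrix.smul_apply, smul_eq_mul] at h5
    have hcop : IsCoprime ((3 : ℤ) ^ (k + 1)) (p : ℤ) := by
      apply IsCoprime.pow_left
      have h6 : Nat.Coprime 3 p := (Nat.coprime_primes Nat.prime_three hp).2 (Ne.symm h3)
      exact_mod_cast Nat.isCoprime_iff_coprime.2 h6
    exact hcop.dvd_of_dvd_mul_left h5

/-- a matrix of finite order which is congruent to one modulo three is one -/
theorem eq_one_of_mod_three {A : Matrix (Fin g) (Fin g) ℤ} (hA : Dv 3 (A - 1)) :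
    ∀ {n : ℕ}, 0 < n → A ^ n = 1 → A = 1 := by
  have key : ∀ (A : Matrix (Fin g) (Fin g) ℤ) (p : ℕ), p.Prime → Dv 3 (A - 1) → A ^ p = 1 →
      A = 1 := by
    intro A p hp hA hAp
    have hN : ∀ k : ℕ, Dv (3 ^ (k + 1)) (A - 1) := by
      intro k
      induction k with
      | zero => simpa using hA
      | succ k ih =>
        apply dv_step hp _ (by omega) ih
        rw [add_sub_cancel]
        exact hAp
    rw [← sub_eq_zero]
    ext i j
    rw [Matrix.zero_apply]
    by_contra h0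
    have h1 := (dv_iff.1 (hN ((A - 1) i j).natAbs)) i j
    have h2 := Int.natAbs_dvd_natAbs.2 h1
    have h3 := Nat.le_of_dvd (Int.natAbs_pos.2 h0) h2
    rw [Int.natAbs_pow] at h3
    have h4 : ((A - 1) i j).natAbs + 1 < (3 : ℤ).natAbs ^ (((A - 1) i j).natAbs + 1) :=
      Nat.lt_pow_self (by norm_num)
    omega
  intro n
  induction n using Nat.strong_induction_on with
  | _ n ih =>
    intro hn hAn
    by_cases h1 : n = 1
    · subst h1
      simpa using hAn
    · obtain ⟨p, hp, m, rfl⟩ := Nat.exists_prime_and_dvd h1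
      have hm : 0 < m := Nat.pos_of_ne_zero (by rintro rfl; simp at hn)
      have hAm : Dv 3 (A ^ m - 1) := by
        obtain ⟨B, hB⟩ := hA
        have h2 : A ^ m - 1 = (A - 1) * ∑ i ∈ Finset.range m, A ^ i := (mul_geom_sum A m).symm
        rw [h2]
        exact Dv.mul_right ⟨B, hB⟩ _
      have h3 := key (A ^ m) p hp hAm (by rw [← pow_mul, mul_comm]; exact hAn)
      refine ih m ?_ hm h3
      have := hp.two_le
      nlinarith

/-- **Minkowski.** A finite group with an injective representation by integral matrices of size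
`g` has at most `3 ^ (g * g)` elements. -/
theorem minkowski {G : Type} [Group G] [Fintype G] (ρ : G →* Matrix (Fin g) (Fin g) ℤ)
    (hρ : ∀ s, ρ s = 1 → s = 1) : Fintype.card G ≤ 3 ^ (g * g) := by
  classical
  have hinj : Function.Injective (fun s : G => (ρ s).map (Int.castRingHom (ZMod 3))) := by
    intro s t hst
    have hmod : Dv 3 (ρ (s * t⁻¹) - 1) := by
      have h1 : ρ (s * t⁻¹) - 1 = (ρ s - ρ t) * ρ t⁻¹ := by
        rw [sub_mul, ← map_mul, ← map_mul, mul_inv_cancel, map_one]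
      rw [h1]
      apply Dv.mul_right
      rw [dv_iff]
      intro i j
      have h2 := congrFun (congrFun hst i) j
      simp only [Matrix.map_apply] at h2
      rw [Matrix.sub_apply]
      have h3 : ((ρ s i j - ρ t i j : ℤ) : ZMod 3) = 0 := by
        push_cast
        rw [sub_eq_zero]
        exact h2
      exact_mod_cast (ZMod.intCast_zmod_eq_zero_iff_dvd _ 3).1 h3
    have h4 : ρ (s * t⁻¹) ^ Fintype.card G = 1 := by
      rw [← map_pow, pow_card_eq_one, map_one]
    have h5 := hρ _ (eq_one_of_mod_three hmod Fintype.card_pos h4)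
    exact mul_inv_eq_one.1 h5
  have h1 := Fintype.card_le_of_injective _ hinj
  have h2 : Fintype.card (Matrix (Fin g) (Fin g) (ZMod 3)) = 3 ^ (g * g) := by
    have h3 : Fintype.card (Matrix (Fin g) (Fin g) (ZMod 3)) =
        Fintype.card (Fin g → Fin g → ZMod 3) := Fintype.card_congr (Equiv.refl _)
    rw [h3, Fintype.card_fun, Fintype.card_fun, ZMod.card, Fintype.card_fin, ← pow_mul]
  rwa [h2] at h1

end Pool.Agent.TH910.LS
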