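import Mathlib

/-!
# The primes in the support of an element, and its height
-/

set_option autoImplicit false
set_option linter.unusedSectionVars false

open NumberField Height IsDedekindDomain

namespace Pool.Agent.TH910.LS

variable {K : Type} [Field K] [NumberField K]

/-- the local inequality -/
lemma local_ge (v : HeightOneSpectrum (𝓞 K)) {z : K} (hz : z ≠ 0) (hv : v.valuation K z ≠ 1) :
    Real.log (Ideal.absNorm v.asIdeal) ≤
      Real.posLog (FinitePlace.mk v z) + Real.posLog (FinitePlace.mk v z⁻¹) := by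
  have hx : v.valuation K z ≠ 0 := (Valuation.ne_zero_iff _).2 hz
  set n : ℤ := (WithZero.unzero hx).toAdd with hn
  have he := NumberField.HeightOneSpectrum.one_lt_absNorm v
  have heR : (1 : ℝ) < (Ideal.absNorm v.asIdeal : ℝ) := by exact_mod_cast he
  have h1 : FinitePlace.mk v z = (Ideal.absNorm v.asIdeal : ℝ) ^ n := by
    rw [FinitePlace.mk_apply, FinitePlace.norm_embedding,
      NumberField.HeightOneSpectrum.adicAbv_def,
      WithZeroMulInt.toNNReal_neg_apply _ hx]
    push_cast
    rfl
  have hn0 : n ≠ 0 := by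
    intro h0
    apply hv
    have h2 : WithZero.unzero hx = 1 := by
      rw [hn] at h0
      exact toAdd_eq_zero.1 h0
    rw [← WithZero.coe_unzero hx, h2, WithZero.coe_one]
  have h2 : FinitePlace.mk v z⁻¹ = (Ideal.absNorm v.asIdeal : ℝ) ^ (-n) := by
    rw [map_inv₀, h1, zpow_neg]
  have hl : 0 < Real.log (Ideal.absNorm v.asIdeal) := Real.log_pos heR
  have hpl : ∀ t : ℝ, Real.posLog t = max 0 (Real.log t) := fun t => rfl
  rw [h1, h2, hpl, hpl, Real.log_zpow, Real.log_zpow]
  rcases lt_or_gt_of_ne hn0 with h | h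
  · have h3 : (n : ℝ) ≤ -1 := by exact_mod_cast (by omega : n ≤ -1)
    have h4 := le_max_right 0 (((-n : ℤ) : ℝ) * Real.log (Ideal.absNorm v.asIdeal))
    have h5 := le_max_left 0 ((n : ℝ) * Real.log (Ideal.absNorm v.asIdeal))
    push_cast at h4 ⊢
    nlinarith
  · have h3 : (1 : ℝ) ≤ n := by exact_mod_cast (by omega : 1 ≤ n)
    have h4 := le_max_left 0 (((-n : ℤ) : ℝ) * Real.log (Ideal.absNorm v.asIdeal))
    have h5 := le_max_right 0 ((n : ℝ) * Real.log (Ideal.absNorm v.asIdeal))
    push_cast at h4 ⊢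
    nlinarith

/-- a finite part of the sum over the finite places -/
lemma sum_posLog_le (S : Finset (HeightOneSpectrum (𝓞 K))) {z : K} (hz : z ≠ 0) :
    ∑ v ∈ S, Real.posLog (FinitePlace.mk v z) ≤ logHeight₁ z := by
  classical
  rw [NumberField.logHeight₁_eq]
  have h1 : (Function.mulSupport fun v : FinitePlace K => v z).Finite :=
    FinitePlace.hasFiniteMulSupport hz
  have hsub : (Function.support fun v : FinitePlace K => Real.posLog (v z)) ⊆
      ((h1.toFinset ∪ S.image FinitePlace.mk : Finset (FinitePlace K)) : Set (FinitePlace K)) := by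
    intro v hv
    rw [Finset.coe_union, Set.mem_union]
    left
    rw [Set.Finite.coe_toFinset, Function.mem_mulSupport]
    intro h2
    apply hv
    change Real.posLog (v z) = 0
    rw [h2]
    simp [Real.posLog]
  rw [finsum_eq_sum_of_support_subset _ hsub]
  have h2 : 0 ≤ ∑ v : InfinitePlace K, (v.mult : ℝ) * Real.posLog (v z) :=
    Finset.sum_nonneg fun v _ => mul_nonneg (Nat.cast_nonneg _) Real.posLog_nonneg
  have h3 : ∑ v ∈ S, Real.posLog (FinitePlace.mk v z) =
      ∑ w ∈ S.image FinitePlace.mk, Real.posLog (w z) := by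
    rw [Finset.sum_image]
    intro v _ w _ hvw
    exact FinitePlace.mk_eq_iff.1 hvw
  rw [h3]
  have h4 : ∑ w ∈ S.image FinitePlace.mk, Real.posLog (w z) ≤
      ∑ w ∈ h1.toFinset ∪ S.image FinitePlace.mk, Real.posLog (w z) :=
    Finset.sum_le_sum_of_subset_of_nonneg Finset.subset_union_right
      (fun _ _ _ => Real.posLog_nonneg)
  linarith

/-- **The support of an element is bounded by its height.** -/
theorem support_le (S : Finset (HeightOneSpectrum (𝓞 K))) {z : K} (hz : z ≠ 0)
    (hS : ∀ v ∈ S, v.valuation K z ≠ 1) :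
    ∑ v ∈ S, Real.log (Ideal.absNorm v.asIdeal) ≤ 2 * logHeight₁ z := by
  have h1 := sum_posLog_le S hz
  have h2 := sum_posLog_le S (inv_ne_zero hz)
  rw [logHeight₁_inv] at h2
  have h3 : ∑ v ∈ S, Real.log (Ideal.absNorm v.asIdeal) ≤
      ∑ v ∈ S, (Real.posLog (FinitePlace.mk v z) + Real.posLog (FinitePlace.mk v z⁻¹)) :=
    Finset.sum_le_sum fun v hv => local_ge v hz (hS v hv)
  rw [Finset.sum_add_distrib] at h3
  linarith

end Pool.Agent.TH910.LS
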