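import Mathlib
import Pool.Agent.TH910.LS.Low
import Pool.Agent.TH910.LS.Odd

/-!
# Uniform finiteness, and the bound for a family
-/

set_option autoImplicit false
set_option linter.unusedSectionVars false

open Filter Topology Matrix Height WeierstrassCurve NumberField IsDedekindDomain

namespace Pool.Agent.TH910.LS

open Pool.Agent.TH942

variable {K : Type} [Field K] [NumberField K] {a b : K}

lemma nht_fin {m : ℕ} (hm : m ≠ 0) {D : K} (hD : D ≠ 0) (B : ℝ) :
    {P : SPt a b | nht m D P ≤ B}.Finite := by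
  refine (sfinite_ht (a := a) (b := b) (B + logHeight₁ D)).subset ?_
  intro P hP
  simp only [Set.mem_ofPred_eq] at hP ⊢
  have := abs_le.1 (nht_sht hm hD P)
  linarith

lemma nht_card {m : ℕ} (hm : m ≠ 0) {D : K} (hD : D ≠ 0) (B : ℝ) :
    {P : SPt a b | nht m D P ≤ B}.ncard ≤ 2 * (1 + {r : K | logHeight₁ r ≤ m * B}.ncard * m) := by
  classical
  have hm0 : (0 : ℝ) < m := by positivity
  have hS : {r : K | logHeight₁ r ≤ m * B}.Finite := NumberField.finite_setOfPred_logHeight₁_le (K := K) _
  have hF := nht_fin (a := a) (b := b) hm hD B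
  rw [Set.ncard_eq_toFinset_card _ hF, Set.ncard_eq_toFinset_card _ hS]
  set F := hF.toFinset with hFd
  set S := hS.toFinset with hSd
  set X : Finset K := S.biUnion (fun r => (Polynomial.nthRoots m (r * D)).toFinset) with hX
  have hXc : X.card ≤ S.card * m := Finset.card_biUnion_le_card_mul _ _ _ (fun r _ =>
    (Multiset.toFinset_card_le _).trans (Polynomial.card_nthRoots m _))
  set T : Finset (Fin 2 → K) := insert ![1, 0] (X.image (fun x => ![x, 1])) with hT
  have hTc : T.card ≤ 1 + S.card * m := by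
    have h2 : (X.image (fun x => ![x, 1])).card ≤ X.card := Finset.card_image_le
    rw [hT]
    refine (Finset.card_insert_le _ _).trans ?_
    omega
  have himg : F.image (fun P : SPt a b => P.xRep) ⊆ T := by
    intro v hv
    rw [Finset.mem_image] at hv
    obtain ⟨P, hP, rfl⟩ := hv
    rw [hFd, Set.Finite.mem_toFinset, Set.mem_ofPred_eq] at hP
    match P, hP with
    | 0, _ => rw [hT, Affine.Point.xRep_zero]; exact Finset.mem_insert_self _ _
    | .some x y h, hP =>
      rw [hT, Affine.Point.xRep_some]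
      apply Finset.mem_insert_of_mem
      rw [Finset.mem_image]
      refine ⟨x, ?_, rfl⟩
      rw [hX, Finset.mem_biUnion]
      refine ⟨x ^ m / D, ?_, ?_⟩
      · rw [hSd, Set.Finite.mem_toFinset, Set.mem_ofPred_eq]
        rw [nht_some, div_le_iff₀ hm0] at hP
        linarith
      · rw [Multiset.mem_toFinset, Polynomial.mem_nthRoots (Nat.pos_of_ne_zero hm),
          div_mul_cancel₀ _ hD]
  have h1 : F.card ≤ 2 * (F.image (fun P : SPt a b => P.xRep)).card := by
    apply Finset.card_le_mul_card_image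
    intro v hv
    rw [Finset.mem_image] at hv
    obtain ⟨P, hP, rfl⟩ := hv
    refine (Finset.card_le_card (t := {P, -P}) ?_).trans Finset.card_le_two
    intro Q hQ
    rw [Finset.mem_filter] at hQ
    rcases Affine.Point.eq_or_eq_neg_of_xRep_eq_xRep hQ.2 with h | h
    · rw [h]; simp
    · rw [h]; simp
  have h2 := Finset.card_le_card himg
  omega

/-- **A curve with a good duplication map.** -/
theorem curve_bound [DecidableEq K] (hab : 4 * a ^ 3 + 27 * b ^ 2 ≠ 0) {m : ℕ} (hm : m ≠ 0) {D : K}
    (hD : D ≠ 0) {C : ℝ} (hC : 0 ≤ C)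
    (hdup : ∀ P : SPt a b, 4 * nht m D P - C ≤ nht m D (P + P)) :
    (∀ P : SPt a b, IsOfFinAddOrder P →
      addOrderOf P ≤ 2 * (1 + {r : K | logHeight₁ r ≤ m * (1 + C / 3)}.ncard * m)) ∧
    ∀ P : SPt a b, ¬ IsOfFinAddOrder P → ∀ C' : ℝ, 0 < C' → ∀ L, L ≤ C' * (1 + nht m D P) →
      cst (2 * (1 + {r : K | logHeight₁ r ≤ m * (1 + C / 3)}.ncard * m)) C C' * (1 + L) ≤
        chat P := by
  refine single (A := SPt a b) (N := fun P => nht m D P) (q := fun P => chat P) hC
    (chat_spec hab).2.2.1 (nht_lim hab hm hD) (fun P => ?_) (nht_fin hm hD _)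
    (nht_card hm hD _)
  rw [two_nsmul]
  exact hdup P

end Pool.Agent.TH910.LS
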