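import Mathlib

/-!
# The difference of two points with the same reduction
-/

set_option autoImplicit false
set_option linter.unusedSectionVars false

namespace Pool.Agent.TH910.LS

section loc

variable {F : Type} [Field F] {w : AbsoluteValue F ℝ}

/-- the ultrametric inequality -/
def Na (w : AbsoluteValue F ℝ) : Prop := ∀ x y, w (x + y) ≤ max (w x) (w y)

lemma Na.sub (h : Na w) (x y : F) : w (x - y) ≤ max (w x) (w y) := by
  rw [sub_eq_add_neg, ← w.map_neg y]
  exact h x (-y)

lemma Na.eq (h : Na w) {x y : F} (hxy : w y < w x) : w (x + y) = w x := by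
  apply le_antisymm
  · exact (h x y).trans (max_le le_rfl hxy.le)
  · by_contra hcon
    rw [not_le] at hcon
    have h1 := h.sub (x + y) y
    rw [add_sub_cancel_right] at h1
    exact absurd (h1.trans_lt (max_lt hcon hxy)) (lt_irrefl _)

lemma Na.add_lt (h : Na w) {x y : F} {r : ℝ} (hx : w x < r) (hy : w y < r) : w (x + y) < r :=
  (h x y).trans_lt (max_lt hx hy)

lemma Na.add_le (h : Na w) {x y : F} {r : ℝ} (hx : w x ≤ r) (hy : w y ≤ r) : w (x + y) ≤ r :=
  (h x y).trans (max_le hx hy)

lemma Na.nat (h : Na w) (n : ℕ) : w (n : F) ≤ 1 := by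
  induction n with
  | zero => simp
  | succ n ih =>
    push_cast
    exact h.add_le ih (by simp)

lemma mul_le' {x y : F} (hx : w x ≤ 1) (hy : w y ≤ 1) : w (x * y) ≤ 1 := by
  rw [map_mul]
  exact mul_le_one₀ hx (apply_nonneg w y) hy

lemma mul_lt' {x y : F} (hx : w x < 1) (hy : w y ≤ 1) : w (x * y) < 1 := by
  rw [map_mul]
  calc w x * w y ≤ w x * 1 := mul_le_mul_of_nonneg_left hy (apply_nonneg w x)
    _ < 1 := by rw [mul_one]; exact hx

/-- when the ordinate is small the derivative is a unit -/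
lemma unit_der (h : Na w) {a b x y : F} (ha : w a ≤ 1) (hb : w b ≤ 1)
    (hδ : w (4 * a ^ 3 + 27 * b ^ 2) = 1) (hx : w x ≤ 1) (e : y ^ 2 = x ^ 3 + a * x + b)
    (hy : w y < 1) : w (3 * x ^ 2 + a) = 1 := by
  have h2 : w (x ^ 2) ≤ 1 := by rw [map_pow]; exact pow_le_one₀ (apply_nonneg w x) hx
  have ha2 : w (a ^ 2) ≤ 1 := by rw [map_pow]; exact pow_le_one₀ (apply_nonneg w a) ha
  have hn : ∀ n : ℕ, w (n : F) ≤ 1 := h.nat
  have hle : w (3 * x ^ 2 + a) ≤ 1 := h.add_le (mul_le' (by exact_mod_cast hn 3) h2) ha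
  apply le_antisymm hle
  by_contra hcon
  rw [not_le] at hcon
  have hy2 : w (y ^ 2) < 1 := by
    rw [map_pow]
    exact pow_lt_one₀ (apply_nonneg w y) hy (by norm_num)
  have e2 : 4 * a ^ 3 + 27 * b ^ 2 = y ^ 2 * (27 * b - 18 * (a * x)) +
      (3 * x ^ 2 + a) * (6 * (a * x ^ 2) - 9 * (b * x) + 4 * a ^ 2) := by
    rw [e]; ring
  have h3 : w (4 * a ^ 3 + 27 * b ^ 2) < 1 := by
    rw [e2]
    apply h.add_lt
    · apply mul_lt' hy2
      exact (h.sub _ _).trans (max_le (mul_le' (by exact_mod_cast hn 27) hb)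
        (mul_le' (by exact_mod_cast hn 18) (mul_le' ha hx)))
    · apply mul_lt' hcon
      apply h.add_le
      · exact (h.sub _ _).trans (max_le (mul_le' (by exact_mod_cast hn 6) (mul_le' ha h2))
          (mul_le' (by exact_mod_cast hn 9) (mul_le' hb hx)))
      · exact mul_le' (by exact_mod_cast hn 4) ha2
  linarith

lemma y_le {a b x y : F} (h : Na w) (ha : w a ≤ 1) (hb : w b ≤ 1) (hx : w x ≤ 1)
    (e : y ^ 2 = x ^ 3 + a * x + b) : w y ≤ 1 := by
  have h3 : w (x ^ 3) ≤ 1 := by rw [map_pow]; exact pow_le_one₀ (apply_nonneg w x) hx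
  have h1 : w (y ^ 2) ≤ 1 := by
    rw [e]
    exact h.add_le (h.add_le h3 (mul_le' ha hx)) hb
  rw [map_pow] at h1
  exact (pow_le_one_iff_of_nonneg (apply_nonneg w y) (by norm_num)).1 h1

/-- the ordinate of a point near infinity -/
lemma y_big {a b x y : F} (h : Na w) (ha : w a ≤ 1) (hb : w b ≤ 1) (hx : 1 < w x)
    (e : y ^ 2 = x ^ 3 + a * x + b) : w y ^ 2 = w x ^ 3 := by
  have h1 : w x < w x ^ 3 := by nlinarith [mul_pos (sub_pos.2 hx) (sub_pos.2 hx)]
  rw [← map_pow w y, e, add_assoc]
  rw [h.eq (x := x ^ 3), map_pow]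
  rw [map_pow]
  apply h.add_lt
  · rw [map_mul]
    calc w a * w x ≤ 1 * w x := mul_le_mul_of_nonneg_right ha (apply_nonneg w x)
      _ < w x ^ 3 := by rw [one_mul]; exact h1
  · linarith

/-- different points with the same reduction: the difference reduces to zero -/
theorem loc_ne (h : Na w) {a b x y x' y' : F} (ha : w a ≤ 1) (hb : w b ≤ 1)
    (hδ : w (4 * a ^ 3 + 27 * b ^ 2) = 1) (h2 : w 2 = 1)
    (e : y ^ 2 = x ^ 3 + a * x + b) (e' : y' ^ 2 = x' ^ 3 + a * x' + b)
    (h1x : w x ≤ 1 → w (x' - x) < 1) (h1y : w y ≤ 1 → w (y' - y) < 1)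
    (hbig : w x' = w x) (hne : x ≠ x') :
    w (x - x') ^ 2 < w (x * x' * (x + x') + a * (x + x') + 2 * b + 2 * y * y') := by
  have hn : ∀ n : ℕ, w (n : F) ≤ 1 := h.nat
  have h4 : w 4 = 1 := by
    rw [show (4 : F) = 2 * 2 by norm_num, map_mul, h2, one_mul]
  have ht0 : 0 < w (x - x') := (AbsoluteValue.pos_iff w).2 (sub_ne_zero.2 hne)
  have hprod : (x * x' * (x + x') + a * (x + x') + 2 * b - 2 * y * y') *
      (x * x' * (x + x') + a * (x + x') + 2 * b + 2 * y * y') =
      (x - x') ^ 2 * ((x * x' - a) ^ 2 - 4 * b * (x + x')) := by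
    linear_combination (-4 * y' ^ 2) * e + (-4 * (x ^ 3 + a * x + b)) * e'
  rcases le_or_gt (w x) 1 with hx | hx
  · have hxx := h1x hx
    have hy := y_le h ha hb hx e
    have hyy := h1y hy
    have hx' : w x' ≤ 1 := hbig ▸ hx
    have hsx : w (x - x') < 1 := by rwa [← w.map_sub x' x]
    have hX : w (x * (x' + 2 * x) + a) ≤ 1 :=
      h.add_le (mul_le' hx (h.add_le hx' (mul_le' h2.le hx))) ha
    have ht2 : w (x - x') ^ 2 < 1 := pow_lt_one₀ (apply_nonneg w _) hsx (by norm_num)
    rcases eq_or_lt_of_le hy with hy1 | hy1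
    · have e1 : x * x' * (x + x') + a * (x + x') + 2 * b + 2 * y * y' =
          4 * y ^ 2 + ((x' - x) * (x * (x' + 2 * x) + a) + (y' - y) * (2 * y)) := by
        linear_combination (-2) * e
      rw [e1, h.eq (x := 4 * y ^ 2)]
      · rw [map_mul, h4, map_pow, hy1]
        linarith
      · rw [map_mul w 4, h4, map_pow, hy1]
        simp only [one_pow, mul_one]
        exact h.add_lt (mul_lt' hxx hX) (mul_lt' hyy (mul_le' h2.le hy))
    · have hder := unit_der h ha hb hδ hx e hy1
      set NA := x * x' * (x + x') + a * (x + x') + 2 * b - 2 * y * y' with hNA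
      set NB := x * x' * (x + x') + a * (x + x') + 2 * b + 2 * y * y' with hNB
      have hA : w NA < 1 := by
        have e1 : NA = (x' - x) * (x * (x' + 2 * x) + a) + (y' - y) * (-(2 * y)) := by
          rw [hNA]
          linear_combination (-2) * e
        rw [e1]
        apply h.add_lt (mul_lt' hxx hX)
        apply mul_lt' hyy
        rw [w.map_neg]
        exact mul_le' h2.le hy
      have hPi : w ((x * x' - a) ^ 2 - 4 * b * (x + x')) = 1 := by
        have e1 : (x * x' - a) ^ 2 - 4 * b * (x + x') = (3 * x ^ 2 + a) ^ 2 +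
            (y * (-(8 * x * y)) + (x' - x) * (x * (x * x' + x ^ 2 - 2 * a) - 4 * b)) := by
          linear_combination (8 * x) * e
        have hx2 : w (x ^ 2) ≤ 1 := by rw [map_pow]; exact pow_le_one₀ (apply_nonneg w x) hx
        rw [e1, h.eq (x := (3 * x ^ 2 + a) ^ 2)]
        · rw [map_pow, hder, one_pow]
        · rw [map_pow, hder, one_pow]
          apply h.add_lt
          · apply mul_lt' hy1
            rw [w.map_neg]
            exact mul_le' (mul_le' (by exact_mod_cast hn 8) hx) hy
          · apply mul_lt' hxx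
            refine (h.sub _ _).trans (max_le (mul_le' hx ?_) (mul_le' h4.le hb))
            exact (h.sub _ _).trans (max_le (h.add_le (mul_le' hx hx') hx2) (mul_le' h2.le ha))
      have h5 := congrArg w hprod
      rw [map_mul, map_mul, hPi, mul_one, map_pow] at h5
      have hA0 : 0 < w NA := by
        rcases (apply_nonneg w NA).eq_or_lt with h6 | h6
        · rw [← h6, zero_mul] at h5
          have : 0 < w (x - x') ^ 2 := by positivity
          linarith
        · exact h6
      have hB0 : 0 < w NB := by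
        rcases (apply_nonneg w NB).eq_or_lt with h6 | h6
        · rw [← h6, mul_zero] at h5
          have : 0 < w (x - x') ^ 2 := by positivity
          linarith
        · exact h6
      rw [← h5]
      calc w NA * w NB < 1 * w NB := mul_lt_mul_of_pos_right hA hB0
        _ = w NB := one_mul _
  · -- near infinity
    set NA := x * x' * (x + x') + a * (x + x') + 2 * b - 2 * y * y' with hNA
    set NB := x * x' * (x + x') + a * (x + x') + 2 * b + 2 * y * y' with hNB
    set X := w x with hX
    have hX0 : 0 < X := by linarith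
    have ht : w (x - x') ≤ X := by
      have := h.sub x x'
      rw [hbig, max_self] at this
      exact this
    have hs : w (x + x') ≤ X := by
      have := h x x'
      rw [hbig, max_self] at this
      exact this
    have hxx' : w (x * x') = X ^ 2 := by rw [map_mul, hbig]; ring
    have hX2 : 1 < X ^ 2 := by nlinarith
    have hPi : w ((x * x' - a) ^ 2 - 4 * b * (x + x')) = X ^ 4 := by
      have h5 : w (x * x' - a) = X ^ 2 := by
        rw [sub_eq_add_neg, h.eq, hxx']
        rw [w.map_neg, hxx']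
        linarith
      rw [sub_eq_add_neg, h.eq, map_pow, h5]
      · ring
      · rw [w.map_neg, map_pow, h5, map_mul, map_mul, h4, one_mul]
        have : w b * w (x + x') ≤ 1 * X := mul_le_mul hb hs (apply_nonneg w _) zero_le_one
        nlinarith
    have hsum : w (NA + NB) ≤ X ^ 3 := by
      have e1 : NA + NB = 2 * ((x + x') * (x * x' + a) + 2 * b) := by
        rw [hNA, hNB]
        ring
      rw [e1, map_mul, h2, one_mul]
      apply h.add_le
      · rw [map_mul]
        have h6 : w (x * x' + a) ≤ X ^ 2 := h.add_le hxx'.le (by linarith)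
        calc w (x + x') * w (x * x' + a) ≤ X * X ^ 2 :=
              mul_le_mul hs h6 (apply_nonneg w _) hX0.le
          _ = X ^ 3 := by ring
      · have h6 := mul_le' h2.le hb
        have h7 : 1 ≤ X ^ 3 := one_le_pow₀ hx.le
        linarith
    have h5 := congrArg w hprod
    rw [map_mul, map_mul, hPi, map_pow] at h5
    by_contra hcon
    rw [not_lt] at hcon
    have ht2 : 0 < w (x - x') ^ 2 := by positivity
    have ht3 : w (x - x') ^ 2 ≤ X ^ 2 := pow_le_pow_left₀ (apply_nonneg w _) ht 2
    rcases le_or_gt (w NA) (X ^ 3) with h6 | h6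
    · have h7 : w NA * w NB ≤ X ^ 3 * w (x - x') ^ 2 :=
        mul_le_mul h6 hcon (apply_nonneg w _) (by positivity)
      rw [h5] at h7
      have h8 : X ^ 3 < X ^ 4 := by nlinarith [pow_pos hX0 3]
      nlinarith
    · have h7 : w NB = w NA := by
        have h8 : NB = -NA + (NA + NB) := by ring
        rw [h8, h.eq, w.map_neg]
        rw [w.map_neg]
        exact hsum.trans_lt h6
      have h8 : X ^ 2 ≤ X ^ 3 := pow_le_pow_right₀ hx.le (by norm_num)
      linarith

/-- twice a point whose reduction has order two -/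
theorem loc_eq (h : Na w) {a b x y : F} (ha : w a ≤ 1) (hb : w b ≤ 1)
    (hδ : w (4 * a ^ 3 + 27 * b ^ 2) = 1) (h2 : w 2 = 1)
    (e : y ^ 2 = x ^ 3 + a * x + b) (h1y : w y ≤ 1 → w (-y - y) < 1) :
    w (4 * y ^ 2) < w (x ^ 4 - 2 * a * x ^ 2 - 8 * b * x + a ^ 2) := by
  have hn : ∀ n : ℕ, w (n : F) ≤ 1 := h.nat
  have h4 : w 4 = 1 := by
    rw [show (4 : F) = 2 * 2 by norm_num, map_mul, h2, one_mul]
  rcases le_or_gt (w x) 1 with hx | hx
  · have hy := y_le h ha hb hx e
    have hy1 : w y < 1 := by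
      have h5 := h1y hy
      have h6 : -y - y = -(2 * y) := by ring
      rwa [h6, w.map_neg, map_mul, h2, one_mul] at h5
    have hder := unit_der h ha hb hδ hx e hy1
    have e1 : x ^ 4 - 2 * a * x ^ 2 - 8 * b * x + a ^ 2 = (3 * x ^ 2 + a) ^ 2 +
        y * (-(8 * x * y)) := by
      linear_combination (8 * x) * e
    have h7 : w (x ^ 4 - 2 * a * x ^ 2 - 8 * b * x + a ^ 2) = 1 := by
      rw [e1, h.eq, map_pow, hder, one_pow]
      rw [map_pow, hder, one_pow]
      apply mul_lt' hy1
      rw [w.map_neg]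
      exact mul_le' (mul_le' (by exact_mod_cast hn 8) hx) hy
    rw [h7, map_mul, h4, one_mul, map_pow]
    exact pow_lt_one₀ (apply_nonneg w y) hy1 (by norm_num)
  · have h5 := y_big h ha hb hx e
    rw [map_mul, h4, one_mul, map_pow, h5]
    set X := w x with hX
    have hX0 : 0 < X := by linarith
    have hX2 : 1 < X ^ 2 := by nlinarith
    have h6 : w (x ^ 4 - 2 * a * x ^ 2 - 8 * b * x + a ^ 2) = X ^ 4 := by
      have e1 : x ^ 4 - 2 * a * x ^ 2 - 8 * b * x + a ^ 2 = x ^ 4 +
          (-(2 * a * x ^ 2) + (-(8 * b * x) + a ^ 2)) := by ring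
      rw [e1, h.eq, map_pow]
      rw [map_pow]
      apply h.add_lt
      · rw [w.map_neg, map_mul, map_mul, h2, one_mul, map_pow]
        have : w a * X ^ 2 ≤ 1 * X ^ 2 := mul_le_mul_of_nonneg_right ha (by positivity)
        nlinarith
      · apply h.add_lt
        · rw [w.map_neg, map_mul, map_mul]
          have h8 : w 8 ≤ 1 := by exact_mod_cast hn 8
          have h9 : w 8 * w b ≤ 1 := mul_le_one₀ h8 (apply_nonneg w _) hb
          have h10 : w 8 * w b * X ≤ 1 * X := mul_le_mul_of_nonneg_right h9 hX0.le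
          nlinarith
        · rw [map_pow]
          have : w a ^ 2 ≤ 1 := pow_le_one₀ (apply_nonneg w a) ha
          nlinarith
    rw [h6]
    nlinarith [pow_pos hX0 3]

end loc

end Pool.Agent.TH910.LS
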