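import Mathlib
import Pool.Agent.TH910.LS.Loc

/-!
# Inertia
-/

set_option autoImplicit false
set_option linter.unusedSectionVars false

open NumberField IsDedekindDomain

namespace Pool.Agent.TH910.LS

variable {L : Type} [Field L] [NumberField L]

/-- The automorphism `s` of `L` lies in the inertia group of the prime `v`: it acts trivially on
the integers modulo `v`. -/
def Inert (v : HeightOneSpectrum (𝓞 L)) (s : L ≃+* L) : Prop :=
  ∀ z : 𝓞 L, v.valuation L (s z - z) < 1

/-- an automorphism preserves the integers -/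
lemma exists_int (s : L ≃+* L) (z : 𝓞 L) : ∃ z' : 𝓞 L, (z' : L) = s z := by
  refine ⟨⟨s z, ?_⟩, rfl⟩
  have h : IsIntegral ℤ (z : L) := z.isIntegral_coe
  exact h.map (s.toRingHom.toIntAlgHom)

variable {v : HeightOneSpectrum (𝓞 L)} {s : L ≃+* L}

lemma Inert.symm (h : Inert v s) : Inert v s.symm := by
  intro z
  obtain ⟨z', hz'⟩ := exists_int s.symm z
  have h1 := h z'
  rw [hz', RingEquiv.apply_symm_apply, ← Valuation.map_neg, neg_sub] at h1
  exact h1

/-- the action on the valuation ring -/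
lemma Inert.lt (h : Inert v s) {z : L} (hz : v.valuation L z ≤ 1) :
    v.valuation L (s z - z) < 1 := by
  obtain ⟨n, d, hnd⟩ := HeightOneSpectrum.exists_primeCompl_mul_eq_of_integer v z hz
  have hd : v.valuation L ((d : 𝓞 L) : L) = 1 := by
    have := (v.valuation_eq_one_iff_notMem (K := L) (r := (d : 𝓞 L))).2 d.2
    exact this
  have hnd' : z * ((d : 𝓞 L) : L) = ((n : 𝓞 L) : L) := hnd
  have hsd : v.valuation L (s ((d : 𝓞 L) : L)) = 1 := by
    have h1 := h (d : 𝓞 L)
    have h2 : s ((d : 𝓞 L) : L) = (s ((d : 𝓞 L) : L) - ((d : 𝓞 L) : L)) + ((d : 𝓞 L) : L) := by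
      ring
    rw [h2, Valuation.map_add_eq_of_lt_right _ (by rw [hd]; exact h1), hd]
  have h3 : (s z - z) * s ((d : 𝓞 L) : L) =
      (s ((n : 𝓞 L) : L) - ((n : 𝓞 L) : L)) - z * (s ((d : 𝓞 L) : L) - ((d : 𝓞 L) : L)) := by
    rw [← hnd', map_mul]
    ring
  have h4 : v.valuation L (s z - z) = v.valuation L ((s z - z) * s ((d : 𝓞 L) : L)) := by
    rw [map_mul, hsd, mul_one]
  rw [h4, h3]
  apply Valuation.map_sub_lt _ (h n)
  rw [map_mul]
  exact mul_lt_one_of_nonneg_of_lt_one_right hz zero_le (h (d : 𝓞 L))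

lemma Inert.le_one (h : Inert v s) {z : L} (hz : v.valuation L z ≤ 1) :
    v.valuation L (s z) ≤ 1 := by
  have h1 : s z = (s z - z) + z := by ring
  rw [h1]
  exact Valuation.map_add_le _ (h.lt hz).le hz

lemma Inert.lt_one (h : Inert v s) {z : L} (hz : v.valuation L z < 1) :
    v.valuation L (s z) < 1 := by
  have h1 : s z = (s z - z) + z := by ring
  rw [h1]
  exact Valuation.map_add_lt _ (h.lt hz.le) hz

lemma Inert.eq_one (h : Inert v s) {z : L} (hz : v.valuation L z = 1) :
    v.valuation L (s z) = 1 := by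
  have h1 : s z = (s z - z) + z := by ring
  rw [h1, Valuation.map_add_eq_of_lt_right _ (by rw [hz]; exact h.lt hz.le), hz]

lemma Inert.le (h : Inert v s) {z : L} (hz : v.valuation L z ≤ 1) :
    v.valuation L (s z) ≤ v.valuation L z := by
  by_cases h0 : z = 0
  · rw [h0, map_zero]
  obtain ⟨π, hπ⟩ := v.valuation_exists_uniformizer L
  have hv0 : v.valuation L z ≠ 0 := (Valuation.ne_zero_iff _).2 h0
  set k : ℤ := -WithZero.log (v.valuation L z) with hk
  have hzk : v.valuation L z = WithZero.exp (-k) := by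
    rw [hk, neg_neg, WithZero.exp_log hv0]
  have hk0 : 0 ≤ k := by
    rw [hzk, ← WithZero.exp_zero, WithZero.exp_le_exp] at hz
    omega
  have hπ0 : π ≠ 0 := by
    rintro rfl
    rw [map_zero] at hπ
    exact WithZero.exp_ne_zero hπ.symm
  have hπk : v.valuation L (π ^ k) = v.valuation L z := by
    rw [map_zpow₀, hπ, hzk, ← WithZero.exp_zsmul]
    congr 1
    simp
  have hu : v.valuation L (z / π ^ k) = 1 := by
    rw [map_div₀, hπk, div_self hv0]
  have hsu := h.eq_one hu
  rw [map_div₀, map_div₀, map_zpow₀, map_zpow₀] at hsu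
  have hπ1 : v.valuation L π < 1 := by
    rw [hπ, ← WithZero.exp_zero, WithZero.exp_lt_exp]
    norm_num
  have hsπ := h.lt_one hπ1
  have hsπ0 : v.valuation L (s π) ≠ 0 := (Valuation.ne_zero_iff _).2 (by
    rw [ne_eq, map_eq_zero]; exact hπ0)
  have hsπ2 : v.valuation L (s π) ≤ WithZero.exp (-1) := by
    rw [← WithZero.log_le_iff_le_exp hsπ0]
    rw [← WithZero.exp_log hsπ0, ← WithZero.exp_zero, WithZero.exp_lt_exp] at hsπ
    omega
  have h5 : v.valuation L (s z) = v.valuation L (s π) ^ k := by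
    have h6 : v.valuation L (s π) ^ k ≠ 0 := zpow_ne_zero _ hsπ0
    exact (div_eq_one_iff_eq h6).1 hsu
  rw [h5, ← hπk, map_zpow₀, hπ]
  obtain ⟨m, hm⟩ := Int.eq_ofNat_of_zero_le hk0
  rw [hm]
  simp only [zpow_natCast]
  exact pow_le_pow_left₀ zero_le hsπ2 m

lemma Inert.eq (h : Inert v s) (z : L) : v.valuation L (s z) = v.valuation L z := by
  have key : ∀ z : L, v.valuation L z ≤ 1 → v.valuation L (s z) = v.valuation L z := by
    intro z hz
    apply le_antisymm (h.le hz)
    have h1 := h.symm.le (h.le_one hz)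
    rwa [RingEquiv.symm_apply_apply] at h1
  rcases le_or_gt (v.valuation L z) 1 with hz | hz
  · exact key z hz
  · have h1 : v.valuation L z⁻¹ ≤ 1 := by
      rw [map_inv₀]
      exact inv_le_one_of_one_le₀ hz.le
    have h2 := key _ h1
    rw [map_inv₀, map_inv₀, map_inv₀] at h2
    exact inv_injective h2

/-- the absolute value of a prime -/
noncomputable def av (v : HeightOneSpectrum (𝓞 L)) : AbsoluteValue L ℝ := (FinitePlace.mk v).1

lemma av_apply (v : HeightOneSpectrum (𝓞 L)) (z : L) : av v z = FinitePlace.mk v z := rfl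

lemma av_eq (v : HeightOneSpectrum (𝓞 L)) (z : L) :
    av v z = ((WithZeroMulInt.toNNReal (NumberField.HeightOneSpectrum.absNorm_ne_zero v)
      (v.valuation L z) : NNReal) : ℝ) := by
  rw [av_apply, FinitePlace.mk_apply, FinitePlace.norm_embedding,
    NumberField.HeightOneSpectrum.adicAbv_def]

lemma av_lt_one {v : HeightOneSpectrum (𝓞 L)} {z : L} : av v z < 1 ↔ v.valuation L z < 1 := by
  rw [av_eq]
  have h := WithZeroMulInt.toNNReal_lt_one_iff (m := v.valuation L z)
    (NumberField.HeightOneSpectrum.one_lt_absNorm_nnreal v)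
  rw [← h]
  exact_mod_cast Iff.rfl

lemma av_le_one {v : HeightOneSpectrum (𝓞 L)} {z : L} : av v z ≤ 1 ↔ v.valuation L z ≤ 1 := by
  rw [av_eq]
  have h := WithZeroMulInt.toNNReal_le_one_iff (m := v.valuation L z)
    (NumberField.HeightOneSpectrum.one_lt_absNorm_nnreal v)
  rw [← h]
  exact_mod_cast Iff.rfl

lemma av_na (v : HeightOneSpectrum (𝓞 L)) : Na (av v) := fun x y =>
  FinitePlace.add_le (FinitePlace.mk v) x y

end Pool.Agent.TH910.LS
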