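import Mathlib
import Pool.Agent.TH910.LS.Inert
import Pool.Agent.TH910.LS.UDup
import Pool.Agent.TH910.LS.Odd

/-!
# The action of automorphisms on the points, and inertia
-/

set_option autoImplicit false
set_option linter.unusedSectionVars false

open WeierstrassCurve Height NumberField IsDedekindDomain

namespace Pool.Agent.TH910.LS

open Pool.Agent.TH942

section alg

variable {K L : Type} [Field K] [NumberField K] [Field L] [NumberField L] [Algebra K L]

lemma sw_bc (a b : K) : ((sw a b).baseChange L).toAffine =
    (sw (algebraMap K L a) (algebraMap K L b)).toAffine := by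
  apply WeierstrassCurve.ext <;> simp [sw, WeierstrassCurve.baseChange, WeierstrassCurve.map]

lemma gal_ns {a b : K} (s : L ≃ₐ[K] L) {x y : L}
    (h : (sw (algebraMap K L a) (algebraMap K L b)).toAffine.Nonsingular x y) :
    (sw (algebraMap K L a) (algebraMap K L b)).toAffine.Nonsingular (s x) (s y) := by
  have h1 := (WeierstrassCurve.Affine.map_nonsingular
    (sw (algebraMap K L a) (algebraMap K L b)).toAffine
    (f := (s : L →+* L)) s.injective x y).2 h
  have h2 : ((sw (algebraMap K L a) (algebraMap K L b)).map (s : L →+* L)) =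
      sw (algebraMap K L a) (algebraMap K L b) := by
    apply WeierstrassCurve.ext <;> simp [sw, WeierstrassCurve.map]
  have h3 : (((sw (algebraMap K L a) (algebraMap K L b)).map
    (s : L →+* L)).toAffine).Nonsingular (s x) (s y) := h1
  rw [h2] at h3
  exact h3

/-- The action of an automorphism of `L` over `K` on the points over `L` of a curve over `K`,
coordinate by coordinate. -/
def gal {a b : K} (s : L ≃ₐ[K] L) :
    SPt (algebraMap K L a) (algebraMap K L b) → SPt (algebraMap K L a) (algebraMap K L b)
  | .zero => .zero
  | .some x y h => .some (s x) (s y) (gal_ns s h)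

variable [DecidableEq L]

/-- transport along an equality of curves -/
def eqv {W W' : WeierstrassCurve.Affine L} (h : W = W') : W.Point ≃+ W'.Point := by
  subst h
  exact AddEquiv.refl _

lemma eqv_zero {W W' : WeierstrassCurve.Affine L} (h : W = W') :
    eqv h (Affine.Point.zero) = Affine.Point.zero := by
  subst h
  rfl

lemma eqv_some {W W' : WeierstrassCurve.Affine L} (h : W = W') {x y : L}
    (hx : W.Nonsingular x y) :
    eqv h (Affine.Point.some x y hx) = Affine.Point.some x y (h ▸ hx) := by
  subst h
  rfl

/-- the action as a homomorphism -/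
noncomputable def sig {a b : K} (s : L ≃ₐ[K] L) :
    SPt (algebraMap K L a) (algebraMap K L b) →+ SPt (algebraMap K L a) (algebraMap K L b) :=
  (eqv (sw_bc a b)).toAddMonoidHom.comp
    ((Affine.Point.map (W' := (sw a b).toAffine) (S := K) (s : L →ₐ[K] L)).comp
      (eqv (sw_bc a b).symm).toAddMonoidHom)

lemma sig_eq {a b : K} (s : L ≃ₐ[K] L) (P : SPt (algebraMap K L a) (algebraMap K L b)) :
    sig s P = gal s P := by
  match P with
  | .zero =>
    have h1 : eqv (sw_bc a b).symm
      (Affine.Point.zero : SPt (algebraMap K L a) (algebraMap K L b)) =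
      Affine.Point.zero := eqv_zero _
    change eqv (sw_bc a b) (Affine.Point.map (W' := (sw a b).toAffine) (S := K)
      (s : L →ₐ[K] L) (eqv (sw_bc a b).symm (Affine.Point.zero))) = Affine.Point.zero
    rw [h1]
    have h2 : Affine.Point.map (W' := (sw a b).toAffine) (S := K)
      (s : L →ₐ[K] L) (Affine.Point.zero) = Affine.Point.zero := rfl
    rw [h2, eqv_zero]
  | .some x y h =>
    change eqv (sw_bc a b) (Affine.Point.map (W' := (sw a b).toAffine) (S := K)
      (s : L →ₐ[K] L) (eqv (sw_bc a b).symm (Affine.Point.some x y h))) =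
      Affine.Point.some (s x) (s y) _
    rw [eqv_some, Affine.Point.map_some, eqv_some]
    rfl

lemma gal_add {a b : K} (s : L ≃ₐ[K] L) (P Q : SPt (algebraMap K L a) (algebraMap K L b)) :
    gal s (P + Q) = gal s P + gal s Q := by
  rw [← sig_eq, ← sig_eq, ← sig_eq, map_add]

/-- **Inertia.** If `s` is in the inertia group of a prime of good reduction, then `P - s P`
reduces to zero. -/
theorem inert_point {a b : 𝓞 K} {v : HeightOneSpectrum (𝓞 L)}
    {s : L ≃ₐ[K] L} (hs : Inert v (s : L ≃+* L)) (h2 : av v 2 = 1)
    (hδ : av v (4 * (algebraMap K L a) ^ 3 + 27 * (algebraMap K L b) ^ 2) = 1)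
    (P : SPt (algebraMap K L a) (algebraMap K L b)) (hP : P - gal s P ≠ 0) :
    ∃ x y h, P - gal s P = Affine.Point.some x y h ∧ 1 < av v x := by
  have hab' : 4 * (algebraMap K L a) ^ 3 + 27 * (algebraMap K L b) ^ 2 ≠ 0 := by
    intro h0
    rw [h0, map_zero] at hδ
    exact zero_ne_one hδ
  have hna := av_na v
  have hint : ∀ n : 𝓞 K, av v (algebraMap K L n) ≤ 1 := by
    intro n
    rw [av_le_one]
    obtain ⟨z, hz⟩ := exists_int_alg L n
    rw [← hz]
    exact v.valuation_le_one (K := L) z
  match P, hP with
  | 0, hP =>
    exfalso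
    apply hP
    change (0 : SPt (algebraMap K L a) (algebraMap K L b)) - 0 = 0
    rw [sub_zero]
  | .some x y h, hP =>
    have e := sw_eqn.1 h.1
    have h' := gal_ns s h
    have e' := sw_eqn.1 h'.1
    have hg : gal s (Affine.Point.some x y h) = Affine.Point.some (s x) (s y) h' := rfl
    have h1x : av v x ≤ 1 → av v (s x - x) < 1 := fun h3 => av_lt_one.2 (hs.lt (av_le_one.1 h3))
    have h1y : av v y ≤ 1 → av v (s y - y) < 1 := fun h3 => av_lt_one.2 (hs.lt (av_le_one.1 h3))
    have hse : v.valuation L (s x) = v.valuation L x := hs.eq x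
    have hbig : av v (s x) = av v x := by rw [av_eq, av_eq, hse]
    rw [hg] at hP ⊢
    have hneg : (sw (algebraMap K L (a : K)) (algebraMap K L (b : K))).toAffine.Nonsingular (s x) (-(s y)) := by
      apply sw_nonsing hab'
      rw [← e']
      ring
    rw [sub_eq_add_neg, sneg_mk h' hneg] at hP ⊢
    by_cases hx : x = s x
    · -- the same abscissa
      have hy : s y = -y := by
        have h3 : (s y) ^ 2 = y ^ 2 := by rw [e', e, ← hx]
        rcases sq_eq_sq_iff_eq_or_eq_neg.1 h3 with h4 | h4
        · exfalso
          apply hP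
          rw [← sneg_mk h' hneg]
          have h5 : (Affine.Point.some x y h : SPt (algebraMap K L a) (algebraMap K L b)) =
              Affine.Point.some (s x) (s y) h' := by
            congr 1
            exact h4.symm
          rw [h5, add_neg_cancel]
        · exact h4
      have h5 : (Affine.Point.some (s x) (-(s y)) hneg : SPt (algebraMap K L a) (algebraMap K L b)) =
          Affine.Point.some x y h := by
        congr 1
        · exact hx.symm
        · rw [hy, neg_neg]
      rw [h5] at hP ⊢
      have hy0 : y ≠ 0 := by
        rintro rfl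
        apply hP
        apply Affine.Point.add_self_of_Y_eq
        simp [Affine.negY, sw]
      have hd := sxRep_double h hy0
      have hloc := loc_eq hna (hint a) (hint b) hδ h2 e (fun h6 => by
        have := h1y h6
        rwa [hy] at this)
      match hR : (Affine.Point.some x y h + Affine.Point.some x y h : SPt (algebraMap K L a) (algebraMap K L b)), hP with
      | 0, hP => exact absurd rfl hP
      | .some X Y hXY, _ =>
        refine ⟨X, Y, hXY, rfl, ?_⟩
        rw [hR, Affine.Point.xRep_some] at hd
        have h6 := congrFun hd 0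
        simp only [Matrix.cons_val_zero] at h6
        rw [h6, map_div₀, one_lt_div]
        · exact hloc
        · apply (AbsoluteValue.pos_iff _).2
          exact mul_ne_zero (by norm_num) (pow_ne_zero _ hy0)
    · have hd := sxRep_add h hneg hx
      have hloc := loc_ne hna (hint a) (hint b) hδ h2 e e' h1x h1y hbig hx
      match hR : (Affine.Point.some x y h + Affine.Point.some (s x) (-(s y)) hneg :
        SPt (algebraMap K L a) (algebraMap K L b)), hP with
      | 0, hP => exact absurd rfl hP
      | .some X Y hXY, _ =>
        refine ⟨X, Y, hXY, rfl, ?_⟩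
        rw [hR, Affine.Point.xRep_some] at hd
        have h6 := congrFun hd 0
        simp only [Matrix.cons_val_zero] at h6
        have h7 : snum (algebraMap K L (a : K)) (algebraMap K L (b : K)) x (s x) (y * -(s y)) =
            x * s x * (x + s x) + algebraMap K L (a : K) * (x + s x) +
              2 * algebraMap K L (b : K) + 2 * y * s y := by
          unfold snum
          ring
        rw [h6, h7, map_div₀, one_lt_div]
        · rw [map_pow]
          exact hloc
        · apply (AbsoluteValue.pos_iff _).2
          exact pow_ne_zero _ (sub_ne_zero.2 hx)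

/-- primes at which the abscissa has a pole -/
lemma pole_sum {a b : L} (S : Finset (HeightOneSpectrum (𝓞 L))) {x y : L}
    (h : (sw a b).toAffine.Nonsingular x y) (hS : ∀ v ∈ S, 1 < av v x) :
    ∑ v ∈ S, Real.log (Ideal.absNorm v.asIdeal) ≤ sht (Affine.Point.some x y h : SPt a b) := by
  rw [sht_some']
  rcases S.eq_empty_or_nonempty with hS0 | ⟨v₀, hv₀⟩
  · rw [hS0, Finset.sum_empty]
    exact zero_le_logHeight₁ x
  have hx : x ≠ 0 := by
    rintro rfl
    have := hS v₀ hv₀
    rw [map_zero] at this
    linarith
  refine le_trans (Finset.sum_le_sum fun v hv => ?_) (sum_posLog_le S hx)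
  have h1 := hS v hv
  have hval : ¬ v.valuation L x ≤ 1 := by
    rw [← av_le_one]
    exact not_le.2 h1
  have h2 := local_ge v hx (fun h3 => hval h3.le)
  have h3 : Real.posLog (FinitePlace.mk v x⁻¹) = 0 := by
    have h4 : FinitePlace.mk v x⁻¹ = (av v x)⁻¹ := by
      rw [map_inv₀]
      rfl
    rw [h4]
    have h5 : (av v x)⁻¹ ≤ 1 := inv_le_one_of_one_le₀ h1.le
    have h6 : 0 ≤ (av v x)⁻¹ := inv_nonneg.2 (apply_nonneg _ _)
    rw [Real.posLog_apply]
    exact max_eq_left (Real.log_nonpos h6 h5)
  rw [h3, add_zero] at h2
  exact h2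

end alg

end Pool.Agent.TH910.LS
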