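import Mathlib

/-!
# Northcott's theorem, uniformly in the number field
-/

set_option autoImplicit false
set_option linter.unusedSectionVars false

open Height NumberField Polynomial

namespace Pool.Agent.TH910.LS

/-- the polynomial with given coefficients -/
noncomputable def pol {d : ℕ} (c : Fin (d + 1) → ℤ) : ℤ[X] :=
  ∑ i : Fin (d + 1), C (c i) * X ^ (i : ℕ)

lemma pol_coeff {d : ℕ} {f : ℤ[X]} (hf : f.natDegree ≤ d) :
    pol (fun i : Fin (d + 1) => f.coeff i) = f := by
  conv_rhs => rw [f.as_sum_range' (d + 1) (by omega)]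
  unfold pol
  rw [Fin.sum_univ_eq_sum_range (fun i => C (f.coeff i) * X ^ i)]
  apply Finset.sum_congr rfl
  intro i _
  rw [C_mul_X_pow_eq_monomial]

lemma pol_deg {d : ℕ} (c : Fin (d + 1) → ℤ) : (pol c).natDegree ≤ d := by
  unfold pol
  apply natDegree_sum_le_of_forall_le
  intro i _
  exact (natDegree_C_mul_X_pow_le _ _).trans (by omega)

lemma embed_le {L : Type} [Field L] [NumberField L] (x : L) (φ : L →+* ℂ) :
    ‖φ x‖ ≤ mulHeight₁ x := by
  rw [NumberField.mulHeight₁_eq]
  set v := InfinitePlace.mk φ with hv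
  have h1 : ‖φ x‖ = v x := rfl
  have h2 : 1 ≤ ∏ᶠ w : FinitePlace L, max (w x) 1 := by
    apply finprod_induction (p := fun t : ℝ => 1 ≤ t)
    · exact le_refl _
    · intro a b ha hb
      exact one_le_mul_of_one_le_of_one_le ha hb
    · intro w
      exact le_max_right _ _
  have hge : ∀ w : InfinitePlace L, (1 : ℝ) ≤ max (w x) 1 ^ w.mult := fun w =>
    one_le_pow₀ (le_max_right _ _)
  have h3 : max (v x) 1 ^ v.mult ≤ ∏ w : InfinitePlace L, max (w x) 1 ^ w.mult := by
    classical
    rw [← Finset.mul_prod_erase Finset.univ _ (Finset.mem_univ v)]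
    have h4 : 1 ≤ ∏ w ∈ Finset.univ.erase v, max (w x) 1 ^ w.mult := by
      apply Finset.prod_induction _ (fun t : ℝ => 1 ≤ t)
      · intro a b ha hb
        exact one_le_mul_of_one_le_of_one_le ha hb
      · exact le_refl _
      · intro w _
        exact hge w
    exact le_mul_of_one_le_right (by positivity) h4
  have h5 : max (v x) 1 ≤ max (v x) 1 ^ v.mult :=
    le_self_pow₀ (le_max_right _ _) InfinitePlace.mult_ne_zero
  have h6 : v x ≤ max (v x) 1 := le_max_left _ _
  have h7 : 0 ≤ ∏ w : InfinitePlace L, max (w x) 1 ^ w.mult := by positivity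
  rw [h1]
  calc v x ≤ ∏ w : InfinitePlace L, max (w x) 1 ^ w.mult := h6.trans (h5.trans h3)
    _ ≤ _ := le_mul_of_one_le_right h7 h2

/-- The number of elements of bounded height of a number field of bounded degree is bounded. -/
theorem north (d : ℕ) (B : ℝ) : ∃ n : ℕ, ∀ (L : Type) [Field L] [NumberField L],
    Module.finrank ℚ L ≤ d → {x : L | logHeight₁ x ≤ B}.ncard ≤ n := by
  classical
  set N : ℕ := ⌈Real.exp B⌉₊ with hN
  set C₀ : ℕ := ⌈max (Real.exp B * Real.exp B) 1 ^ d * 2 ^ d⌉₊ with hC
  set I : Finset (ℕ × (Fin (d + 1) → ℤ)) :=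
    Finset.range (N + 1) ×ˢ Fintype.piFinset (fun _ => Finset.Icc (-(C₀ : ℤ)) C₀) with hI
  refine ⟨I.card * d, fun L _ _ hL => ?_⟩
  set F : Finset L := I.biUnion (fun p =>
    (((pol p.2).map (Int.castRingHom L)).roots.toFinset.image (fun α => α / (p.1 : L)))) with hF
  have hFc : F.card ≤ I.card * d := by
    apply Finset.card_biUnion_le_card_mul
    intro p _
    refine Finset.card_image_le.trans ((Multiset.toFinset_card_le _).trans
      ((Polynomial.card_roots' _).trans (natDegree_map_le.trans (pol_deg _))))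
  have hsub : {x : L | logHeight₁ x ≤ B} ⊆ (F : Set L) := by
    intro x hx
    rw [Set.mem_ofPred_eq, logHeight₁_eq_log_mulHeight₁, Real.log_le_iff_le_exp (mulHeight₁_pos x)]
      at hx
    obtain ⟨n, hn0, hn1, hn2⟩ := exists_nat_le_mulHeight₁ x
    have hn3 : (n : ℝ) ≤ Real.exp B := hn1.trans hx
    have hemb : ∀ φ : L →+* ℂ, ‖φ ((n : L) * x)‖ ≤ Real.exp B * Real.exp B := by
      intro φ
      rw [map_mul, map_natCast, norm_mul, Complex.norm_natCast]
      exact mul_le_mul hn3 ((embed_le x φ).trans hx) (norm_nonneg _) (Real.exp_pos _).le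
    set f := minpoly ℤ ((n : L) * x) with hf
    have hQ := minpoly.isIntegrallyClosed_eq_field_fractions' ℚ hn2
    have hdeg : f.natDegree ≤ d := by
      rw [← (minpoly.monic hn2).natDegree_map (algebraMap ℤ ℚ), ← hQ]
      exact (minpoly.natDegree_le _).trans hL
    have hcoef : ∀ i, |f.coeff i| ≤ C₀ := by
      intro i
      have h1 := Embeddings.coeff_bdd_of_norm_le hemb i
      have h2 : ‖(minpoly ℚ ((n : L) * x)).coeff i‖ = |(f.coeff i : ℝ)| := by
        rw [hQ, coeff_map, eq_intCast, Int.norm_cast_rat, Int.norm_eq_abs]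
      rw [h2] at h1
      have h3 : max (Real.exp B * Real.exp B) 1 ^ Module.finrank ℚ L ≤
          max (Real.exp B * Real.exp B) 1 ^ d := pow_le_pow_right₀ (le_max_right _ _) hL
      have h4 : ((Module.finrank ℚ L).choose (Module.finrank ℚ L / 2) : ℝ) ≤ 2 ^ d := by
        have h5 : (Module.finrank ℚ L).choose (Module.finrank ℚ L / 2) ≤ 2 ^ Module.finrank ℚ L :=
          Nat.choose_le_two_pow _ _
        have h6 : 2 ^ Module.finrank ℚ L ≤ 2 ^ d := Nat.pow_le_pow_right (by norm_num) hL
        exact_mod_cast h5.trans h6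
      have h5 : |(f.coeff i : ℝ)| ≤ max (Real.exp B * Real.exp B) 1 ^ d * 2 ^ d :=
        h1.trans (mul_le_mul h3 h4 (by positivity) (by positivity))
      have h6 : |(f.coeff i : ℝ)| ≤ C₀ := h5.trans (Nat.le_ceil _)
      exact_mod_cast h6
    rw [hF, Finset.coe_biUnion, Set.mem_iUnion₂]
    refine ⟨(n, fun i : Fin (d + 1) => f.coeff i), ?_, ?_⟩
    · rw [hI, Finset.mem_coe, Finset.mem_product]
      refine ⟨?_, ?_⟩
      · rw [Finset.mem_range]
        have : (n : ℝ) ≤ N := hn3.trans (Nat.le_ceil _)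
        have : n ≤ N := by exact_mod_cast this
        omega
      · rw [Fintype.mem_piFinset]
        intro i
        rw [Finset.mem_Icc]
        exact abs_le.1 (hcoef i)
    · rw [Finset.mem_coe, Finset.mem_image]
      refine ⟨(n : L) * x, ?_, ?_⟩
      · simp only
        rw [pol_coeff hdeg, Multiset.mem_toFinset, mem_roots']
        refine ⟨?_, ?_⟩
        · exact ((minpoly.monic hn2).map _).ne_zero
        · have h1 := minpoly.aeval ℤ ((n : L) * x)
          rw [aeval_def] at h1
          rw [IsRoot.def, eval_map]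
          exact h1
      · have : (n : L) ≠ 0 := by exact_mod_cast hn0
        field_simp
  calc _ ≤ (F : Set L).ncard := Set.ncard_le_ncard hsub (Finset.finite_toSet F)
    _ = F.card := Set.ncard_coe_finset F
    _ ≤ _ := hFc

end Pool.Agent.TH910.LS
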