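import Mathlib
import Pool.Agent.TH910.LS.Gal
import Pool.Agent.TH910.LS.North
import Pool.Agent.TH910.LS.Fin

/-!
# Forms of powers of an elliptic curve
-/

set_option autoImplicit false
set_option linter.unusedSectionVars false

open WeierstrassCurve Height NumberField IsDedekindDomain Matrix Filter Topology

namespace Pool.Agent.TH910.LS

open Pool.Agent.TH942

section abs

variable {A : Type} [AddCommGroup A] {κ : Type} [Fintype κ] [DecidableEq κ]

lemma qM_nonneg {q : A → ℝ} (hq0 : ∀ P, 0 ≤ q P)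
    (hq : ∀ P Q, q (P + Q) + q (P - Q) = 2 * (q P + q Q)) {M : Matrix κ κ ℤ}
    (hM : (M.map (Int.cast : ℤ → ℝ)).PosDef) (P : κ → A) : 0 ≤ qM q M P := by
  have hps : (TH942.gram q P).PosSemidef := by
    apply posSemidef_of_int' _ (gram_symm q P)
    intro c
    have := q_comb q hq P 0 IsOfFinAddOrder.zero c
    rw [add_zero] at this
    rw [← this]
    exact hq0 _
  obtain ⟨R, hR⟩ := exists_sqrt hps
  set N : Matrix κ κ ℝ := M.map (Int.cast : ℤ → ℝ) with hN
  have h1 : (R * N * Rᴴ).PosSemidef := hM.posSemidef.mul_mul_conjTranspose_same R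
  have h2 := h1.trace_nonneg
  have h3 : (R * N * Rᴴ).trace = ∑ i, ∑ j, N i j * TH942.gram q P i j := by
    rw [Matrix.mul_assoc, Matrix.trace_mul_comm, Matrix.mul_assoc N, ← hR, Matrix.trace]
    apply Finset.sum_congr rfl
    intro i _
    rw [Matrix.diag_apply, Matrix.mul_apply]
    apply Finset.sum_congr rfl
    intro j _
    have : TH942.gram q P j i = TH942.gram q P i j := gram_symm q P j i
    rw [this]
  rw [h3] at h2
  exact h2

lemma qM_bil {q : A → ℝ} (hq : ∀ P Q, q (P + Q) + q (P - Q) = 2 * (q P + q Q)) :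
    ∃ B : A →+ A →+ ℝ, (∀ P Q, B P Q = B Q P) ∧
      ∀ (M : Matrix κ κ ℤ) (P : κ → A), qM q M P = ∑ i, ∑ j, (M i j : ℝ) * B (P i) (P j) := by
  obtain ⟨B, hB1, hB2⟩ := H437R2.Man.MW.polar q hq
  refine ⟨B, hB2, fun M P => ?_⟩
  unfold qM
  apply Finset.sum_congr rfl
  intro i _
  apply Finset.sum_congr rfl
  intro j _
  congr 1
  simp only [TH942.gram, Matrix.of_apply]
  rw [← hB1, ← hB1, ← hB1]
  simp only [map_add, AddMonoidHom.add_apply]
  rw [hB2 (P j) (P i)]
  ring

lemma qM_sub {q : A → ℝ} (hq0 : ∀ P, 0 ≤ q P)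
    (hq : ∀ P Q, q (P + Q) + q (P - Q) = 2 * (q P + q Q)) {M : Matrix κ κ ℤ}
    (hM : (M.map (Int.cast : ℤ → ℝ)).PosDef) (P R : κ → A) :
    qM q M (P - R) ≤ 2 * (qM q M P + qM q M R) := by
  obtain ⟨B, hB, h⟩ := qM_bil (κ := κ) hq
  have h1 : qM q M (P + R) + qM q M (P - R) = 2 * (qM q M P + qM q M R) := by
    rw [h, h, h, h, ← Finset.sum_add_distrib, ← Finset.sum_add_distrib, Finset.mul_sum]
    apply Finset.sum_congr rfl
    intro i _
    rw [← Finset.sum_add_distrib, ← Finset.sum_add_distrib, Finset.mul_sum]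
    apply Finset.sum_congr rfl
    intro j _
    simp only [Pi.add_apply, Pi.sub_apply, map_add, map_sub, AddMonoidHom.add_apply,
      AddMonoidHom.sub_apply]
    ring
  have h2 := qM_nonneg hq0 hq hM (P + R)
  linarith

lemma qM_act {q : A → ℝ} (hq : ∀ P Q, q (P + Q) + q (P - Q) = 2 * (q P + q Q))
    {M r : Matrix κ κ ℤ} (hr : rᵀ * M * r = M) (P : κ → A) :
    qM q M (fun i => ∑ j, r i j • P j) = qM q M P := by
  obtain ⟨B, hB, h⟩ := qM_bil (κ := κ) hq
  rw [h, h]
  have h1 : ∀ i j, B (∑ k, r i k • P k) (∑ l, r j l • P l) =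
      ∑ k, ∑ l, (r i k : ℝ) * (r j l : ℝ) * B (P k) (P l) := by
    intro i j
    simp only [map_sum, map_zsmul, AddMonoidHom.finsetSum_apply, AddMonoidHom.smul_apply]
    rw [Finset.sum_comm]
    apply Finset.sum_congr rfl
    intro k _
    rw [Finset.smul_sum]
    apply Finset.sum_congr rfl
    intro l _
    simp only [zsmul_eq_mul]
    ring
  simp only [h1, Finset.mul_sum]
  rw [swap4]
  apply Finset.sum_congr rfl
  intro k _
  apply Finset.sum_congr rfl
  intro l _
  have h2 : (M k l : ℝ) = ∑ i, ∑ j, (M i j : ℝ) * (r i k : ℝ) * (r j l : ℝ) := by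
    have h3 := congrFun (congrFun hr k) l
    rw [← h3, Matrix.mul_apply]
    simp only [Matrix.mul_apply, Matrix.transpose_apply, Finset.sum_mul]
    push_cast
    rw [Finset.sum_comm]
    apply Finset.sum_congr rfl
    intro i _
    apply Finset.sum_congr rfl
    intro j _
    ring
  rw [h2, Finset.sum_mul]
  apply Finset.sum_congr rfl
  intro i _
  rw [Finset.sum_mul]
  apply Finset.sum_congr rfl
  intro j _
  ring

end abs

variable {K : Type} [Field K] [NumberField K]

lemma nht_one {L : Type} [Field L] [NumberField L] {a b : L} (P : SPt a b) :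
    nht 1 1 P = sht P := by
  unfold nht sht
  simp only [pow_one, one_mul, Nat.cast_one, div_one]
  congr 1
  ext i
  fin_cases i <;> rfl

/-- uniform constants for a curve over the extensions of bounded degree -/
theorem uniform (a b : 𝓞 K) (hab : 4 * (a : K) ^ 3 + 27 * (b : K) ^ 2 ≠ 0) (n : ℕ) :
    ∃ C ε : ℝ, 0 ≤ C ∧ 0 < ε ∧ ∀ (L : Type) [Field L] [NumberField L] [Algebra K L]
      [DecidableEq L], Module.finrank ℚ L ≤ n →
      (∀ P : SPt (algebraMap K L a) (algebraMap K L b), sht P ≤ chat P + C) ∧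
      ∀ P : SPt (algebraMap K L a) (algebraMap K L b), ¬ IsOfFinAddOrder P → ε ≤ chat P := by
  obtain ⟨C, hC, hdup⟩ := udup a b hab
  obtain ⟨m, hm⟩ := north n ((1 : ℕ) * (1 + C * n / 3))
  have hC2 : 0 ≤ C * n := by positivity
  refine ⟨C * n / 3, cst (2 * (1 + m * 1)) (C * n) 1, by positivity, cst_pos hC2 one_pos,
    fun L _ _ _ _ hL => ?_⟩
  have hab' : 4 * (algebraMap K L a) ^ 3 + 27 * (algebraMap K L b) ^ 2 ≠ 0 := by
    have h1 : algebraMap K L (4 * (a : K) ^ 3 + 27 * (b : K) ^ 2) ≠ 0 := by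
      rw [ne_eq, map_eq_zero]
      exact hab
    rw [map_add, map_mul, map_mul, map_pow, map_pow, map_ofNat, map_ofNat] at h1
    exact h1
  have hW : (totalWeight L : ℝ) ≤ n := by
    rw [NumberField.totalWeight_eq_finrank]
    exact_mod_cast hL
  have hdup' : ∀ P : SPt (algebraMap K L a) (algebraMap K L b),
      4 * sht P - C * n ≤ sht ((2 : ℕ) • P) := by
    intro P
    rw [two_nsmul]
    have h1 := hdup L P
    have h2 : C * totalWeight L ≤ C * n := mul_le_mul_of_nonneg_left hW hC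
    linarith
  constructor
  · intro P
    have h1 := ge_of_dup (A := SPt (algebraMap K L a) (algebraMap K L b)) (N := fun P => sht P)
      (q := fun P => chat P) hC2 (chat_spec hab').1 hdup' P
    linarith
  · intro P hP
    have hcard : {P : SPt (algebraMap K L a) (algebraMap K L b) |
        sht P ≤ 1 + C * n / 3}.ncard ≤ 2 * (1 + m * 1) := by
      have h1 := nht_card (a := algebraMap K L (a : K)) (b := algebraMap K L (b : K)) (m := 1)
        one_ne_zero (D := (1 : L)) one_ne_zero (1 + C * n / 3)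
      simp only [nht_one] at h1
      refine h1.trans ?_
      have h2 := hm L hL
      omega
    have h1 := (single (A := SPt (algebraMap K L a) (algebraMap K L b)) (N := fun P => sht P)
      (q := fun P => chat P) hC2 (chat_spec hab').2.2.1 (chat_spec hab').1 hdup'
      (sfinite_ht _) hcard).2 P hP 1 one_pos 0 (by
        have := sht_nonneg P
        linarith)
    linarith

/-- the contribution of the primes of bad reduction -/
lemma bad_sum (δ : 𝓞 K) (hδ : δ ≠ 0) : ∃ c : ℝ, 0 ≤ c ∧ ∀ (L : Type) [Field L] [NumberField L]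
    [Algebra K L] (T : Finset (HeightOneSpectrum (𝓞 L))),
    (∀ v ∈ T, v.valuation L (algebraMap K L δ) ≠ 1) →
      ∑ v ∈ T, Real.log (Ideal.absNorm v.asIdeal) ≤ c * totalWeight L := by
  obtain ⟨c, hc, h⟩ := int_height ![δ, 1]
  refine ⟨2 * c, by positivity, fun L _ _ _ T hT => ?_⟩
  have hδ' : algebraMap K L (δ : K) ≠ 0 := by
    rw [ne_eq, map_eq_zero]
    intro h0
    apply hδ
    exact_mod_cast h0
  have h1 := support_le T hδ' hT
  have h2 := h L
  have h3 : (fun i => algebraMap K L ((![δ, 1] : Fin 2 → 𝓞 K) i : K)) =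
      ![algebraMap K L (δ : K), 1] := by
    ext i
    fin_cases i <;> simp
  rw [h3, ← logHeight₁_eq_logHeight] at h2
  linarith

section galois

variable {L : Type} [Field L] [NumberField L] [Algebra K L] [DecidableEq L] {a b : 𝓞 K}

/-- a point of small height in the image of `1 - σ` -/
lemma exists_diff (hab : 4 * (algebraMap K L a) ^ 3 + 27 * (algebraMap K L b) ^ 2 ≠ 0)
    {g : ℕ} {M : Matrix (Fin g) (Fin g) ℤ} (hM : (M.map (Int.cast : ℤ → ℝ)).PosDef)
    {σ : L ≃ₐ[K] L} {r : Matrix (Fin g) (Fin g) ℤ} (hr : rᵀ * M * r = M)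
    {P : Fin g → SPt (algebraMap K L a) (algebraMap K L b)}
    (hP : ∀ i, gal σ (P i) = ∑ j, r i j • P j) (hne : ∃ i, gal σ (P i) ≠ P i) :
    ∃ U : SPt (algebraMap K L a) (algebraMap K L b), U - gal σ U ≠ 0 ∧
      chat (U - gal σ U) ≤ 4 * chatM M P := by
  obtain ⟨-, hq0, hq, -⟩ := chat_spec hab
  set q : SPt (algebraMap K L a) (algebraMap K L b) → ℝ := fun P => chat P with hqd
  have hnn : 0 ≤ chatM M P := qM_nonneg (q := q) hq0 hq hM P
  set R : Fin g → SPt (algebraMap K L a) (algebraMap K L b) := fun i => P i - gal σ (P i) with hR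
  have hR4 : chatM M R ≤ 4 * chatM M P := by
    have h1 := qM_sub (q := q) hq0 hq hM P (fun i => gal σ (P i))
    have h2 : qM q M (fun i => gal σ (P i)) = qM q M P := by
      have h3 : (fun i => gal σ (P i)) = fun i => ∑ j, r i j • P j := funext hP
      rw [h3]
      exact qM_act hq hr P
    rw [h2] at h1
    have h4 : P - (fun i => gal σ (P i)) = R := rfl
    rw [h4] at h1
    have h5 : chatM M R = qM q M R := rfl
    have h6 : chatM M P = qM q M P := rfl
    rw [h5, h6]
    linarith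
  by_cases hRt : IsOfFinAddOrder R
  · obtain ⟨i, hi⟩ := hne
    refine ⟨P i, fun h0 => hi (sub_eq_zero.1 h0).symm, ?_⟩
    have h1 : IsOfFinAddOrder (R i) := by
      rw [isOfFinAddOrder_iff_nsmul_eq_zero] at hRt ⊢
      obtain ⟨m, hm, h2⟩ := hRt
      exact ⟨m, hm, congrFun h2 i⟩
    have h2 : chat (R i) = 0 := q_tors (q := q) hq h1
    rw [show P i - gal σ (P i) = R i from rfl, h2]
    linarith
  · obtain ⟨Q, hQ, hQt, hQ2⟩ := reduction hab M hM R hRt
    have hrange : AddSubgroup.closure (Set.range R) ≤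
        (AddMonoidHom.id (SPt (algebraMap K L a) (algebraMap K L b)) - sig σ).range := by
      rw [AddSubgroup.closure_le]
      rintro _ ⟨i, rfl⟩
      refine ⟨P i, ?_⟩
      rw [AddMonoidHom.sub_apply, AddMonoidHom.id_apply, sig_eq]
    obtain ⟨U, hU⟩ := hrange hQ
    rw [AddMonoidHom.sub_apply, AddMonoidHom.id_apply, sig_eq] at hU
    refine ⟨U, ?_, ?_⟩
    · rw [hU]
      rintro rfl
      exact hQt IsOfFinAddOrder.zero
    · rw [hU]
      exact hQ2.trans hR4

end galois

/-- **Forms of a power of an elliptic curve.** -/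
theorem forms (a b : 𝓞 K) (hab : 4 * (a : K) ^ 3 + 27 * (b : K) ^ 2 ≠ 0) (d : ℕ) :
    ∃ c : ℝ, 0 < c ∧ ∀ (L : Type) [Field L] [NumberField L] [Algebra K L] [DecidableEq L],
      Module.finrank K L ≤ d →
      ∀ (g : ℕ) (M : Matrix (Fin g) (Fin g) ℤ), (M.map (Int.cast : ℤ → ℝ)).PosDef →
      ∀ (ρ : (L ≃ₐ[K] L) → Matrix (Fin g) (Fin g) ℤ), (∀ σ, (ρ σ)ᵀ * M * ρ σ = M) →
      ∀ P : Fin g → SPt (algebraMap K L a) (algebraMap K L b),
        (∀ σ i, gal σ (P i) = ∑ j, ρ σ i j • P j) → (∀ σ ≠ 1, ∃ i, gal σ (P i) ≠ P i) →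
        ¬ IsOfFinAddOrder P →
        ∀ T : Finset (HeightOneSpectrum (𝓞 L)),
          (∀ v ∈ T, ∃ σ : L ≃ₐ[K] L, σ ≠ 1 ∧ Inert v (σ : L ≃+* L)) →
          c * (1 + ∑ v ∈ T, Real.log (Ideal.absNorm v.asIdeal)) ≤ chatM M P := by
  classical
  set n : ℕ := Module.finrank ℚ K * d with hn
  obtain ⟨C, ε, hC, hε, hunif⟩ := uniform a b hab n
  set δ : 𝓞 K := 2 * (4 * a ^ 3 + 27 * b ^ 2) with hδ
  have hδK : (δ : K) = 2 * (4 * (a : K) ^ 3 + 27 * (b : K) ^ 2) := by
    rw [hδ]
    push_cast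
    rfl
  have hδ0 : δ ≠ 0 := by
    intro h0
    have h1 : (δ : K) = 0 := by rw [h0]; rfl
    rw [hδK] at h1
    exact mul_ne_zero (by norm_num) hab h1
  obtain ⟨c₂, hc₂, hbad⟩ := bad_sum δ hδ0
  set E : ℝ := 1 + c₂ * n + d * C with hE
  have hE1 : 0 < E := by positivity
  refine ⟨1 / (E / ε + 4 * d), by positivity, ?_⟩
  intro L _ _ _ _ hL g M hM ρ hρ P hP hst htors T hT
  have hfd : FiniteDimensional K L := inferInstance
  have hLn : Module.finrank ℚ L ≤ n := by
    rw [← Module.finrank_mul_finrank ℚ K L, hn]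
    exact Nat.mul_le_mul_left _ hL
  obtain ⟨hu1, hu2⟩ := hunif L hLn
  have hab' : 4 * (algebraMap K L a) ^ 3 + 27 * (algebraMap K L b) ^ 2 ≠ 0 := by
    have h1 : algebraMap K L (4 * (a : K) ^ 3 + 27 * (b : K) ^ 2) ≠ 0 := by
      rw [ne_eq, map_eq_zero]
      exact hab
    rw [map_add, map_mul, map_mul, map_pow, map_pow, map_ofNat, map_ofNat] at h1
    exact h1
  have hδL : algebraMap K L (δ : K) =
      2 * (4 * (algebraMap K L a) ^ 3 + 27 * (algebraMap K L b) ^ 2) := by
    rw [hδK, map_mul, map_add, map_mul, map_mul, map_pow, map_pow, map_ofNat, map_ofNat, map_ofNat]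
  have hεq : ε ≤ chatM M P := by
    obtain ⟨Q, -, hQ, hQ2⟩ := reduction hab' M hM P htors
    exact (hu2 Q hQ).trans hQ2
  have hq0 : 0 ≤ chatM M P := hε.le.trans hεq
  have hlog : ∀ v : HeightOneSpectrum (𝓞 L), 0 ≤ Real.log (Ideal.absNorm v.asIdeal) := fun v =>
    Real.log_natCast_nonneg _
  -- the primes of bad reduction
  have hTb : ∑ v ∈ T.filter (fun v => v.valuation L (algebraMap K L δ) ≠ 1),
      Real.log (Ideal.absNorm v.asIdeal) ≤ c₂ * n := by
    refine (hbad L _ (fun v hv => (Finset.mem_filter.1 hv).2)).trans ?_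
    apply mul_le_mul_of_nonneg_left _ hc₂
    rw [NumberField.totalWeight_eq_finrank]
    exact_mod_cast hLn
  -- the primes with `σ` in the inertia group
  set G : Finset (HeightOneSpectrum (𝓞 L)) :=
    T.filter (fun v => ¬ v.valuation L (algebraMap K L δ) ≠ 1) with hG
  have hσ : ∀ σ : L ≃ₐ[K] L, ∑ v ∈ G.filter (fun v => σ ≠ 1 ∧ Inert v (σ : L ≃+* L)),
      Real.log (Ideal.absNorm v.asIdeal) ≤ 4 * chatM M P + C := by
    intro σ
    by_cases hσ1 : σ = 1
    · have : G.filter (fun v => σ ≠ 1 ∧ Inert v (σ : L ≃+* L)) = ∅ := by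
        apply Finset.filter_false_of_mem
        intro v _ h
        exact h.1 hσ1
      rw [this, Finset.sum_empty]
      positivity
    obtain ⟨U, hU1, hU2⟩ := exists_diff hab' hM (hρ σ) (hP σ) (hst σ hσ1)
    have hgood : ∀ v ∈ G.filter (fun v => σ ≠ 1 ∧ Inert v (σ : L ≃+* L)),
        ∃ x y h, U - gal σ U = Affine.Point.some x y h ∧ 1 < av v x := by
      intro v hv
      rw [Finset.mem_filter, hG, Finset.mem_filter, not_not] at hv
      obtain ⟨⟨hvT, hv1⟩, -, hvI⟩ := hv
      rw [hδL] at hv1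
      have hint : ∀ z : 𝓞 L, v.valuation L (z : L) ≤ 1 := fun z => v.valuation_le_one (K := L) z
      have h2 : v.valuation L 2 ≤ 1 := by
        have h := hint 2
        have e2 : ((2 : 𝓞 L) : L) = 2 := map_ofNat (algebraMap (𝓞 L) L) 2
        rwa [e2] at h
      have h3 : v.valuation L (4 * (algebraMap K L a) ^ 3 + 27 * (algebraMap K L b) ^ 2) ≤ 1 := by
        obtain ⟨z, hz⟩ := exists_int_alg L (4 * a ^ 3 + 27 * b ^ 2)
        have h4 := hint z
        have e3 : ((4 * a ^ 3 + 27 * b ^ 2 : 𝓞 K) : K) = 4 * (a : K) ^ 3 + 27 * (b : K) ^ 2 := by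
          push_cast
          rfl
        have e4 : algebraMap K L ((4 * a ^ 3 + 27 * b ^ 2 : 𝓞 K) : K) =
            4 * (algebraMap K L a) ^ 3 + 27 * (algebraMap K L b) ^ 2 := by
          rw [e3, map_add, map_mul, map_mul, map_pow, map_pow, map_ofNat, map_ofNat]
        rw [hz, e4] at h4
        exact h4
      rw [map_mul] at hv1
      have h4 : v.valuation L 2 = 1 := by
        apply le_antisymm h2
        rw [← hv1]
        exact mul_le_of_le_one_right zero_le h3
      have h5 : v.valuation L (4 * (algebraMap K L a) ^ 3 + 27 * (algebraMap K L b) ^ 2) = 1 := by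
        rwa [h4, one_mul] at hv1
      apply inert_point hvI _ _ U hU1
      · rw [av_eq, h4, map_one]
        rfl
      · rw [av_eq, h5, map_one]
        rfl
    have hsht : ∑ v ∈ G.filter (fun v => σ ≠ 1 ∧ Inert v (σ : L ≃+* L)),
        Real.log (Ideal.absNorm v.asIdeal) ≤ sht (U - gal σ U) := by
      match hUe : U - gal σ U, hU1 with
      | 0, h => exact absurd rfl h
      | .some x y h, _ =>
        apply pole_sum
        intro v hv
        obtain ⟨x', y', h', he, hx'⟩ := hgood v hv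
        rw [hUe] at he
        have : x = x' := by
          have := (Affine.Point.some.injEq x y h x' y' h').mp he
          exact this.1
        rw [this]
        exact hx'
    have := hu1 (U - gal σ U)
    linarith
  have hcard : (Fintype.card (L ≃ₐ[K] L) : ℝ) ≤ d := by
    have h1 := AlgEquiv.card_le (F := K) (K := L)
    exact_mod_cast h1.trans hL
  have hTg : ∑ v ∈ G, Real.log (Ideal.absNorm v.asIdeal) ≤ d * (4 * chatM M P + C) := by
    have h1 : ∀ v ∈ G, Real.log (Ideal.absNorm v.asIdeal) ≤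
        ∑ σ : L ≃ₐ[K] L, if σ ≠ 1 ∧ Inert v (σ : L ≃+* L) then
          Real.log (Ideal.absNorm v.asIdeal) else 0 := by
      intro v hv
      obtain ⟨σ, hσ1, hσ2⟩ := hT v (Finset.mem_filter.1 hv).1
      have h2 := Finset.single_le_sum (f := fun σ : L ≃ₐ[K] L =>
        if σ ≠ 1 ∧ Inert v (σ : L ≃+* L) then Real.log (Ideal.absNorm v.asIdeal) else 0)
        (fun σ _ => by
          split_ifs
          · exact hlog v
          · exact le_refl _) (Finset.mem_univ σ)
      rw [if_pos ⟨hσ1, hσ2⟩] at h2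
      exact h2
    calc ∑ v ∈ G, Real.log (Ideal.absNorm v.asIdeal) ≤
        ∑ v ∈ G, ∑ σ : L ≃ₐ[K] L, (if σ ≠ 1 ∧ Inert v (σ : L ≃+* L) then
          Real.log (Ideal.absNorm v.asIdeal) else 0) := Finset.sum_le_sum h1
      _ = ∑ σ : L ≃ₐ[K] L, ∑ v ∈ G.filter (fun v => σ ≠ 1 ∧ Inert v (σ : L ≃+* L)),
          Real.log (Ideal.absNorm v.asIdeal) := by
        rw [Finset.sum_comm]
        apply Finset.sum_congr rfl
        intro σ _
        exact (Finset.sum_filter _ _).symm
      _ ≤ ∑ _σ : L ≃ₐ[K] L, (4 * chatM M P + C) := Finset.sum_le_sum fun σ _ => hσ σ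
      _ = Fintype.card (L ≃ₐ[K] L) * (4 * chatM M P + C) := by
        rw [Finset.sum_const, Finset.card_univ, nsmul_eq_mul]
      _ ≤ d * (4 * chatM M P + C) := mul_le_mul_of_nonneg_right hcard (by positivity)
  have hsplit := Finset.sum_filter_add_sum_filter_not T
    (fun v => v.valuation L (algebraMap K L δ) ≠ 1)
    (fun v => Real.log (Ideal.absNorm v.asIdeal))
  have hden : 0 < E / ε + 4 * d := by positivity
  rw [one_div, inv_mul_le_iff₀ hden, add_mul]
  have h9 : E ≤ E / ε * chatM M P := by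
    rw [div_mul_eq_mul_div, le_div_iff₀ hε]
    exact mul_le_mul_of_nonneg_left hεq hE1.le
  have h10 : d * (4 * chatM M P + C) = 4 * d * chatM M P + d * C := by ring
  rw [h10] at hTg
  rw [← hsplit]
  linarith

end Pool.Agent.TH910.LS
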