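import Mathlib
import Pool.Agent.TH910.LS.Form
import Pool.Agent.TH910.LS.Fingrp

/-!
# Forms of powers of an elliptic curve: final form
-/

set_option autoImplicit false
set_option linter.unusedSectionVars false

open WeierstrassCurve Height NumberField IsDedekindDomain Matrix

namespace Pool.Agent.TH910.LS

open Pool.Agent.TH942

lemma act_mul {A : Type} [AddCommGroup A] {g : ℕ} (X Y : Matrix (Fin g) (Fin g) ℤ) (P : Fin g → A)
    (i : Fin g) : ∑ j, X i j • ∑ k, Y j k • P k = ∑ k, (X * Y) i k • P k := by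
  simp only [Finset.smul_sum, smul_smul, Matrix.mul_apply, Finset.sum_smul]
  rw [Finset.sum_comm]

lemma act_one {A : Type} [AddCommGroup A] {g : ℕ} (P : Fin g → A) (i : Fin g) :
    ∑ j, (1 : Matrix (Fin g) (Fin g) ℤ) i j • P j = P i := by
  rw [Finset.sum_eq_single i]
  · rw [Matrix.one_apply_eq, one_smul]
  · intro j _ hj
    rw [Matrix.one_apply_ne hj.symm, zero_smul]
  · intro h
    exact absurd (Finset.mem_univ i) h

section

variable {K : Type} [Field K] [NumberField K] {L : Type} [Field L] [NumberField L] [Algebra K L]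
  [DecidableEq L] {a b : 𝓞 K} {g : ℕ}

/-- the two ways to write that a point is fixed by the twisted action -/
lemma fixed_iff (ρ : (L ≃ₐ[K] L) →* Matrix (Fin g) (Fin g) ℤ)
    {P : Fin g → SPt (algebraMap K L a) (algebraMap K L b)}
    (hP : ∀ σ i, ∑ j, ρ σ i j • gal σ (P j) = P i) (σ : L ≃ₐ[K] L) (i : Fin g) :
    gal σ (P i) = ∑ j, ρ σ⁻¹ i j • P j := by
  have h1 : ∑ j, ρ σ⁻¹ i j • P j = ∑ j, ρ σ⁻¹ i j • ∑ k, ρ σ j k • gal σ (P k) := by
    apply Finset.sum_congr rfl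
    intro j _
    rw [hP σ j]
  rw [h1, act_mul, ← map_mul, inv_mul_cancel, map_one, act_one]

end

/-- **Forms**, with the bound of Minkowski for the degree of the splitting field. -/
theorem forms_final {K : Type} [Field K] [NumberField K] (a b : 𝓞 K)
    (hab : 4 * (a : K) ^ 3 + 27 * (b : K) ^ 2 ≠ 0) (g : ℕ) :
    ∃ c : ℝ, 0 < c ∧ ∀ (L : Type) [Field L] [NumberField L] [Algebra K L] [IsGalois K L]
      [DecidableEq L] (ρ : (L ≃ₐ[K] L) →* Matrix (Fin g) (Fin g) ℤ) (M : Matrix (Fin g) (Fin g) ℤ),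
      (M.map (Int.cast : ℤ → ℝ)).PosDef → (∀ σ, (ρ σ)ᵀ * M * ρ σ = M) →
      ∀ P : Fin g → SPt (algebraMap K L a) (algebraMap K L b),
        (∀ σ i, ∑ j, ρ σ i j • gal σ (P j) = P i) →
        (∀ σ ≠ 1, ∃ i, gal σ (P i) ≠ P i) → ¬ IsOfFinAddOrder P →
        ∀ T : Finset (HeightOneSpectrum (𝓞 L)),
          (∀ v ∈ T, ∃ σ : L ≃ₐ[K] L, σ ≠ 1 ∧ Inert v (σ : L ≃+* L)) →
          c * (1 + ∑ v ∈ T, Real.log (Ideal.absNorm v.asIdeal)) ≤
            chatM M P / Module.finrank K L := by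
  obtain ⟨c, hc, h⟩ := forms a b hab (3 ^ (g * g))
  refine ⟨c / 3 ^ (g * g), by positivity, ?_⟩
  intro L _ _ _ _ _ ρ M hM hρ P hP hst htors T hT
  have hfaith : ∀ σ, ρ σ = 1 → σ = 1 := by
    intro σ hσ
    by_contra hne
    obtain ⟨i, hi⟩ := hst σ⁻¹ (inv_ne_one.2 hne)
    apply hi
    rw [fixed_iff ρ hP, inv_inv, hσ, act_one]
  have hcard : Module.finrank K L ≤ 3 ^ (g * g) := by
    rw [← IsGalois.card_aut_eq_finrank, Nat.card_eq_fintype_card]
    exact minkowski ρ hfaith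
  have h1 := h L hcard g M hM (fun σ => ρ σ⁻¹) (fun σ => hρ σ⁻¹) P (fixed_iff ρ hP) hst htors T hT
  have hpos : (0 : ℝ) < Module.finrank K L := by
    exact_mod_cast Module.finrank_pos
  have hsum : 0 ≤ ∑ v ∈ T, Real.log (Ideal.absNorm v.asIdeal) :=
    Finset.sum_nonneg fun _ _ => Real.log_natCast_nonneg _
  rw [le_div_iff₀ hpos]
  refine le_trans ?_ h1
  have h2 : (Module.finrank K L : ℝ) ≤ 3 ^ (g * g) := by exact_mod_cast hcard
  have h3 : 0 ≤ c * (1 + ∑ v ∈ T, Real.log (Ideal.absNorm v.asIdeal)) := by positivity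
  have h4 : c / 3 ^ (g * g) * (1 + ∑ v ∈ T, Real.log (Ideal.absNorm v.asIdeal)) *
      Module.finrank K L = c * (1 + ∑ v ∈ T, Real.log (Ideal.absNorm v.asIdeal)) *
        (Module.finrank K L / 3 ^ (g * g)) := by ring
  rw [h4]
  apply mul_le_of_le_one_right h3
  exact (div_le_one (by positivity)).2 h2

section

variable {K : Type} [Field K] [NumberField K] {L : Type} [Field L] [NumberField L] [Algebra K L]
  [DecidableEq L] {a b : 𝓞 K} {g : ℕ}

/-- The orbit of `P` under the endomorphisms of the form is not contained in a proper algebraic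
subgroup: for every non-zero `ψ : E ^ g → E` there is an integral matrix `φ` commuting with the
twisted action such that `ψ (φ P)` is not torsion. -/
def DenseOrbit (ρ : (L ≃ₐ[K] L) →* Matrix (Fin g) (Fin g) ℤ)
    (P : Fin g → SPt (algebraMap K L a) (algebraMap K L b)) : Prop :=
  ∀ ψ : Fin g → ℤ, ψ ≠ 0 → ∃ φ : Matrix (Fin g) (Fin g) ℤ, (∀ σ, φ * ρ σ = ρ σ * φ) ∧
    ¬ IsOfFinAddOrder (∑ j, (ψ ᵥ* φ) j • P j)

lemma DenseOrbit.nontors (hg : 0 < g) {ρ : (L ≃ₐ[K] L) →* Matrix (Fin g) (Fin g) ℤ}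
    {P : Fin g → SPt (algebraMap K L a) (algebraMap K L b)} (h : DenseOrbit ρ P) :
    ¬ IsOfFinAddOrder P := by
  intro hP
  obtain ⟨φ, -, h1⟩ := h (Pi.single ⟨0, hg⟩ 1) (by
    intro h0
    have := congrFun h0 ⟨0, hg⟩
    simp at this)
  apply h1
  have h2 : ∀ j, IsOfFinAddOrder (P j) := by
    intro j
    rw [isOfFinAddOrder_iff_nsmul_eq_zero] at hP ⊢
    obtain ⟨m, hm, h3⟩ := hP
    exact ⟨m, hm, congrFun h3 j⟩
  have h3 : ∑ j, (Pi.single ⟨0, hg⟩ 1 ᵥ* φ) j • P j ∈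
      AddCommGroup.torsion (SPt (algebraMap K L a) (algebraMap K L b)) :=
    AddSubgroup.sum_mem _ fun j _ => AddSubgroup.zsmul_mem _ (h2 j) _
  exact h3

lemma DenseOrbit.stab {ρ : (L ≃ₐ[K] L) →* Matrix (Fin g) (Fin g) ℤ}
    (hρ : ∀ σ, ρ σ = 1 → σ = 1)
    {P : Fin g → SPt (algebraMap K L a) (algebraMap K L b)}
    (hP : ∀ σ i, ∑ j, ρ σ i j • gal σ (P j) = P i) (h : DenseOrbit ρ P) :
    ∀ σ ≠ 1, ∃ i, gal σ (P i) ≠ P i := by
  intro σ hσ
  by_contra hcon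
  push Not at hcon
  have hne : ρ σ⁻¹ ≠ 1 := fun h0 => hσ (by
    have := hρ _ h0
    exact inv_eq_one.1 this)
  obtain ⟨i, hi⟩ : ∃ i, (ρ σ⁻¹ - 1) i ≠ 0 := by
    by_contra hcon2
    push Not at hcon2
    apply hne
    rw [← sub_eq_zero]
    exact funext hcon2
  obtain ⟨φ, hφ, h1⟩ := h _ hi
  apply h1
  have h2 : ∀ j, ((ρ σ⁻¹ - 1) i ᵥ* φ) j = (φ * (ρ σ⁻¹ - 1)) i j := by
    intro j
    have h3 : (ρ σ⁻¹ - 1) * φ = φ * (ρ σ⁻¹ - 1) := by
      rw [sub_mul, mul_sub, hφ σ⁻¹, one_mul, mul_one]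
    rw [← h3]
    rfl
  have h4 : ∑ j, ((ρ σ⁻¹ - 1) i ᵥ* φ) j • P j = 0 := by
    simp only [h2]
    rw [← act_mul]
    apply Finset.sum_eq_zero
    intro j _
    have h5 : ∑ k, (ρ σ⁻¹ - 1) j k • P k = 0 := by
      simp only [Matrix.sub_apply, sub_smul, Finset.sum_sub_distrib]
      rw [← fixed_iff ρ hP, act_one, hcon j, sub_self]
    rw [h5, smul_zero]
  rw [h4]
  exact IsOfFinAddOrder.zero

end

end Pool.Agent.TH910.LS
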