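import Mathlib
import Pool.Agent.TH910.LS.Fin

/-!
# Duplication on the twists of a curve
-/

set_option autoImplicit false
set_option linter.unusedSectionVars false

open Filter Topology Matrix Height WeierstrassCurve

namespace Pool.Agent.TH910.LS

open Pool.Agent.TH942

variable {K : Type} [Field K] [NumberField K]

/-- a binary cubic form -/
noncomputable def cub (c : Fin 4 → K) : MvPolynomial (Fin 2) K :=
  ∑ i : Fin 4, MvPolynomial.C (c i) * (MvPolynomial.X 0 ^ (i : ℕ) * MvPolynomial.X 1 ^ (3 - (i : ℕ)))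

lemma cub_hom (c : Fin 4 → K) : (cub c).IsHomogeneous 3 := by
  unfold cub
  apply MvPolynomial.IsHomogeneous.sum
  intro i _
  apply MvPolynomial.IsHomogeneous.C_mul
  have h := ((MvPolynomial.isHomogeneous_X K (0 : Fin 2)).pow (i : ℕ)).mul
    ((MvPolynomial.isHomogeneous_X K (1 : Fin 2)).pow (3 - (i : ℕ)))
  have h2 : 1 * (i : ℕ) + 1 * (3 - (i : ℕ)) = 3 := by omega
  rwa [h2] at h

lemma cub_eval (c : Fin 4 → K) (u v : K) :
    (cub c).eval ![u, v] = c 0 * v ^ 3 + c 1 * u * v ^ 2 + c 2 * u ^ 2 * v + c 3 * u ^ 3 := by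
  unfold cub
  simp only [Fin.sum_univ_four, map_add, map_mul, map_pow, MvPolynomial.eval_C,
    MvPolynomial.eval_X, Matrix.cons_val_zero, Matrix.cons_val_one]
  simp
  ring

/-- lower bound for the height of a morphism of degree four -/
lemma low_deg4 (c00 c01 c10 c11 : Fin 4 → K) : ∃ C : ℝ, 0 ≤ C ∧ ∀ u v y0 y1 : K,
    (cub c00).eval ![u, v] * y0 + (cub c01).eval ![u, v] * y1 = u ^ 7 →
    (cub c10).eval ![u, v] * y0 + (cub c11).eval ![u, v] * y1 = v ^ 7 →
    4 * logHeight ![u, v] - C ≤ logHeight ![y0, y1] := by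
  obtain ⟨C, hC⟩ := logHeight_eval_ge' (K := K) (M := 3) (N := 4) (ι := Fin 2) (ι' := Fin 2)
    (q := fun a => if a.1 = 0 then (if a.2 = 0 then cub c00 else cub c01)
      else (if a.2 = 0 then cub c10 else cub c11)) (by
        intro a
        split_ifs <;> exact cub_hom _)
  refine ⟨|C|, abs_nonneg _, fun u v y0 y1 h1 h2 => ?_⟩
  have h3 := hC (fun j => MvPolynomial.C (![y0, y1] j)) (x := ![u, v]) (by
    intro k
    fin_cases k
    · simpa [Fin.sum_univ_two] using h1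
    · simpa [Fin.sum_univ_two] using h2)
  simp only [MvPolynomial.eval_C] at h3
  have h4 : (fun j => ![y0, y1] j) = ![y0, y1] := rfl
  rw [h4] at h3
  have h5 := neg_abs_le C
  push_cast at h3
  linarith

section quartic

variable [DecidableEq K]

/-- duplication on `y² = x³ + D x`, in terms of `x² / D`. -/
lemma dup_four {D : K} (hD : D ≠ 0) (P : SPt D 0) : ∃ c : K, c ≠ 0 ∧
    c * (P + P).xRep 0 ^ 2 = (P.xRep 0 ^ 2 - D * P.xRep 1 ^ 2) ^ 4 ∧
    c * (D * (P + P).xRep 1 ^ 2) = 16 * P.xRep 0 ^ 2 * (D * P.xRep 1 ^ 2) *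
      (P.xRep 0 ^ 2 + D * P.xRep 1 ^ 2) ^ 2 := by
  match P with
  | 0 =>
    refine ⟨1, one_ne_zero, ?_, ?_⟩
    · rw [add_zero]; simp
    · rw [add_zero]; simp
  | .some x y h =>
    have e := sw_eqn.1 h.1
    by_cases hy : y = 0
    · subst hy
      have h0 : (Affine.Point.some x 0 h : SPt D 0) + Affine.Point.some x 0 h = 0 := by
        apply Affine.Point.add_self_of_Y_eq
        simp [Affine.negY, sw]
      have e' : x * (x ^ 2 + D) = 0 := by linear_combination -e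
      refine ⟨(x ^ 2 - D) ^ 4, ?_, ?_, ?_⟩
      · apply pow_ne_zero
        intro h1
        rcases mul_eq_zero.1 e' with h2 | h2
        · rw [h2] at h1
          apply hD
          linear_combination -h1
        · apply hD
          have : (2 : K) * D = 0 := by linear_combination h2 - h1
          rcases mul_eq_zero.1 this with h3 | h3
          · norm_num at h3
          · exact h3
      · rw [h0]; simp
      · rw [h0]
        simp
        rcases mul_eq_zero.1 e' with h2 | h2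
        · exact Or.inl (Or.inl h2)
        · exact Or.inr h2
    · have hd := sxRep_double h hy
      have hy2 : y ^ 2 ≠ 0 := pow_ne_zero _ hy
      refine ⟨16 * y ^ 4, mul_ne_zero (by norm_num) (pow_ne_zero _ hy), ?_, ?_⟩
      · rw [hd]
        simp
        field_simp
        ring
      · rw [hd]
        simp
        have e2 : y ^ 4 = (x ^ 3 + D * x) ^ 2 := by
          rw [show y ^ 4 = (y ^ 2) ^ 2 by ring, e]
          ring
        rw [e2]
        ring

lemma dup4 : ∃ C : ℝ, 0 ≤ C ∧ ∀ (D : K), D ≠ 0 → ∀ P : SPt D 0,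
    4 * nht 2 D P - C ≤ nht 2 D (P + P) := by
  obtain ⟨C, hC0, hC⟩ := low_deg4 (K := K) ![0, 13 / 16, 7 / 4, 1] ![-13 / 256, 25 / 128, -69 / 256, 9 / 64]
    ![1, 7 / 4, 13 / 16, 0] ![9 / 64, -69 / 256, 25 / 128, -13 / 256]
  refine ⟨C, hC0, fun D hD P => ?_⟩
  obtain ⟨c, hc, h1, h2⟩ := dup_four hD P
  have h3 := hC (P.xRep 0 ^ 2) (D * P.xRep 1 ^ 2)
    ((P.xRep 0 ^ 2 - D * P.xRep 1 ^ 2) ^ 4) (16 * P.xRep 0 ^ 2 * (D * P.xRep 1 ^ 2) *
      (P.xRep 0 ^ 2 + D * P.xRep 1 ^ 2) ^ 2)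
    (by
      rw [cub_eval, cub_eval]
      simp
      ring)
    (by
      rw [cub_eval, cub_eval]
      simp
      ring)
  rw [← h1, ← h2] at h3
  have h4 : ![c * (P + P).xRep 0 ^ 2, c * (D * (P + P).xRep 1 ^ 2)] =
      c • ![(P + P).xRep 0 ^ 2, D * (P + P).xRep 1 ^ 2] := by
    ext i
    fin_cases i <;> simp
  rw [h4, logHeight_smul_eq_logHeight _ hc] at h3
  unfold nht
  push_cast
  linarith

end quartic

section sextic

variable [DecidableEq K]

/-- duplication on `y² = x³ + D`, in terms of `x³ / D`. -/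
lemma dup_six {D : K} (hD : D ≠ 0) (P : SPt 0 D) : ∃ c : K, c ≠ 0 ∧
    c * (P + P).xRep 0 ^ 3 = P.xRep 0 ^ 3 * (P.xRep 0 ^ 3 - 8 * (D * P.xRep 1 ^ 3)) ^ 3 ∧
    c * (D * (P + P).xRep 1 ^ 3) = 64 * (D * P.xRep 1 ^ 3) *
      (P.xRep 0 ^ 3 + D * P.xRep 1 ^ 3) ^ 3 := by
  match P with
  | 0 =>
    refine ⟨1, one_ne_zero, ?_, ?_⟩
    · rw [add_zero]; simp
    · rw [add_zero]; simp
  | .some x y h =>
    have e := sw_eqn.1 h.1
    by_cases hy : y = 0
    · subst hy
      have h0 : (Affine.Point.some x 0 h : SPt 0 D) + Affine.Point.some x 0 h = 0 := by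
        apply Affine.Point.add_self_of_Y_eq
        simp [Affine.negY, sw]
      have e' : x ^ 3 + D = 0 := by linear_combination -e
      have e3 : x ^ 3 = -D := by linear_combination e'
      refine ⟨x ^ 3 * (x ^ 3 - 8 * D) ^ 3, ?_, ?_, ?_⟩
      · rw [e3]
        apply mul_ne_zero (neg_ne_zero.2 hD)
        apply pow_ne_zero
        have : -D - 8 * D = (-9) * D := by ring
        rw [this]
        exact mul_ne_zero (by norm_num) hD
      · rw [h0]; simp
      · rw [h0]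
        simp
        exact Or.inr e'
    · have hd := sxRep_double h hy
      have hy2 : y ^ 2 ≠ 0 := pow_ne_zero _ hy
      refine ⟨64 * y ^ 6, mul_ne_zero (by norm_num) (pow_ne_zero _ hy), ?_, ?_⟩
      · rw [hd]
        simp
        field_simp
        ring
      · rw [hd]
        simp
        have e2 : y ^ 6 = (x ^ 3 + D) ^ 3 := by
          rw [show y ^ 6 = (y ^ 2) ^ 3 by ring, e]
          ring
        rw [e2]
        ring

lemma dup6 : ∃ C : ℝ, 0 ≤ C ∧ ∀ (D : K), D ≠ 0 → ∀ P : SPt 0 D,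
    4 * nht 3 D P - C ≤ nht 3 D (P + P) := by
  obtain ⟨C, hC0, hC⟩ := low_deg4 (K := K)
    ![19456 / 19683, 58496 / 19683, 58696 / 19683, 1]
    ![0, 155648 / 19683, -57344 / 19683, 6464 / 19683]
    ![101 / 19683, 112 / 19683, 38 / 19683, 0]
    ![1 / 64, -7337 / 1259712, 457 / 629856, -19 / 629856]
  refine ⟨C, hC0, fun D hD P => ?_⟩
  obtain ⟨c, hc, h1, h2⟩ := dup_six hD P
  have h3 := hC (P.xRep 0 ^ 3) (D * P.xRep 1 ^ 3)
    (P.xRep 0 ^ 3 * (P.xRep 0 ^ 3 - 8 * (D * P.xRep 1 ^ 3)) ^ 3) (64 * (D * P.xRep 1 ^ 3) *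
      (P.xRep 0 ^ 3 + D * P.xRep 1 ^ 3) ^ 3)
    (by
      rw [cub_eval, cub_eval]
      simp
      ring)
    (by
      rw [cub_eval, cub_eval]
      simp
      ring)
  rw [← h1, ← h2] at h3
  have h4 : ![c * (P + P).xRep 0 ^ 3, c * (D * (P + P).xRep 1 ^ 3)] =
      c • ![(P + P).xRep 0 ^ 3, D * (P + P).xRep 1 ^ 3] := by
    ext i
    fin_cases i <;> simp
  rw [h4, logHeight_smul_eq_logHeight _ hc] at h3
  unfold nht
  push_cast
  linarith

end sextic

section quadratic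

variable [DecidableEq K]

lemma disc_twist {a b : K} (hab : 4 * a ^ 3 + 27 * b ^ 2 ≠ 0) {D : K} (hD : D ≠ 0) :
    4 * (a * D ^ 2) ^ 3 + 27 * (b * D ^ 3) ^ 2 ≠ 0 := by
  have : 4 * (a * D ^ 2) ^ 3 + 27 * (b * D ^ 3) ^ 2 = D ^ 6 * (4 * a ^ 3 + 27 * b ^ 2) := by ring
  rw [this]
  exact mul_ne_zero (pow_ne_zero _ hD) hab

lemma dup2 {a b : K} (hab : 4 * a ^ 3 + 27 * b ^ 2 ≠ 0) :
    ∃ C : ℝ, 0 ≤ C ∧ ∀ (D : K), D ≠ 0 → ∀ P : SPt (a * D ^ 2) (b * D ^ 3),
      4 * nht 1 D P - C ≤ nht 1 D (P + P) := by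
  have := sw_ell hab
  obtain ⟨C1, hC1⟩ := abs_logHeight_sym2_sub_le K
  obtain ⟨C2, hC2⟩ := WeierstrassCurve.abs_logHeight_addSubMap_sub_two_mul_logHeight_le (sw a b)
  refine ⟨|3 * C1 + C2|, abs_nonneg _, fun D hD P => ?_⟩
  obtain ⟨c, hc, h1⟩ := saddSub_sym2x (disc_twist hab hD) P P
  set x0 := P.xRep 0 with hx0
  set x1 := P.xRep 1 with hx1
  set z0 := (P + P).xRep 0 with hz0
  set z1 := (P + P).xRep 1 with hz1
  have hne : ∀ Q : SPt (a * D ^ 2) (b * D ^ 3), ![Q.xRep 0, D * Q.xRep 1] ≠ 0 := by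
    intro Q h
    apply Q.xRep_ne_zero
    ext i
    fin_cases i
    · simpa using congrFun h 0
    · have := congrFun h 1
      simpa [hD] using this
  have hs : P.sym2x P = ![x0 * x0, x0 * x1 + x1 * x0, x1 * x1] := rfl
  have hs2 : (P + P).sym2x (P - P) = ![z0, z1, 0] := by
    rw [sub_self]
    have : (P + P).sym2x 0 = ![z0 * 1, z0 * 0 + z1 * 1, z1 * 0] := rfl
    rw [this]
    simp
  rw [hs, hs2, seval_addSub] at h1
  have e0 := congrFun h1 0
  have e1 := congrFun h1 1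
  have e2 := congrFun h1 2
  simp at e0 e1 e2
  -- the map on the untwisted curve
  have h2 := hC2 ![x0 * x0, x0 * (D * x1) + (D * x1) * x0, (D * x1) * (D * x1)]
  rw [seval_addSub] at h2
  have h3 : ![(x0 * x0) ^ 2 - 2 * a * (x0 * x0) * (D * x1 * (D * x1)) -
      4 * b * (x0 * (D * x1) + D * x1 * x0) * (D * x1 * (D * x1)) +
      a ^ 2 * (D * x1 * (D * x1)) ^ 2,
      2 * (x0 * (D * x1) + D * x1 * x0) * (x0 * x0) + 2 * a * (x0 * (D * x1) + D * x1 * x0) *
      (D * x1 * (D * x1)) + 4 * b * (D * x1 * (D * x1)) ^ 2,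
      (x0 * (D * x1) + D * x1 * x0) ^ 2 - 4 * (x0 * x0) * (D * x1 * (D * x1))] =
      c • ![z0, D * z1, 0] := by
    ext i
    fin_cases i
    · simp
      linear_combination e0
    · simp
      linear_combination D * e1
    · simp
      ring
  rw [h3, logHeight_smul_eq_logHeight _ hc] at h2
  have h4 := hC1 (hne P) (hne P)
  have h5 : ![(1 : K), 0] ≠ 0 := by
    intro h
    have := congrFun h 0
    simp at this
  have h6 := hC1 (hne (P + P)) h5
  have h7 : logHeight ![(1 : K), 0] = 0 := by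
    have : logHeight₁ (0 : K) = 0 := logHeight₁_zero
    rw [logHeight₁_eq_logHeight, logHeight_swap] at this
    exact this
  rw [h7] at h6
  simp only [mul_one, mul_zero, zero_add] at h6
  rw [← hx0, ← hx1] at h4
  rw [← hz0, ← hz1] at h6
  unfold nht
  simp only [pow_one, Nat.cast_one, div_one]
  rw [← hx0, ← hx1, ← hz0, ← hz1]
  have h8 := le_abs_self (3 * C1 + C2)
  rw [abs_le] at h2 h4 h6
  linarith [h2.1, h2.2, h4.1, h4.2, h6.1, h6.2]

end quadratic

end Pool.Agent.TH910.LS
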