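import Mathlib
import Pool.Agent.TH910.LS.Dup

/-!
# The primes at which a twist is ramified, and the height of a point
-/

set_option autoImplicit false
set_option linter.unusedSectionVars false

open Filter Topology Matrix Height WeierstrassCurve NumberField IsDedekindDomain

namespace Pool.Agent.TH910.LS

open Pool.Agent.TH942

variable {K : Type} [Field K] [NumberField K]

lemma supp12 (S : Finset (HeightOneSpectrum (𝓞 K))) {δ ζ t : K} (hζ : ζ ≠ 0)
    (h : δ * ζ = t ^ 12)
    (hS : ∀ v ∈ S, ∀ u : K, v.valuation K δ ≠ v.valuation K u ^ 12) :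
    ∑ v ∈ S, Real.log (Ideal.absNorm v.asIdeal) ≤ 2 * logHeight₁ ζ :=
  support_le S hζ (fun v hv h1 => hS v hv t (by rw [← map_pow, ← h, map_mul, h1, mul_one]))

variable [DecidableEq K]

lemma y_ne_zero {a b x y : K} (h : (sw a b).toAffine.Nonsingular x y)
    (hP : ¬ IsOfFinAddOrder (Affine.Point.some x y h : SPt a b)) : y ≠ 0 := by
  rintro rfl
  apply hP
  rw [isOfFinAddOrder_iff_nsmul_eq_zero]
  refine ⟨2, by norm_num, ?_⟩
  rw [two_nsmul]
  apply Affine.Point.add_self_of_Y_eq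
  simp [Affine.negY, sw]

lemma x_ne_zero {b x y : K} (h : (sw 0 b).toAffine.Nonsingular x y)
    (hP : ¬ IsOfFinAddOrder (Affine.Point.some x y h : SPt 0 b)) : x ≠ 0 := by
  intro hx
  have hy := y_ne_zero h hP
  have hd := sxRep_double h hy
  have h1 : (Affine.Point.some x y h + Affine.Point.some x y h : SPt 0 b).xRep =
      (Affine.Point.some x y h : SPt 0 b).xRep := by
    rw [hd, Affine.Point.xRep_some, hx]
    simp
  apply hP
  rcases Affine.Point.eq_or_eq_neg_of_xRep_eq_xRep h1 with h2 | h2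
  · have h3 : (Affine.Point.some x y h : SPt 0 b) = 0 := by
      have := add_left_cancel (a := (Affine.Point.some x y h : SPt 0 b))
        (b := Affine.Point.some x y h) (c := 0) (by rw [add_zero]; exact h2)
      exact this
    rw [h3]
    exact IsOfFinAddOrder.zero
  · rw [isOfFinAddOrder_iff_nsmul_eq_zero]
    refine ⟨3, by norm_num, ?_⟩
    have h4 : (3 : ℕ) • (Affine.Point.some x y h : SPt 0 b) =
        (Affine.Point.some x y h + Affine.Point.some x y h : SPt 0 b) +
          Affine.Point.some x y h := by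
      rw [show (3 : ℕ) = 2 + 1 from rfl, add_nsmul, two_nsmul, one_nsmul]
    rw [h4, h2]
    exact neg_add_cancel _

lemma zeta2 {a b : K} (hab : 4 * a ^ 3 + 27 * b ^ 2 ≠ 0) :
    ∃ C : ℝ, 0 < C ∧ ∀ D : K, D ≠ 0 → ∀ P : SPt (a * D ^ 2) (b * D ^ 3), ¬ IsOfFinAddOrder P →
      ∃ ζ t : K, ζ ≠ 0 ∧ (4 * (a * D ^ 2) ^ 3 + 27 * (b * D ^ 3) ^ 2) * ζ = t ^ 12 ∧
        logHeight₁ ζ ≤ C * (1 + nht 1 D P) := by
  set c : ℝ := totalWeight K * Real.log 2 with hc
  have hc0 : 0 ≤ c := mul_nonneg (Nat.cast_nonneg _) (Real.log_nonneg (by norm_num))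
  set δ : K := 4 * a ^ 3 + 27 * b ^ 2 with hδ
  have hA := zero_le_logHeight₁ a
  have hB := zero_le_logHeight₁ b
  have hDl := zero_le_logHeight₁ δ
  refine ⟨24 + 12 * c + 6 * logHeight₁ a + 6 * logHeight₁ b + logHeight₁ δ, by positivity,
    fun D hD P hP => ?_⟩
  match P, hP with
  | 0, hP => exact absurd IsOfFinAddOrder.zero hP
  | .some x y h, hP =>
    have hy := y_ne_zero h hP
    have e := sw_eqn.1 h.1
    rw [nht_some]
    set r : K := x ^ 1 / D with hr
    have hrx : x = r * D := by rw [hr]; field_simp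
    set f : K := r ^ 3 + a * r + b with hf
    have h1 : D * f = (y / D) ^ 2 := by
      rw [div_pow, e, hf, hrx]
      field_simp
    have hf0 : f ≠ 0 := by
      intro h0
      rw [h0, mul_zero] at h1
      exact pow_ne_zero 2 (div_ne_zero hy hD) h1.symm
    refine ⟨f ^ 6 / δ, y / D, div_ne_zero (pow_ne_zero _ hf0) hab, ?_, ?_⟩
    · have h2 : (4 * (a * D ^ 2) ^ 3 + 27 * (b * D ^ 3) ^ 2) * (f ^ 6 / δ) = (D * f) ^ 6 := by
        have h3 : 4 * (a * D ^ 2) ^ 3 + 27 * (b * D ^ 3) ^ 2 = D ^ 6 * δ := by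
          rw [hδ]; ring
        rw [h3]
        field_simp
      rw [h2, h1]
      ring
    · have h2 : logHeight₁ (f ^ 6 / δ) ≤ 6 * logHeight₁ f + logHeight₁ δ := by
        have h3 := logHeight₁_mul_le (f ^ 6) δ⁻¹
        rw [logHeight₁_pow, logHeight₁_inv, ← div_eq_mul_inv] at h3
        push_cast at h3
        exact h3
      have h3 := logHeight₁_add_le (r ^ 3 + a * r) b
      have h4 := logHeight₁_add_le (r ^ 3) (a * r)
      have h5 := logHeight₁_mul_le a r
      rw [logHeight₁_pow] at h4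
      rw [← hf] at h3
      push_cast at h4
      have hr0 := zero_le_logHeight₁ r
      simp only [Nat.cast_one, div_one]
      have h6 : logHeight₁ (f ^ 6 / δ) ≤ 24 * logHeight₁ r +
          (12 * c + 6 * logHeight₁ a + 6 * logHeight₁ b + logHeight₁ δ) := by linarith
      have h7 : 0 ≤ (12 * c + 6 * logHeight₁ a + 6 * logHeight₁ b + logHeight₁ δ) *
        logHeight₁ r := by positivity
      nlinarith

lemma zeta4 : ∃ C : ℝ, 0 < C ∧ ∀ D : K, D ≠ 0 → ∀ P : SPt D 0, ¬ IsOfFinAddOrder P →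
      ∃ ζ t : K, ζ ≠ 0 ∧ (4 * D ^ 3 + 27 * (0 : K) ^ 2) * ζ = t ^ 12 ∧
        logHeight₁ ζ ≤ C * (1 + nht 2 D P) := by
  set c : ℝ := totalWeight K * Real.log 2 with hc
  have hc0 : 0 ≤ c := mul_nonneg (Nat.cast_nonneg _) (Real.log_nonneg (by norm_num))
  have h4l := zero_le_logHeight₁ (4 : K)
  refine ⟨54 + 18 * c + logHeight₁ (4 : K), by positivity, fun D hD P hP => ?_⟩
  match P, hP with
  | 0, hP => exact absurd IsOfFinAddOrder.zero hP
  | .some x y h, hP =>
    have hy := y_ne_zero h hP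
    have e := sw_eqn.1 h.1
    rw [nht_some]
    set r : K := x ^ 2 / D with hr
    have hrx : x ^ 2 = r * D := by rw [hr]; field_simp
    set z : K := r * (r + 1) ^ 2 with hz
    have h1 : D ^ 3 * z = y ^ 4 := by
      have h2 : y ^ 4 = x ^ 2 * (x ^ 2 + D) ^ 2 := by
        rw [show y ^ 4 = (y ^ 2) ^ 2 by ring, e]
        ring
      rw [h2, hrx, hz]
      ring
    have hz0 : z ≠ 0 := by
      intro h0
      rw [h0, mul_zero] at h1
      exact pow_ne_zero 4 hy h1.symm
    have hzv : z = y ^ 4 / D ^ 3 := by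
      rw [← h1]
      field_simp
    refine ⟨z ^ 9 / 4, y ^ 3 / D ^ 2, div_ne_zero (pow_ne_zero _ hz0) (by norm_num), ?_, ?_⟩
    · rw [hzv]
      field_simp
      ring
    · have h2 : logHeight₁ (z ^ 9 / 4) ≤ 9 * logHeight₁ z + logHeight₁ (4 : K) := by
        have h3 := logHeight₁_mul_le (z ^ 9) (4 : K)⁻¹
        rw [logHeight₁_pow, logHeight₁_inv, ← div_eq_mul_inv] at h3
        push_cast at h3
        exact h3
      have h3 := logHeight₁_mul_le r ((r + 1) ^ 2)
      rw [logHeight₁_pow, ← hz] at h3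
      have h4 := logHeight₁_add_le r 1
      rw [logHeight₁_one] at h4
      push_cast at h3 ⊢
      have hr0 := zero_le_logHeight₁ r
      have h6 : logHeight₁ (z ^ 9 / 4) ≤ 54 * (logHeight₁ r / 2) +
          (18 * c + logHeight₁ (4 : K)) := by linarith
      have h7 : 0 ≤ (18 * c + logHeight₁ (4 : K)) * (logHeight₁ r / 2) := by positivity
      nlinarith

lemma zeta6 : ∃ C : ℝ, 0 < C ∧ ∀ D : K, D ≠ 0 → ∀ P : SPt 0 D, ¬ IsOfFinAddOrder P →
      ∃ ζ t : K, ζ ≠ 0 ∧ (4 * (0 : K) ^ 3 + 27 * D ^ 2) * ζ = t ^ 12 ∧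
        logHeight₁ ζ ≤ C * (1 + nht 3 D P) := by
  set c : ℝ := totalWeight K * Real.log 2 with hc
  have hc0 : 0 ≤ c := mul_nonneg (Nat.cast_nonneg _) (Real.log_nonneg (by norm_num))
  have h4l := zero_le_logHeight₁ (27 : K)
  refine ⟨30 + 6 * c + logHeight₁ (27 : K), by positivity, fun D hD P hP => ?_⟩
  match P, hP with
  | 0, hP => exact absurd IsOfFinAddOrder.zero hP
  | .some x y h, hP =>
    have hy := y_ne_zero h hP
    have hx := x_ne_zero h hP
    have e := sw_eqn.1 h.1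
    rw [nht_some]
    set r : K := x ^ 3 / D with hr
    have hrx : x ^ 3 = r * D := by rw [hr]; field_simp
    have hr0 : r ≠ 0 := div_ne_zero (pow_ne_zero _ hx) hD
    have hr1 : r + 1 = y ^ 2 / D := by
      rw [e, hr]
      field_simp
      ring
    set w : K := (r + 1) ^ 3 / r ^ 2 with hw
    have hw0 : w ≠ 0 := by
      rw [hw, hr1]
      exact div_ne_zero (pow_ne_zero _ (div_ne_zero (pow_ne_zero _ hy) hD)) (pow_ne_zero _ hr0)
    have hwv : w = y ^ 6 / (D * x ^ 6) := by
      rw [hw, hr1, hr]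
      field_simp
    refine ⟨w ^ 2 / 27, y / x, div_ne_zero (pow_ne_zero _ hw0) (by norm_num), ?_, ?_⟩
    · rw [hwv]
      field_simp
      ring
    · have h2 : logHeight₁ (w ^ 2 / 27) ≤ 2 * logHeight₁ w + logHeight₁ (27 : K) := by
        have h3 := logHeight₁_mul_le (w ^ 2) (27 : K)⁻¹
        rw [logHeight₁_pow, logHeight₁_inv, ← div_eq_mul_inv] at h3
        push_cast at h3
        exact h3
      have h3 := logHeight₁_mul_le ((r + 1) ^ 3) (r ^ 2)⁻¹
      rw [logHeight₁_pow, logHeight₁_inv, logHeight₁_pow, ← div_eq_mul_inv, ← hw] at h3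
      have h4 := logHeight₁_add_le r 1
      rw [logHeight₁_one] at h4
      push_cast at h3 ⊢
      have hr0 := zero_le_logHeight₁ r
      have h6 : logHeight₁ (w ^ 2 / 27) ≤ 30 * (logHeight₁ r / 3) +
          (6 * c + logHeight₁ (27 : K)) := by linarith
      have h7 : 0 ≤ (6 * c + logHeight₁ (27 : K)) * (logHeight₁ r / 3) := by positivity
      nlinarith

end Pool.Agent.TH910.LS
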