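import Mathlib
import Pool.Agent.TH910.LS.Supp

/-!
# Uniform lower bounds for all curves with `j`-invariant of bounded height
-/

set_option autoImplicit false
set_option linter.unusedSectionVars false

open Filter Topology Matrix Height WeierstrassCurve NumberField IsDedekindDomain

namespace Pool.Agent.TH910.LS

open Pool.Agent.TH942

variable {K : Type} [Field K] [NumberField K] [DecidableEq K]

/-- The `j`-invariant of `y² = x³ + a x + b`. -/
noncomputable def jinv (a b : K) : K := 6912 * a ^ 3 / (4 * a ^ 3 + 27 * b ^ 2)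

lemma jinv_eq (a b : K) (h : (sw a b).IsElliptic) : (sw a b).j = jinv a b := by
  have h1 : ((sw a b).Δ'⁻¹ : Kˣ) = ((-16 * (4 * a ^ 3 + 27 * b ^ 2))⁻¹ : K) := by
    rw [Units.val_inv_eq_inv_val, WeierstrassCurve.coe_Δ', sw_Δ]
  have h2 : (sw a b).c₄ = -48 * a := by
    simp only [WeierstrassCurve.c₄, WeierstrassCurve.b₂, WeierstrassCurve.b₄, sw]
    ring
  have h3 : (4 * a ^ 3 + 27 * b ^ 2) ≠ 0 := by
    intro h0
    have := h.isUnit
    rw [sw_Δ, h0, mul_zero] at this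
    simp at this
  rw [WeierstrassCurve.j, h1, h2, jinv]
  field_simp
  ring

/-- The set of primes `v` is a set of primes at which the valuation of the discriminant
`4 a³ + 27 b²` is not divisible by twelve. -/
def Ram (a b : K) (S : Finset (HeightOneSpectrum (𝓞 K))) : Prop :=
  ∀ v ∈ S, ∀ u : K, v.valuation K (4 * a ^ 3 + 27 * b ^ 2) ≠ v.valuation K u ^ 12

/-- A uniform bound on the torsion and a lower bound for the height of the other points. -/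
def GoodAt (c : ℝ) (n : ℕ) (a b : K) : Prop :=
  (∀ P : SPt a b, IsOfFinAddOrder P → addOrderOf P ≤ n) ∧
  ∀ S : Finset (HeightOneSpectrum (𝓞 K)), Ram a b S →
    ∀ P : SPt a b, ¬ IsOfFinAddOrder P →
      c * (1 + ∑ v ∈ S, Real.log (Ideal.absNorm v.asIdeal)) ≤ chat P

lemma sum_log_nonneg (S : Finset (HeightOneSpectrum (𝓞 K))) :
    0 ≤ ∑ v ∈ S, Real.log (Ideal.absNorm v.asIdeal) :=
  Finset.sum_nonneg fun _ _ => Real.log_natCast_nonneg _

lemma GoodAt.mono {c c' : ℝ} {n n' : ℕ} {a b : K} (h : GoodAt c n a b) (hc : c' ≤ c)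
    (hn : n ≤ n') : GoodAt c' n' a b := by
  refine ⟨fun P hP => (h.1 P hP).trans hn, fun S hS P hP => le_trans ?_ (h.2 S hS P hP)⟩
  have := sum_log_nonneg S
  exact mul_le_mul_of_nonneg_right hc (by linarith)

lemma good2 {a b : K} (hab : 4 * a ^ 3 + 27 * b ^ 2 ≠ 0) : ∃ c : ℝ, 0 < c ∧ ∃ n : ℕ,
    ∀ D : K, D ≠ 0 → GoodAt c n (a * D ^ 2) (b * D ^ 3) := by
  obtain ⟨C, hC, hdup⟩ := dup2 hab
  obtain ⟨C', hC', hz⟩ := zeta2 hab
  have h2 : 0 < 2 * C' := by linarith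
  set n : ℕ := 2 * (1 + {r : K | logHeight₁ r ≤ ((1 : ℕ) : ℝ) * (1 + C / 3)}.ncard * 1) with hn
  refine ⟨cst n C (2 * C'), cst_pos hC h2, n, fun D hD => ?_⟩
  obtain ⟨h3, h4⟩ := curve_bound (disc_twist hab hD) one_ne_zero hD hC (hdup D hD)
  refine ⟨h3, fun S hS P hP => h4 P hP _ h2 _ ?_⟩
  obtain ⟨ζ, t, hζ, h5, h6⟩ := hz D hD P hP
  have h7 := supp12 S hζ h5 hS
  linarith

lemma good4 : ∃ c : ℝ, 0 < c ∧ ∃ n : ℕ, ∀ D : K, D ≠ 0 → GoodAt c n D 0 := by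
  obtain ⟨C, hC, hdup⟩ := dup4 (K := K)
  obtain ⟨C', hC', hz⟩ := zeta4 (K := K)
  have h2 : 0 < 2 * C' := by linarith
  set n : ℕ := 2 * (1 + {r : K | logHeight₁ r ≤ ((2 : ℕ) : ℝ) * (1 + C / 3)}.ncard * 2) with hn
  refine ⟨cst n C (2 * C'), cst_pos hC h2, n, fun D hD => ?_⟩
  have hab : 4 * D ^ 3 + 27 * (0 : K) ^ 2 ≠ 0 := by
    have : 4 * D ^ 3 + 27 * (0 : K) ^ 2 = 4 * D ^ 3 := by ring
    rw [this]
    exact mul_ne_zero (by norm_num) (pow_ne_zero _ hD)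
  obtain ⟨h3, h4⟩ := curve_bound hab two_ne_zero hD hC (hdup D hD)
  refine ⟨h3, fun S hS P hP => h4 P hP _ h2 _ ?_⟩
  obtain ⟨ζ, t, hζ, h5, h6⟩ := hz D hD P hP
  have h7 := supp12 S hζ h5 hS
  linarith

lemma good6 : ∃ c : ℝ, 0 < c ∧ ∃ n : ℕ, ∀ D : K, D ≠ 0 → GoodAt c n 0 D := by
  obtain ⟨C, hC, hdup⟩ := dup6 (K := K)
  obtain ⟨C', hC', hz⟩ := zeta6 (K := K)
  have h2 : 0 < 2 * C' := by linarith
  set n : ℕ := 2 * (1 + {r : K | logHeight₁ r ≤ ((3 : ℕ) : ℝ) * (1 + C / 3)}.ncard * 3) with hn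
  refine ⟨cst n C (2 * C'), cst_pos hC h2, n, fun D hD => ?_⟩
  have hab : 4 * (0 : K) ^ 3 + 27 * D ^ 2 ≠ 0 := by
    have : 4 * (0 : K) ^ 3 + 27 * D ^ 2 = 27 * D ^ 2 := by ring
    rw [this]
    exact mul_ne_zero (by norm_num) (pow_ne_zero _ hD)
  obtain ⟨h3, h4⟩ := curve_bound hab three_ne_zero hD hC (hdup D hD)
  refine ⟨h3, fun S hS P hP => h4 P hP _ h2 _ ?_⟩
  obtain ⟨ζ, t, hζ, h5, h6⟩ := hz D hD P hP
  have h7 := supp12 S hζ h5 hS
  linarith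

/-- two curves with the same `j`-invariant, different from `0` and `1728`, are twists -/
lemma twist {a b a₀ b₀ : K} (h : 4 * a ^ 3 + 27 * b ^ 2 ≠ 0) (h₀ : 4 * a₀ ^ 3 + 27 * b₀ ^ 2 ≠ 0)
    (hj : jinv a b = jinv a₀ b₀) (ha : a ≠ 0) (hb : b ≠ 0) (ha₀ : a₀ ≠ 0) (hb₀ : b₀ ≠ 0) :
    ∃ D : K, D ≠ 0 ∧ a = a₀ * D ^ 2 ∧ b = b₀ * D ^ 3 := by
  have h1 : a ^ 3 * b₀ ^ 2 = a₀ ^ 3 * b ^ 2 := by
    unfold jinv at hj
    rw [div_eq_div_iff h h₀] at hj
    have h2 : (186624 : K) * (a ^ 3 * b₀ ^ 2 - a₀ ^ 3 * b ^ 2) = 0 := by linear_combination hj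
    rcases mul_eq_zero.1 h2 with h3 | h3
    · norm_num at h3
    · exact sub_eq_zero.1 h3
  refine ⟨b * a₀ / (b₀ * a), div_ne_zero (mul_ne_zero hb ha₀) (mul_ne_zero hb₀ ha), ?_, ?_⟩
  · field_simp
    linear_combination h1
  · field_simp
    linear_combination h1

lemma good_j (j₀ : K) : ∃ c : ℝ, 0 < c ∧ ∃ n : ℕ, ∀ a b : K, 4 * a ^ 3 + 27 * b ^ 2 ≠ 0 →
    jinv a b = j₀ → GoodAt c n a b := by
  by_cases h0 : j₀ = 0
  · obtain ⟨c, hc, n, h⟩ := good6 (K := K)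
    refine ⟨c, hc, n, fun a b hab hj => ?_⟩
    have ha : a = 0 := by
      rw [h0, jinv, div_eq_zero_iff] at hj
      rcases hj with h1 | h1
      · rcases mul_eq_zero.1 h1 with h2 | h2
        · norm_num at h2
        · exact pow_eq_zero_iff (three_ne_zero) |>.1 h2
      · exact absurd h1 hab
    subst ha
    apply h
    rintro rfl
    apply hab
    ring
  by_cases h1 : j₀ = 1728
  · obtain ⟨c, hc, n, h⟩ := good4 (K := K)
    refine ⟨c, hc, n, fun a b hab hj => ?_⟩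
    have hb : b = 0 := by
      rw [h1, jinv, div_eq_iff hab] at hj
      have h2 : (46656 : K) * b ^ 2 = 0 := by linear_combination -hj
      rcases mul_eq_zero.1 h2 with h3 | h3
      · norm_num at h3
      · exact pow_eq_zero_iff (two_ne_zero) |>.1 h3
    subst hb
    apply h
    rintro rfl
    apply hab
    ring
  have hne : ∀ a b : K, 4 * a ^ 3 + 27 * b ^ 2 ≠ 0 → jinv a b = j₀ → a ≠ 0 ∧ b ≠ 0 := by
    intro a b hab hj
    constructor
    · rintro rfl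
      apply h0
      rw [← hj, jinv]
      simp
    · rintro rfl
      apply h1
      have ha : a ≠ 0 := by
        rintro rfl
        apply hab
        ring
      rw [← hj, jinv]
      field_simp
      ring
  by_cases hex : ∃ a₀ b₀ : K, 4 * a₀ ^ 3 + 27 * b₀ ^ 2 ≠ 0 ∧ jinv a₀ b₀ = j₀
  · obtain ⟨a₀, b₀, hab₀, hj₀⟩ := hex
    obtain ⟨c, hc, n, h⟩ := good2 hab₀
    refine ⟨c, hc, n, fun a b hab hj => ?_⟩
    obtain ⟨ha₀, hb₀⟩ := hne _ _ hab₀ hj₀
    obtain ⟨ha, hb⟩ := hne _ _ hab hj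
    obtain ⟨D, hD, rfl, rfl⟩ := twist hab hab₀ (hj.trans hj₀.symm) ha hb ha₀ hb₀
    exact h D hD
  · exact ⟨1, one_pos, 0, fun a b hab hj => absurd ⟨a, b, hab, hj⟩ hex⟩

/-- **All curves with `j`-invariant of bounded height.** -/
theorem good_height (H : ℝ) : ∃ c : ℝ, 0 < c ∧ ∃ n : ℕ, ∀ a b : K,
    4 * a ^ 3 + 27 * b ^ 2 ≠ 0 → logHeight₁ (jinv a b) ≤ H → GoodAt c n a b := by
  have hfin : {j : K | logHeight₁ j ≤ H}.Finite :=
    NumberField.finite_setOfPred_logHeight₁_le (K := K) H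
  have key : ∀ F : Finset K, ∃ c : ℝ, 0 < c ∧ ∃ n : ℕ, ∀ a b : K,
      4 * a ^ 3 + 27 * b ^ 2 ≠ 0 → jinv a b ∈ F → GoodAt c n a b := by
    intro F
    induction F using Finset.induction_on with
    | empty => exact ⟨1, one_pos, 0, fun a b _ hj => by simp at hj⟩
    | insert j F hj ih =>
      obtain ⟨c1, hc1, n1, h1⟩ := ih
      obtain ⟨c2, hc2, n2, h2⟩ := good_j j
      refine ⟨min c1 c2, lt_min hc1 hc2, max n1 n2, fun a b hab hjm => ?_⟩
      rw [Finset.mem_insert] at hjm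
      rcases hjm with h3 | h3
      · exact (h2 a b hab h3).mono (min_le_right _ _) (le_max_right _ _)
      · exact (h1 a b hab h3).mono (min_le_left _ _) (le_max_left _ _)
  obtain ⟨c, hc, n, h⟩ := key hfin.toFinset
  refine ⟨c, hc, n, fun a b hab hj => h a b hab ?_⟩
  rw [Set.Finite.mem_toFinset]
  exact hj

end Pool.Agent.TH910.LS
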