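import Mathlib
import Pool.Agent.TH910.LS.Main

/-!
# The strong form for powers of elliptic curves
-/

set_option autoImplicit false
set_option linter.unusedSectionVars false

open Filter Topology Matrix Height WeierstrassCurve NumberField IsDedekindDomain

namespace Pool.Agent.TH910.LS

open Pool.Agent.TH942

variable {K : Type} [Field K] [NumberField K] [DecidableEq K]

/-- the order of a torsion point of a power -/
lemma pow_order {A : Type} [AddCommGroup A] {n : ℕ} (h : ∀ P : A, IsOfFinAddOrder P →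
    addOrderOf P ≤ n) {g : ℕ} {P : Fin g → A} (hP : IsOfFinAddOrder P) :
    addOrderOf P ≤ n.factorial := by
  apply addOrderOf_le_of_nsmul_eq_zero (Nat.factorial_pos n)
  ext i
  rw [Pi.smul_apply, Pi.zero_apply]
  have h1 : IsOfFinAddOrder (P i) := by
    rw [isOfFinAddOrder_iff_nsmul_eq_zero] at hP ⊢
    obtain ⟨m, hm, h2⟩ := hP
    exact ⟨m, hm, congrFun h2 i⟩
  have h2 : addOrderOf (P i) ∣ n.factorial := Nat.dvd_factorial h1.addOrderOf_pos (h _ h1)
  obtain ⟨m, hm⟩ := h2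
  rw [hm, mul_comm, mul_smul, addOrderOf_nsmul_eq_zero, smul_zero]

theorem strong (H : ℝ) : ∃ c₁ : ℝ, 0 < c₁ ∧ ∃ c₂ : ℕ, ∀ a b : K, 4 * a ^ 3 + 27 * b ^ 2 ≠ 0 →
    logHeight₁ (jinv a b) ≤ H →
    ∀ S : Finset (HeightOneSpectrum (𝓞 K)), Ram a b S →
    ∀ (g : ℕ) (M : Matrix (Fin g) (Fin g) ℤ), (M.map (Int.cast : ℤ → ℝ)).PosDef →
    ∀ P : Fin g → SPt a b,
      ((0 < addOrderOf P ∧ addOrderOf P ≤ c₂) ∨
        (¬ IsOfFinAddOrder P ∧
          c₁ * (1 + ∑ v ∈ S, Real.log (Ideal.absNorm v.asIdeal)) ≤ chatM M P)) ∧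
      (0 < g → (∀ c : Fin g → ℤ, c ≠ 0 → ¬ IsOfFinAddOrder (∑ i, c i • P i)) →
        (c₁ * (1 + ∑ v ∈ S, Real.log (Ideal.absNorm v.asIdeal))) ^ g * (M.det : ℝ) ≤
          chatM M P ^ g) := by
  obtain ⟨c, hc, n, h⟩ := good_height (K := K) H
  refine ⟨c, hc, n.factorial, fun a b hab hj S hS g M hM P => ⟨?_, fun hg hP => ?_⟩⟩
  · by_cases hP : IsOfFinAddOrder P
    · exact Or.inl ⟨hP.addOrderOf_pos, pow_order (h a b hab hj).1 hP⟩
    · right
      refine ⟨hP, ?_⟩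
      obtain ⟨Q, -, hQ, hQ2⟩ := reduction hab M hM P hP
      exact ((h a b hab hj).2 S hS Q hQ).trans hQ2
  · have : Nonempty (Fin g) := ⟨⟨0, hg⟩⟩
    obtain ⟨Q, -, hQ, hQ2⟩ := reduction_indep hab M hM P hP
    rw [Fintype.card_fin] at hQ2
    have h1 := (h a b hab hj).2 S hS Q hQ
    have h2 := sum_log_nonneg S
    have h3 : 0 ≤ c * (1 + ∑ v ∈ S, Real.log (Ideal.absNorm v.asIdeal)) := by positivity
    have h4 : (c * (1 + ∑ v ∈ S, Real.log (Ideal.absNorm v.asIdeal))) ^ g ≤ chat Q ^ g :=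
      pow_le_pow_left₀ h3 h1 g
    have h5 : (0 : ℝ) ≤ (M.det : ℝ) := by
      have h6 := hM.det_pos
      have h7 : (M.map (Int.cast : ℤ → ℝ)).det = (M.det : ℝ) :=
        ((Int.castRingHom ℝ).map_det M).symm
      rw [h7] at h6
      exact h6.le
    exact (mul_le_mul_of_nonneg_right h4 h5).trans hQ2

end Pool.Agent.TH910.LS
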