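import Mathlib
import Pool.Agent.TH910.LS.Final
import Pool.Agent.TH910.LS.Strong

/-!
# Simple forms of a power of an elliptic curve: the strong form of the lower bound
-/

set_option autoImplicit false
set_option linter.unusedSectionVars false

open WeierstrassCurve Height NumberField IsDedekindDomain Matrix

namespace Pool.Agent.TH910.LS

open Pool.Agent.TH942

/-- uniform bound for the torsion of a curve over the extensions of bounded degree -/
theorem uniform_tors {K : Type} [Field K] [NumberField K] (a b : 𝓞 K)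
    (hab : 4 * (a : K) ^ 3 + 27 * (b : K) ^ 2 ≠ 0) (n : ℕ) :
    ∃ m : ℕ, ∀ (L : Type) [Field L] [NumberField L] [Algebra K L]
      [DecidableEq L], Module.finrank ℚ L ≤ n →
      ∀ P : SPt (algebraMap K L a) (algebraMap K L b), IsOfFinAddOrder P → addOrderOf P ≤ m := by
  obtain ⟨C, hC, hdup⟩ := udup a b hab
  obtain ⟨m, hm⟩ := north n ((1 : ℕ) * (1 + C * n / 3))
  have hC2 : 0 ≤ C * n := by positivity
  refine ⟨2 * (1 + m * 1), fun L _ _ _ _ hL P hP => ?_⟩
  have hab' : 4 * (algebraMap K L a) ^ 3 + 27 * (algebraMap K L b) ^ 2 ≠ 0 := by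
    have h1 : algebraMap K L (4 * (a : K) ^ 3 + 27 * (b : K) ^ 2) ≠ 0 := by
      rw [ne_eq, map_eq_zero]
      exact hab
    rw [map_add, map_mul, map_mul, map_pow, map_pow, map_ofNat, map_ofNat] at h1
    exact h1
  have hW : (totalWeight L : ℝ) ≤ n := by
    rw [NumberField.totalWeight_eq_finrank]
    exact_mod_cast hL
  have hdup' : ∀ P : SPt (algebraMap K L a) (algebraMap K L b),
      4 * sht P - C * n ≤ sht ((2 : ℕ) • P) := by
    intro P
    rw [two_nsmul]
    have h1 := hdup L P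
    have h2 : C * totalWeight L ≤ C * n := mul_le_mul_of_nonneg_left hW hC
    linarith
  have hcard : {P : SPt (algebraMap K L a) (algebraMap K L b) |
      sht P ≤ 1 + C * n / 3}.ncard ≤ 2 * (1 + m * 1) := by
    have h1 := nht_card (a := algebraMap K L (a : K)) (b := algebraMap K L (b : K)) (m := 1)
      one_ne_zero (D := (1 : L)) one_ne_zero (1 + C * n / 3)
    simp only [nht_one] at h1
    refine h1.trans ?_
    have h2 := hm L hL
    omega
  exact (single (A := SPt (algebraMap K L a) (algebraMap K L b)) (N := fun P => sht P)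
    (q := fun P => chat P) hC2 (chat_spec hab').2.2.1 (chat_spec hab').1 hdup'
    (sfinite_ht _) hcard).1 P hP

section

variable {K : Type} [Field K] [NumberField K] {L : Type} [Field L] [NumberField L] [Algebra K L]
  [DecidableEq L] {a b : 𝓞 K} {g : ℕ}

/-- The representation is irreducible over the rational numbers: the translates of a non-zero row
vector generate a subgroup of finite index. -/
def Irred {G : Type} [Group G] [Fintype G] (ρ : G →* Matrix (Fin g) (Fin g) ℤ) : Prop :=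
  ∀ ψ : Fin g → ℤ, ψ ≠ 0 → ∀ i, ∃ m : ℤ, m ≠ 0 ∧ ∃ c : G → ℤ,
    m • (Pi.single i 1 : Fin g → ℤ) = ∑ s, c s • (ψ ᵥ* ρ s)

lemma gal_zsmul_sum (σ : L ≃ₐ[K] L) (c : Fin g → ℤ)
    (P : Fin g → SPt (algebraMap K L a) (algebraMap K L b)) :
    gal σ (∑ j, c j • P j) = ∑ j, c j • gal σ (P j) := by
  rw [← sig_eq, map_sum]
  apply Finset.sum_congr rfl
  intro j _
  rw [map_zsmul, sig_eq]

lemma row_sum {A : Type} [AddCommGroup A] (ψ : Fin g → ℤ) (X : Matrix (Fin g) (Fin g) ℤ)
    (P : Fin g → A) : ∑ j, ψ j • ∑ k, X j k • P k = ∑ k, (ψ ᵥ* X) k • P k := by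
  simp only [Finset.smul_sum, smul_smul, Matrix.vecMul, dotProduct, Finset.sum_smul]
  rw [Finset.sum_comm]

/-- on a simple form every point of infinite order has a dense orbit -/
lemma Irred.dense {ρ : (L ≃ₐ[K] L) →* Matrix (Fin g) (Fin g) ℤ} [Fintype (L ≃ₐ[K] L)]
    (hρ : Irred ρ) {P : Fin g → SPt (algebraMap K L a) (algebraMap K L b)}
    (hP : ∀ σ i, ∑ j, ρ σ i j • gal σ (P j) = P i) (ht : ¬ IsOfFinAddOrder P) :
    DenseOrbit ρ P := by
  intro ψ hψ
  by_contra hcon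
  push Not at hcon
  have h1 : IsOfFinAddOrder (∑ j, ψ j • P j) := by
    have := hcon 1 (fun σ => by rw [one_mul, mul_one])
    simpa using this
  -- the translates
  have h2 : ∀ σ : L ≃ₐ[K] L, IsOfFinAddOrder (∑ j, (ψ ᵥ* ρ σ) j • P j) := by
    intro σ
    have h3 : gal σ⁻¹ (∑ j, ψ j • P j) = ∑ j, (ψ ᵥ* ρ σ) j • P j := by
      rw [gal_zsmul_sum, ← row_sum]
      apply Finset.sum_congr rfl
      intro j _
      rw [fixed_iff ρ hP, inv_inv]
    rw [← h3, ← sig_eq]
    exact (sig σ⁻¹).isOfFinAddOrder h1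
  obtain ⟨i, hi⟩ := exists_nontors ht
  obtain ⟨m, hm, c, hc⟩ := hρ ψ hψ i
  apply hi
  have h3 : m • P i = ∑ s, c s • ∑ j, (ψ ᵥ* ρ s) j • P j := by
    have h4 : ∑ j, (m • (Pi.single i 1 : Fin g → ℤ)) j • P j = m • P i := by
      rw [Finset.sum_eq_single i]
      · simp
      · intro j _ hj
        simp [Pi.single_eq_of_ne hj]
      · intro h
        exact absurd (Finset.mem_univ i) h
    rw [← h4, hc]
    simp only [Finset.sum_apply, Pi.smul_apply, Finset.sum_smul, Finset.smul_sum, smul_smul,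
      smul_eq_mul]
    rw [Finset.sum_comm]
  have h4 : IsOfFinAddOrder (m • P i) := by
    rw [h3]
    have : ∑ s, c s • ∑ j, (ψ ᵥ* ρ s) j • P j ∈
        AddCommGroup.torsion (SPt (algebraMap K L a) (algebraMap K L b)) :=
      AddSubgroup.sum_mem _ fun s _ => AddSubgroup.zsmul_mem _ (h2 s) _
    exact this
  rw [isOfFinAddOrder_iff_zsmul_eq_zero] at h4 ⊢
  obtain ⟨k, hk, h5⟩ := h4
  exact ⟨k * m, mul_ne_zero hk hm, by rw [mul_smul]; exact h5⟩

end

/-- **Simple forms.** -/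
theorem simple_forms {K : Type} [Field K] [NumberField K] (a b : 𝓞 K)
    (hab : 4 * (a : K) ^ 3 + 27 * (b : K) ^ 2 ≠ 0) (g : ℕ) :
    ∃ c₁ : ℝ, 0 < c₁ ∧ ∃ c₂ : ℕ, ∀ (L : Type) [Field L] [NumberField L] [Algebra K L]
      [IsGalois K L] [DecidableEq L] [Fintype (L ≃ₐ[K] L)]
      (ρ : (L ≃ₐ[K] L) →* Matrix (Fin g) (Fin g) ℤ), (∀ σ, ρ σ = 1 → σ = 1) → Irred ρ →
      ∀ M : Matrix (Fin g) (Fin g) ℤ, (M.map (Int.cast : ℤ → ℝ)).PosDef →
      (∀ σ, (ρ σ)ᵀ * M * ρ σ = M) →
      ∀ P : Fin g → SPt (algebraMap K L a) (algebraMap K L b),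
        (∀ σ i, ∑ j, ρ σ i j • gal σ (P j) = P i) →
        ∀ T : Finset (HeightOneSpectrum (𝓞 L)),
          (∀ v ∈ T, ∃ σ : L ≃ₐ[K] L, σ ≠ 1 ∧ Inert v (σ : L ≃+* L)) →
          (0 < addOrderOf P ∧ addOrderOf P ≤ c₂) ∨
          (DenseOrbit ρ P ∧ c₁ * (1 + ∑ v ∈ T, Real.log (Ideal.absNorm v.asIdeal)) ≤
            chatM M P / Module.finrank K L) := by
  obtain ⟨c, hc, h⟩ := forms_final a b hab g
  obtain ⟨m, hm⟩ := uniform_tors a b hab (Module.finrank ℚ K * 3 ^ (g * g))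
  refine ⟨c, hc, m.factorial, fun L _ _ _ _ _ _ ρ hf hirr M hM hρ P hP T hT => ?_⟩
  by_cases ht : IsOfFinAddOrder P
  · left
    have hcard : Module.finrank K L ≤ 3 ^ (g * g) := by
      rw [← IsGalois.card_aut_eq_finrank, Nat.card_eq_fintype_card]
      exact minkowski ρ hf
    have hn : Module.finrank ℚ L ≤ Module.finrank ℚ K * 3 ^ (g * g) := by
      rw [← Module.finrank_mul_finrank ℚ K L]
      exact Nat.mul_le_mul_left _ hcard
    exact ⟨ht.addOrderOf_pos, pow_order (hm L hn) ht⟩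
  · right
    have hd := hirr.dense hP ht
    exact ⟨hd, h L ρ M hM hρ P hP (hd.stab hf hP) ht T hT⟩

end Pool.Agent.TH910.LS
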