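import Mathlib
import Pool.Agent.TH910.LS.Simple

/-!
# The notions in the statements about forms
-/

set_option autoImplicit false
set_option linter.unusedSectionVars false

open WeierstrassCurve Height NumberField IsDedekindDomain Matrix Filter Topology

namespace Pool.Agent.TH910.LS

open Pool.Agent.TH942

/-- The points over `L` of `y² = x³ + a x + b`, where `a` and `b` are integers of `K`. -/
abbrev Pts {K : Type} [Field K] [NumberField K] (L : Type) [Field L] [Algebra K L]
    (a b : 𝓞 K) : Type :=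
  SPt (algebraMap K L (a : K)) (algebraMap K L (b : K))

section

variable {K : Type} [Field K] [NumberField K] {L : Type} [Field L] [NumberField L] [Algebra K L]
  [DecidableEq L] {a b : 𝓞 K} {g : ℕ}

/-- the canonical height is the limit of `sht (2 ^ k P) / 4 ^ k` -/
def ChatLim (L : Type) [Field L] [NumberField L] [Algebra K L] [DecidableEq L]
    (a b : 𝓞 K) : Prop :=
  ∀ P : Pts L a b, Tendsto (fun k : ℕ => sht ((2 ^ k : ℕ) • P) / 4 ^ k) atTop (𝓝 (chat P))

/-- `P` is a point over `K` of the form of `E ^ g` given by `ρ`. -/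
def FixedPt (ρ : (L ≃ₐ[K] L) →* Matrix (Fin g) (Fin g) ℤ) (P : Fin g → Pts L a b) : Prop :=
  ∀ σ i, ∑ j, ρ σ i j • gal σ (P j) = P i

/-- `M` is a polarization over `K` of the form given by `ρ`. -/
def Polar (ρ : (L ≃ₐ[K] L) →* Matrix (Fin g) (Fin g) ℤ) (M : Matrix (Fin g) (Fin g) ℤ) : Prop :=
  (M.map (Int.cast : ℤ → ℝ)).PosDef ∧ ∀ σ, (ρ σ)ᵀ * M * ρ σ = M

/-- `ρ` is injective -/
def Faithful (ρ : (L ≃ₐ[K] L) →* Matrix (Fin g) (Fin g) ℤ) : Prop := ∀ σ, ρ σ = 1 → σ = 1

/-- only the identity fixes the coordinates of `P` -/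
def Generates (P : Fin g → Pts L a b) : Prop := ∀ σ : L ≃ₐ[K] L, σ ≠ 1 → ∃ i, gal σ (P i) ≠ P i

/-- the primes in `T` have a non-trivial inertia group over `K` -/
def RamPrimes (K : Type) [Field K] [NumberField K] {L : Type} [Field L] [NumberField L]
    [Algebra K L] (T : Finset (HeightOneSpectrum (𝓞 L))) : Prop :=
  ∀ v ∈ T, ∃ σ : L ≃ₐ[K] L, σ ≠ 1 ∧ Inert v (σ : L ≃+* L)

/-- the sum of the logarithms of the norms -/
noncomputable def logNorms (T : Finset (HeightOneSpectrum (𝓞 L))) : ℝ :=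
  ∑ v ∈ T, Real.log (Ideal.absNorm v.asIdeal)

/-- the canonical height relative to `K` of a point of the form -/
noncomputable def formHeight (M : Matrix (Fin g) (Fin g) ℤ) (P : Fin g → Pts L a b) : ℝ :=
  chatM M P / Module.finrank K L

/-- `P` has finite order, at most `c` -/
def TorsLe (c : ℕ) (P : Fin g → Pts L a b) : Prop := 0 < addOrderOf P ∧ addOrderOf P ≤ c

end

lemma chatLim {K : Type} [Field K] [NumberField K] (a b : 𝓞 K)
    (hab : 4 * (a : K) ^ 3 + 27 * (b : K) ^ 2 ≠ 0) (L : Type) [Field L] [NumberField L]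
    [Algebra K L] [DecidableEq L] : ChatLim L a b := by
  have hab' : 4 * (algebraMap K L a) ^ 3 + 27 * (algebraMap K L b) ^ 2 ≠ 0 := by
    have h1 : algebraMap K L (4 * (a : K) ^ 3 + 27 * (b : K) ^ 2) ≠ 0 := by
      rw [ne_eq, map_eq_zero]
      exact hab
    rw [map_add, map_mul, map_mul, map_pow, map_pow, map_ofNat, map_ofNat] at h1
    exact h1
  exact (chat_spec hab').1

end Pool.Agent.TH910.LS
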