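import Mathlib
import Pool.Agent.TH910.LS.Stmt
import Pool.Agent.TH910.LS.Split

/-!
# The strong form of the lower bound for all forms of a power of an elliptic curve
-/

set_option autoImplicit false
set_option linter.unusedSectionVars false

open WeierstrassCurve Height NumberField IsDedekindDomain Matrix

namespace Pool.Agent.TH910.LS

open Pool.Agent.TH942

section group

variable {G : Type} [Group G] {g : ℕ} (ρ : G →* Matrix (Fin g) (Fin g) ℤ)
  (H : Subgroup G) [Fintype H]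

lemma sumH_left {h : G} (hh : h ∈ H) : ρ h * ∑ k : H, ρ k = ∑ k : H, ρ k := by
  rw [Finset.mul_sum]
  apply Fintype.sum_equiv (Equiv.mulLeft (⟨h, hh⟩ : H))
  intro k
  simp

lemma sumH_sq : (∑ k : H, ρ k) * ∑ k : H, ρ k = (Fintype.card H : ℤ) • ∑ k : H, ρ k := by
  rw [Finset.sum_mul]
  have : ∀ k : H, ρ k * ∑ k : H, ρ k = ∑ k : H, ρ k := fun k => sumH_left ρ H k.2
  simp only [this, Finset.sum_const, Finset.card_univ]
  rw [natCast_zsmul]

lemma sumH_comm [H.Normal] (s : G) : ρ s * ∑ k : H, ρ k = (∑ k : H, ρ k) * ρ s := by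
  rw [Finset.mul_sum, Finset.sum_mul]
  apply Fintype.sum_equiv (MulAut.conjNormal s : MulAut H).toEquiv
  intro k
  simp only [MulEquiv.toEquiv_eq_coe, EquivLike.coe_coe, MulAut.conjNormal_apply]
  rw [← map_mul, ← map_mul]
  congr 1
  group

lemma sumH_adj {M : Matrix (Fin g) (Fin g) ℤ} (hM : ∀ s, (ρ s)ᵀ * M * ρ s = M) :
    (∑ k : H, ρ k)ᵀ * M = M * ∑ k : H, ρ k := by
  rw [Matrix.transpose_sum, Finset.sum_mul, Finset.mul_sum]
  apply Fintype.sum_equiv (Equiv.inv H)
  intro k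
  have h1 := hM k
  have h2 : (ρ k)ᵀ * M * (ρ k * ρ (k : G)⁻¹) = M * ρ (k : G)⁻¹ := by
    rw [← Matrix.mul_assoc, h1]
  rw [← map_mul, mul_inv_cancel, map_one, Matrix.mul_one] at h2
  simpa using h2

lemma sumH_ne {h : G} (hh : h ∈ H) (hne : ρ h ≠ 1) :
    (∑ k : H, ρ k) ≠ (Fintype.card H : ℤ) • 1 := by
  intro h0
  have h1 := sumH_left ρ H hh
  rw [h0, mul_smul_comm, Matrix.mul_one] at h1
  apply hne
  have h2 : (Fintype.card H : ℤ) ≠ 0 := by
    have : 0 < Fintype.card H := Fintype.card_pos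
    exact_mod_cast this.ne'
  exact smul_right_injective _ h2 h1

end group

section

variable {K : Type} [Field K] [NumberField K] {L : Type} [Field L] [NumberField L] [Algebra K L]
  [DecidableEq L] {a b : 𝓞 K} {g : ℕ}

/-- `P` has order at most `c` modulo a proper abelian subvariety over `K` whose degree is at most
`c` times that of the form. -/
def SubvarLe (c : ℕ) (ρ : (L ≃ₐ[K] L) →* Matrix (Fin g) (Fin g) ℤ)
    (M : Matrix (Fin g) (Fin g) ℤ) (P : Fin g → Pts L a b) : Prop :=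
  ∃ (m : ℕ) (β : Matrix (Fin g) (Fin m) ℤ), m < g ∧
    (∃ β' : Matrix (Fin m) (Fin g) ℤ, β' * β = 1) ∧
    (∀ σ, ∃ r : Matrix (Fin m) (Fin m) ℤ, ρ σ * β = β * r) ∧
    m.factorial * (βᵀ * M * β).det ≤ c * (g.factorial * M.det) ∧
    ∃ n : ℕ, 0 < n ∧ n ≤ c ∧ ∃ Q : Fin m → Pts L a b, ∀ i, n • P i = ∑ j, β i j • Q j

lemma gal_gal (σ τ : L ≃ₐ[K] L) (P : Pts L a b) : gal (σ * τ) P = gal σ (gal τ P) := by
  match P with
  | .zero => rfl
  | .some x y h => rfl

lemma gal_id (P : Pts L a b) : gal (1 : L ≃ₐ[K] L) P = P := by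
  match P with
  | .zero => rfl
  | .some x y h => rfl

/-- the stabilizer of the coordinates of a point -/
def stabG (P : Fin g → Pts L a b) : Subgroup (L ≃ₐ[K] L) where
  carrier := {σ | ∀ i, gal σ (P i) = P i}
  mul_mem' := by
    intro σ τ hσ hτ i
    rw [gal_gal, hτ i, hσ i]
  one_mem' := fun i => gal_id _
  inv_mem' := by
    intro σ hσ i
    have h1 := congrArg (gal σ⁻¹) (hσ i)
    rw [← gal_gal, inv_mul_cancel, gal_id] at h1
    exact h1.symm

lemma stabG_normal {ρ : (L ≃ₐ[K] L) →* Matrix (Fin g) (Fin g) ℤ} {P : Fin g → Pts L a b}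
    (hP : FixedPt ρ P) : (stabG P).Normal := by
  constructor
  intro σ hσ τ i
  have h1 : gal τ⁻¹ (P i) = ∑ j, ρ τ i j • P j := by
    rw [fixed_iff ρ hP, inv_inv]
  rw [gal_gal, gal_gal, h1, gal_zsmul_sum]
  have h2 : ∑ j, ρ τ i j • gal σ (P j) = ∑ j, ρ τ i j • P j := by
    apply Finset.sum_congr rfl
    intro j _
    rw [hσ j]
  rw [h2, ← h1, ← gal_gal, mul_inv_cancel, gal_id]

lemma stabG_act {ρ : (L ≃ₐ[K] L) →* Matrix (Fin g) (Fin g) ℤ} {P : Fin g → Pts L a b}
    (hP : FixedPt ρ P) {σ : L ≃ₐ[K] L} (hσ : σ ∈ stabG P) (i : Fin g) :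
    ∑ j, ρ σ i j • P j = P i := by
  have h1 : gal σ⁻¹ (P i) = P i := (stabG P).inv_mem hσ i
  rw [fixed_iff ρ hP, inv_inv] at h1
  exact h1

end

/-- **All forms.** -/
theorem all_forms {K : Type} [Field K] [NumberField K] (a b : 𝓞 K)
    (hab : 4 * (a : K) ^ 3 + 27 * (b : K) ^ 2 ≠ 0) (g : ℕ) (hg : 0 < g) :
    ∃ c₁ : ℝ, 0 < c₁ ∧ ∃ c₂ : ℕ, ∀ (L : Type) [Field L] [NumberField L] [Algebra K L]
      [IsGalois K L] [DecidableEq L]
      (ρ : (L ≃ₐ[K] L) →* Matrix (Fin g) (Fin g) ℤ) (M : Matrix (Fin g) (Fin g) ℤ)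
      (P : Fin g → Pts L a b) (T : Finset (HeightOneSpectrum (𝓞 L))),
      Faithful ρ → Polar ρ M → FixedPt ρ P → RamPrimes K T →
      SubvarLe c₂ ρ M P ∨ (¬ IsOfFinAddOrder P ∧ c₁ * (1 + logNorms T) ≤ formHeight M P) := by
  classical
  obtain ⟨c, hc, h⟩ := forms_final a b hab g
  obtain ⟨m, hm⟩ := uniform_tors a b hab (Module.finrank ℚ K * 3 ^ (g * g))
  refine ⟨c, hc, m.factorial + (3 ^ (g * g)) ^ (2 * g), fun L _ _ _ _ _ ρ M P T hf hM hP hT => ?_⟩
  have : Fintype (L ≃ₐ[K] L) := inferInstance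
  have hcard : Fintype.card (L ≃ₐ[K] L) ≤ 3 ^ (g * g) := minkowski ρ hf
  have hMd : 0 < M.det := det_pos_int hM.1
  by_cases hH : ∀ σ ≠ 1, ∃ i, gal σ (P i) ≠ P i
  · by_cases ht : IsOfFinAddOrder P
    · left
      have hn : Module.finrank ℚ L ≤ Module.finrank ℚ K * 3 ^ (g * g) := by
        rw [← Module.finrank_mul_finrank ℚ K L]
        apply Nat.mul_le_mul_left _
        rw [← IsGalois.card_aut_eq_finrank, Nat.card_eq_fintype_card]
        exact hcard
      have h1 : addOrderOf P ≤ m.factorial := pow_order (hm L hn) ht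
      refine ⟨0, Matrix.of fun _ j => j.elim0, hg, ⟨Matrix.of fun j _ => j.elim0, ?_⟩, ?_, ?_,
        addOrderOf P, ht.addOrderOf_pos, by omega, fun j => j.elim0, ?_⟩
      · ext i
        exact i.elim0
      · intro σ
        refine ⟨0, ?_⟩
        ext i j
        exact j.elim0
      · rw [Matrix.det_isEmpty, Nat.factorial_zero]
        have h2 : 0 < (m.factorial + (3 ^ (g * g)) ^ (2 * g) : ℕ) := by positivity
        have h3 : (0 : ℤ) < ((m.factorial + (3 ^ (g * g)) ^ (2 * g) : ℕ) : ℤ) := by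
          exact_mod_cast h2
        have h4 : (0 : ℤ) < ((m.factorial + (3 ^ (g * g)) ^ (2 * g) : ℕ) : ℤ) *
            (g.factorial * M.det) := by positivity
        push_cast at h4 ⊢
        omega
      · intro i
        have h2 := congrFun (addOrderOf_nsmul_eq_zero P) i
        simpa using h2
    · right
      exact ⟨ht, h L ρ M hM.1 hM.2 P hP hH ht T hT⟩
  · left
    push Not at hH
    obtain ⟨τ, hτ1, hτ⟩ := hH
    have := stabG_normal hP
    set H := stabG P with hHd
    have hτH : τ ∈ H := hτ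
    set φ : Matrix (Fin g) (Fin g) ℤ := ∑ k : H, ρ k with hφ
    have hNpos : 0 < Fintype.card H := Fintype.card_pos
    have hN : (0 : ℤ) < (Fintype.card H : ℤ) := by exact_mod_cast hNpos
    have hNle : Fintype.card H ≤ 3 ^ (g * g) := (Fintype.card_subtype_le _).trans hcard
    obtain ⟨k, β, β', γ, hk, h1, h2, h3, h4⟩ := split_det hN φ M (sumH_sq ρ H)
      (sumH_ne ρ H hτH (fun h0 => hτ1 (hf _ h0))) hM.1 (sumH_adj ρ H hM.2)
    refine ⟨k, β, hk, ⟨β', h1⟩, ?_, ?_, Fintype.card H, hNpos, ?_,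
      fun j => ∑ l, γ j l • P l, ?_⟩
    · intro σ
      refine ⟨β' * (ρ σ * β), ?_⟩
      have e1 : (Fintype.card H : ℤ) • (ρ σ * β) = β * (γ * (ρ σ * β)) := by
        have e2 : φ * β = (Fintype.card H : ℤ) • β := by
          rw [← h2, Matrix.mul_assoc, h3, Matrix.mul_smul, Matrix.mul_one]
        rw [← Matrix.mul_assoc β, h2, ← Matrix.mul_assoc, ← sumH_comm ρ H σ, Matrix.mul_assoc, e2,
          Matrix.mul_smul]
      have e3 : (Fintype.card H : ℤ) • (β' * (ρ σ * β)) = γ * (ρ σ * β) := by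
        rw [← Matrix.mul_smul, e1, ← Matrix.mul_assoc, h1, Matrix.one_mul]
      have e4 : (Fintype.card H : ℤ) • (ρ σ * β) =
          (Fintype.card H : ℤ) • (β * (β' * (ρ σ * β))) := by
        rw [e1, ← e3, Matrix.mul_smul]
      exact smul_right_injective _ hN.ne' e4
    · have e1 : (k.factorial : ℤ) ≤ g.factorial := by
        exact_mod_cast Nat.factorial_le hk.le
      have e2 : 0 < (βᵀ * M * β).det := det_pos_int (posDef_restrict hM.1 h1)
      have e3 : ((Fintype.card H : ℤ)) ^ (2 * g) ≤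
          ((m.factorial + (3 ^ (g * g)) ^ (2 * g) : ℕ) : ℤ) := by
        have e4 : (Fintype.card H) ^ (2 * g) ≤ m.factorial + (3 ^ (g * g)) ^ (2 * g) :=
          (Nat.pow_le_pow_left hNle _).trans (Nat.le_add_left _ _)
        exact_mod_cast e4
      calc (k.factorial : ℤ) * (βᵀ * M * β).det
          ≤ g.factorial * ((Fintype.card H : ℤ) ^ (2 * g) * M.det) := by
            apply mul_le_mul e1 h4 e2.le (by positivity)
        _ ≤ g.factorial * (((m.factorial + (3 ^ (g * g)) ^ (2 * g) : ℕ) : ℤ) * M.det) := by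
            apply mul_le_mul_of_nonneg_left _ (by positivity)
            exact mul_le_mul_of_nonneg_right e3 hMd.le
        _ = _ := by ring
    · have e1 : Fintype.card H ≤ (3 ^ (g * g)) ^ (2 * g) :=
        hNle.trans (Nat.le_self_pow (by omega) _)
      omega
    · intro i
      have e1 : Fintype.card H • P i = ∑ j, φ i j • P j := by
        have e2 : ∑ j, φ i j • P j = ∑ k : H, ∑ j, ρ k i j • P j := by
          simp only [hφ, Matrix.sum_apply, Finset.sum_smul]
          rw [Finset.sum_comm]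
        rw [e2]
        have e3 : ∀ k : H, ∑ j, ρ k i j • P j = P i := fun k => stabG_act hP k.2 i
        simp only [e3, Finset.sum_const, Finset.card_univ]
      rw [e1, ← h2]
      simp only [Finset.smul_sum, smul_smul, Matrix.mul_apply, Finset.sum_smul]
      rw [Finset.sum_comm]

end Pool.Agent.TH910.LS
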