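import Mathlib
import Pool.Agent.TH910.LS.AllForms
import Pool.Agent.Helper259.HtExt

/-!
# Forms of powers, with explicit dependence on the curve
-/

set_option autoImplicit false
set_option linter.unusedSectionVars false

open WeierstrassCurve Height NumberField IsDedekindDomain Matrix Filter Topology

namespace Pool.Agent.TH910.LS

open Pool.Agent.TH942

variable {K : Type} [Field K] [NumberField K]

theorem forms_L (a b : 𝓞 K) (hab : 4 * (a : K) ^ 3 + 27 * (b : K) ^ 2 ≠ 0) (d : ℕ)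
    (L : Type) [Field L] [NumberField L] [Algebra K L] [DecidableEq L]
    (hL : Module.finrank K L ≤ d) {C B ε : ℝ} (hC : 0 ≤ C) (hε : 0 < ε)
    (hu1 : ∀ P : SPt (algebraMap K L a) (algebraMap K L b), sht P ≤ chat P + C)
    (hu2 : ∀ P : SPt (algebraMap K L a) (algebraMap K L b), ¬ IsOfFinAddOrder P → ε ≤ chat P)
    (hbad : ∀ T : Finset (HeightOneSpectrum (𝓞 L)), (∀ v ∈ T,
      v.valuation L (2 * (4 * (algebraMap K L a) ^ 3 + 27 * (algebraMap K L b) ^ 2)) ≠ 1) →
      ∑ v ∈ T, Real.log (Ideal.absNorm v.asIdeal) ≤ B)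
    (g : ℕ) (M : Matrix (Fin g) (Fin g) ℤ) (hM : (M.map (Int.cast : ℤ → ℝ)).PosDef)
    (ρ : (L ≃ₐ[K] L) → Matrix (Fin g) (Fin g) ℤ) (hρ : ∀ σ, (ρ σ)ᵀ * M * ρ σ = M)
    (P : Fin g → SPt (algebraMap K L a) (algebraMap K L b))
    (hP : ∀ σ i, gal σ (P i) = ∑ j, ρ σ i j • P j) (hst : ∀ σ ≠ 1, ∃ i, gal σ (P i) ≠ P i)
    (htors : ¬ IsOfFinAddOrder P) (T : Finset (HeightOneSpectrum (𝓞 L)))
    (hT : ∀ v ∈ T, ∃ σ : L ≃ₐ[K] L, σ ≠ 1 ∧ Inert v (σ : L ≃+* L)) :
    ε ≤ chatM M P ∧
      ∑ v ∈ T, Real.log (Ideal.absNorm v.asIdeal) ≤ B + d * (4 * chatM M P + C) := by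
  classical
  have hfd : FiniteDimensional K L := inferInstance
  have hab' : 4 * (algebraMap K L a) ^ 3 + 27 * (algebraMap K L b) ^ 2 ≠ 0 := by
    have h1 : algebraMap K L (4 * (a : K) ^ 3 + 27 * (b : K) ^ 2) ≠ 0 := by
      rw [ne_eq, map_eq_zero]
      exact hab
    rw [map_add, map_mul, map_mul, map_pow, map_pow, map_ofNat, map_ofNat] at h1
    exact h1
  have hεq : ε ≤ chatM M P := by
    obtain ⟨Q, -, hQ, hQ2⟩ := reduction hab' M hM P htors
    exact (hu2 Q hQ).trans hQ2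
  have hq0 : 0 ≤ chatM M P := hε.le.trans hεq
  have hlog : ∀ v : HeightOneSpectrum (𝓞 L), 0 ≤ Real.log (Ideal.absNorm v.asIdeal) := fun v =>
    Real.log_natCast_nonneg _
  -- the primes of bad reduction
  have hTb := hbad (T.filter (fun v => v.valuation L
    (2 * (4 * (algebraMap K L a) ^ 3 + 27 * (algebraMap K L b) ^ 2)) ≠ 1))
    (fun v hv => (Finset.mem_filter.1 hv).2)
  -- the primes with `σ` in the inertia group
  set G : Finset (HeightOneSpectrum (𝓞 L)) :=
    T.filter (fun v => ¬ v.valuation L (2 * (4 * (algebraMap K L a) ^ 3 + 27 * (algebraMap K L b) ^ 2)) ≠ 1) with hG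
  have hσ : ∀ σ : L ≃ₐ[K] L, ∑ v ∈ G.filter (fun v => σ ≠ 1 ∧ Inert v (σ : L ≃+* L)),
      Real.log (Ideal.absNorm v.asIdeal) ≤ 4 * chatM M P + C := by
    intro σ
    by_cases hσ1 : σ = 1
    · have : G.filter (fun v => σ ≠ 1 ∧ Inert v (σ : L ≃+* L)) = ∅ := by
        apply Finset.filter_false_of_mem
        intro v _ h
        exact h.1 hσ1
      rw [this, Finset.sum_empty]
      positivity
    obtain ⟨U, hU1, hU2⟩ := exists_diff hab' hM (hρ σ) (hP σ) (hst σ hσ1)
    have hgood : ∀ v ∈ G.filter (fun v => σ ≠ 1 ∧ Inert v (σ : L ≃+* L)),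
        ∃ x y h, U - gal σ U = Affine.Point.some x y h ∧ 1 < av v x := by
      intro v hv
      rw [Finset.mem_filter, hG, Finset.mem_filter, not_not] at hv
      obtain ⟨⟨hvT, hv1⟩, -, hvI⟩ := hv
      have hint : ∀ z : 𝓞 L, v.valuation L (z : L) ≤ 1 := fun z => v.valuation_le_one (K := L) z
      have h2 : v.valuation L 2 ≤ 1 := by
        have h := hint 2
        have e2 : ((2 : 𝓞 L) : L) = 2 := map_ofNat (algebraMap (𝓞 L) L) 2
        rwa [e2] at h
      have h3 : v.valuation L (4 * (algebraMap K L a) ^ 3 + 27 * (algebraMap K L b) ^ 2) ≤ 1 := by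
        obtain ⟨z, hz⟩ := exists_int_alg L (4 * a ^ 3 + 27 * b ^ 2)
        have h4 := hint z
        have e3 : ((4 * a ^ 3 + 27 * b ^ 2 : 𝓞 K) : K) = 4 * (a : K) ^ 3 + 27 * (b : K) ^ 2 := by
          push_cast
          rfl
        have e4 : algebraMap K L ((4 * a ^ 3 + 27 * b ^ 2 : 𝓞 K) : K) =
            4 * (algebraMap K L a) ^ 3 + 27 * (algebraMap K L b) ^ 2 := by
          rw [e3, map_add, map_mul, map_mul, map_pow, map_pow, map_ofNat, map_ofNat]
        rw [hz, e4] at h4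
        exact h4
      rw [map_mul] at hv1
      have h4 : v.valuation L 2 = 1 := by
        apply le_antisymm h2
        rw [← hv1]
        exact mul_le_of_le_one_right zero_le h3
      have h5 : v.valuation L (4 * (algebraMap K L a) ^ 3 + 27 * (algebraMap K L b) ^ 2) = 1 := by
        rwa [h4, one_mul] at hv1
      apply inert_point hvI _ _ U hU1
      · rw [av_eq, h4, map_one]
        rfl
      · rw [av_eq, h5, map_one]
        rfl
    have hsht : ∑ v ∈ G.filter (fun v => σ ≠ 1 ∧ Inert v (σ : L ≃+* L)),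
        Real.log (Ideal.absNorm v.asIdeal) ≤ sht (U - gal σ U) := by
      match hUe : U - gal σ U, hU1 with
      | 0, h => exact absurd rfl h
      | .some x y h, _ =>
        apply pole_sum
        intro v hv
        obtain ⟨x', y', h', he, hx'⟩ := hgood v hv
        rw [hUe] at he
        have : x = x' := by
          have := (Affine.Point.some.injEq x y h x' y' h').mp he
          exact this.1
        rw [this]
        exact hx'
    have := hu1 (U - gal σ U)
    linarith
  have hcard : (Fintype.card (L ≃ₐ[K] L) : ℝ) ≤ d := by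
    have h1 := AlgEquiv.card_le (F := K) (K := L)
    exact_mod_cast h1.trans hL
  have hTg : ∑ v ∈ G, Real.log (Ideal.absNorm v.asIdeal) ≤ d * (4 * chatM M P + C) := by
    have h1 : ∀ v ∈ G, Real.log (Ideal.absNorm v.asIdeal) ≤
        ∑ σ : L ≃ₐ[K] L, if σ ≠ 1 ∧ Inert v (σ : L ≃+* L) then
          Real.log (Ideal.absNorm v.asIdeal) else 0 := by
      intro v hv
      obtain ⟨σ, hσ1, hσ2⟩ := hT v (Finset.mem_filter.1 hv).1
      have h2 := Finset.single_le_sum (f := fun σ : L ≃ₐ[K] L =>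
        if σ ≠ 1 ∧ Inert v (σ : L ≃+* L) then Real.log (Ideal.absNorm v.asIdeal) else 0)
        (fun σ _ => by
          split_ifs
          · exact hlog v
          · exact le_refl _) (Finset.mem_univ σ)
      rw [if_pos ⟨hσ1, hσ2⟩] at h2
      exact h2
    calc ∑ v ∈ G, Real.log (Ideal.absNorm v.asIdeal) ≤
        ∑ v ∈ G, ∑ σ : L ≃ₐ[K] L, (if σ ≠ 1 ∧ Inert v (σ : L ≃+* L) then
          Real.log (Ideal.absNorm v.asIdeal) else 0) := Finset.sum_le_sum h1
      _ = ∑ σ : L ≃ₐ[K] L, ∑ v ∈ G.filter (fun v => σ ≠ 1 ∧ Inert v (σ : L ≃+* L)),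
          Real.log (Ideal.absNorm v.asIdeal) := by
        rw [Finset.sum_comm]
        apply Finset.sum_congr rfl
        intro σ _
        exact (Finset.sum_filter _ _).symm
      _ ≤ ∑ _σ : L ≃ₐ[K] L, (4 * chatM M P + C) := Finset.sum_le_sum fun σ _ => hσ σ
      _ = Fintype.card (L ≃ₐ[K] L) * (4 * chatM M P + C) := by
        rw [Finset.sum_const, Finset.card_univ, nsmul_eq_mul]
      _ ≤ d * (4 * chatM M P + C) := mul_le_mul_of_nonneg_right hcard (by positivity)
  have hsplit := Finset.sum_filter_add_sum_filter_not T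
    (fun v => v.valuation L (2 * (4 * (algebraMap K L a) ^ 3 + 27 * (algebraMap K L b) ^ 2)) ≠ 1)
    (fun v => Real.log (Ideal.absNorm v.asIdeal))
  refine ⟨hεq, ?_⟩
  rw [← hsplit]
  exact add_le_add hTb hTg

end Pool.Agent.TH910.LS
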