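import Mathlib
import Pool.Agent.TH910.LS.Var
import Pool.Agent.TH910.LS.PolHt

/-!
# Duplication and bad reduction, with explicit dependence on the curve
-/

set_option autoImplicit false
set_option linter.unusedSectionVars false

open Height NumberField IsDedekindDomain WeierstrassCurve Matrix Filter Topology

namespace Pool.Agent.TH910.LS

open Pool.Agent.TH942

lemma dupArr_map {R S : Type} [CommRing R] [CommRing S] (f : R →+* S) (A B : R)
    (i : (Fin 2 × Fin 2) × (Fin 2 × Fin 2 × Fin 2)) :
    f (dupArr A B i) = dupArr (f A) (f B) i := by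
  unfold dupArr arr
  split_ifs <;> first | rfl | (exact map_zero f) | simp only [map_mul, map_add, map_neg, map_pow, map_ofNat]

/-- the constant of duplication -/
lemma frm_height_L {K : Type} [Field K] [NumberField K] {ι : Type} [Fintype ι]
    (B : ι × (Fin 2 × Fin 2 × Fin 2) → 𝓞 K) (L : Type) [Field L] [NumberField L] [Algebra K L]
    (w : Fin 2 → L) :
      logHeight (frm B w) ≤ Module.finrank K L * logHeight (fun i => (B i : K)) +
        Real.log 8 * totalWeight L + 3 * logHeight w := by
  have h1 := logHeight_linearMap_apply_le (fun a => algebraMap K L (B a : K)) (mon3 w)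
  have h2 := Pool.Agent.Helper259.HtExt.logHeight_ext (L := L) (fun i => (B i : K))
  have h3 := mon3_height w
  have h4 : Nat.card (Fin 2 × Fin 2 × Fin 2) = 8 := by simp
  rw [h4] at h1
  have h5 : frm B w = fun j => ∑ i, algebraMap K L (B (j, i) : K) * mon3 w i := rfl
  rw [h5]
  push_cast at h1
  linarith

theorem udup_L {K : Type} [Field K] [NumberField K] (a b : 𝓞 K)
    (hab : 4 * (a : K) ^ 3 + 27 * (b : K) ^ 2 ≠ 0)
    (L : Type) [Field L] [NumberField L] [Algebra K L] [DecidableEq L]
      (P : SPt (algebraMap K L a) (algebraMap K L b)) :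
      4 * sht P - (Module.finrank K L * logHeight (fun i => dupArr (a : K) (b : K) i) +
        (Real.log 8 + Real.log 2) * totalWeight L) ≤ sht (P + P) := by
  have hab' : 4 * (algebraMap K L a) ^ 3 + 27 * (algebraMap K L b) ^ 2 ≠ 0 := by
    have h1 : algebraMap K L (4 * (a : K) ^ 3 + 27 * (b : K) ^ 2) ≠ 0 := by
      rw [ne_eq, map_eq_zero]
      exact hab
    rw [map_add, map_mul, map_mul, map_pow, map_pow, map_ofNat, map_ofNat] at h1
    exact h1
  obtain ⟨k, hk, h1⟩ := saddSub_sym2x hab' P P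
  set x0 := P.xRep 0 with hx0
  set x1 := P.xRep 1 with hx1
  set z0 := (P + P).xRep 0 with hz0
  set z1 := (P + P).xRep 1 with hz1
  have hs : P.sym2x P = ![x0 * x0, x0 * x1 + x1 * x0, x1 * x1] := rfl
  have hs2 : (P + P).sym2x (P - P) = ![z0, z1, 0] := by
    rw [sub_self]
    have : (P + P).sym2x 0 = ![z0 * 1, z0 * 0 + z1 * 1, z1 * 0] := rfl
    rw [this]
    simp
  rw [hs, hs2, seval_addSub] at h1
  have e0 := congrFun h1 0
  have e1 := congrFun h1 1
  simp at e0 e1
  have h2 := logHeight_linearMap_apply_le (frm (dupArr a b) ![x0, x1]) ![k * z0, k * z1]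
  have h3 : (fun j => ∑ i, frm (dupArr a b) ![x0, x1] (j, i) * ![k * z0, k * z1] i) =
      (4 * (4 * (algebraMap K L a) ^ 3 + 27 * (algebraMap K L b) ^ 2)) • (![x0, x1] ^ 7) := by
    ext j
    fin_cases j
    · simp only [Fin.sum_univ_two, Fin.zero_eta, frm00, frm01]
      simp
      rw [← e0, ← e1]
      ring
    · simp only [Fin.sum_univ_two, Fin.mk_one, frm10, frm11]
      simp
      rw [← e0, ← e1]
      ring
  have h4 : ![k * z0, k * z1] = k • ![z0, z1] := by
    ext i
    fin_cases i <;> simp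
  have hP : P.xRep = ![x0, x1] := by
    ext i
    fin_cases i <;> rfl
  have hPP : (P + P).xRep = ![z0, z1] := by
    ext i
    fin_cases i <;> rfl
  rw [h3, logHeight_smul_eq_logHeight _ (mul_ne_zero (by norm_num) hab'), logHeight_pow, h4,
    logHeight_smul_eq_logHeight _ hk, ← hP, ← hPP] at h2
  have h5 := frm_height_L (dupArr a b) L P.xRep
  have h7 : (fun i => ((dupArr a b i : 𝓞 K) : K)) = fun i => dupArr (a : K) (b : K) i := by
    ext i
    exact dupArr_map (algebraMap (𝓞 K) K) a b i
  rw [h7] at h5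
  have h6 : Nat.card (Fin 2) = 2 := by simp
  rw [h6] at h2
  rw [sht, sht]
  push_cast at h2
  linarith

/-- constants for all curves -/
theorem var_const : ∃ κ : ℝ, 0 < κ ∧ ∀ (K : Type) [Field K] [NumberField K] (a b : 𝓞 K),
    4 * (a : K) ^ 3 + 27 * (b : K) ^ 2 ≠ 0 →
    ∀ (L : Type) [Field L] [NumberField L] [Algebra K L] [DecidableEq L],
      (∀ P : SPt (algebraMap K L a) (algebraMap K L b), sht P ≤ chat P +
        κ * (totalWeight L + Module.finrank K L * (logHeight₁ (a : K) + logHeight₁ (b : K)))) ∧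
      ∀ T : Finset (HeightOneSpectrum (𝓞 L)), (∀ v ∈ T,
        v.valuation L (2 * (4 * (algebraMap K L a) ^ 3 + 27 * (algebraMap K L b) ^ 2)) ≠ 1) →
        ∑ v ∈ T, Real.log (Ideal.absNorm v.asIdeal) ≤
          κ * (totalWeight L + Module.finrank K L * (logHeight₁ (a : K) + logHeight₁ (b : K))) := by
  obtain ⟨c1, hc1, m1, h1⟩ := height_pol (fun i => dupArr (MvPolynomial.X 0 :
    MvPolynomial (Fin 2) ℤ) (MvPolynomial.X 1) i)
  obtain ⟨c2, hc2, m2, h2⟩ := height_pol ![2 * (4 * (MvPolynomial.X 0 : MvPolynomial (Fin 2) ℤ) ^ 3 +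
    27 * (MvPolynomial.X 1) ^ 2), 1]
  have hl8 : 0 ≤ Real.log 8 := Real.log_nonneg (by norm_num)
  have hl2 : 0 ≤ Real.log 2 := Real.log_nonneg (by norm_num)
  refine ⟨c1 + m1 + Real.log 8 + Real.log 2 + 2 * (c2 + m2) + 1, by positivity,
    fun K _ _ a b hab L _ _ _ _ => ?_⟩
  have hab' : 4 * (algebraMap K L a) ^ 3 + 27 * (algebraMap K L b) ^ 2 ≠ 0 := by
    have h1 : algebraMap K L (4 * (a : K) ^ 3 + 27 * (b : K) ^ 2) ≠ 0 := by
      rw [ne_eq, map_eq_zero]
      exact hab
    rw [map_add, map_mul, map_mul, map_pow, map_pow, map_ofNat, map_ofNat] at h1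
    exact h1
  set n : ℝ := ((Module.finrank K L : ℕ) : ℝ) with hn
  have hn0 : 0 ≤ n := Nat.cast_nonneg _
  set h : ℝ := logHeight₁ (a : K) + logHeight₁ (b : K) with hh
  have hh0 : 0 ≤ h := add_nonneg (zero_le_logHeight₁ _) (zero_le_logHeight₁ _)
  have hWL : n * totalWeight K = totalWeight L := by
    rw [NumberField.totalWeight_eq_finrank, NumberField.totalWeight_eq_finrank,
      ← Module.finrank_mul_finrank ℚ K L]
    push_cast
    ring
  have hW0 : (0 : ℝ) ≤ totalWeight L := Nat.cast_nonneg _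
  have hnh : 0 ≤ n * h := mul_nonneg hn0 hh0
  constructor
  · intro P
    have e1 : (fun i => (MvPolynomial.aeval ![(a : K), (b : K)] (dupArr (MvPolynomial.X 0 :
        MvPolynomial (Fin 2) ℤ) (MvPolynomial.X 1) i) : K)) = fun i => dupArr (a : K) (b : K) i := by
      ext i
      have e3 := dupArr_map (MvPolynomial.aeval ![(a : K), (b : K)] :
        MvPolynomial (Fin 2) ℤ →ₐ[ℤ] K).toRingHom (MvPolynomial.X 0) (MvPolynomial.X 1) i
      simp only [AlgHom.toRingHom_eq_coe, RingHom.coe_coe, MvPolynomial.aeval_X] at e3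
      exact e3
    have e2 := h1 K a b
    rw [e1] at e2
    set C : ℝ := n * logHeight (fun i => dupArr (a : K) (b : K) i) +
        (Real.log 8 + Real.log 2) * totalWeight L with hC
    have hlh : 0 ≤ logHeight (fun i => dupArr (a : K) (b : K) i) := by
      rw [logHeight_eq_log_mulHeight]
      exact Real.log_nonneg (one_le_mulHeight _)
    have hC0 : 0 ≤ C := by positivity
    have hdup : ∀ P : SPt (algebraMap K L a) (algebraMap K L b),
        4 * sht P - C ≤ sht ((2 : ℕ) • P) := by
      intro P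
      rw [two_nsmul]
      exact udup_L a b hab L P
    have h3 := ge_of_dup (A := SPt (algebraMap K L a) (algebraMap K L b)) (N := fun P => sht P)
      (q := fun P => chat P) hC0 (chat_spec hab').1 hdup P
    have h4 : C ≤ (c1 + m1 + Real.log 8 + Real.log 2) * (totalWeight L + n * h) := by
      have h5 := mul_le_mul_of_nonneg_left e2 hn0
      have h6 : n * (c1 * totalWeight K + m1 * h) = c1 * totalWeight L + m1 * (n * h) := by
        rw [← hWL]
        ring
      rw [h6] at h5
      have h7 : 0 ≤ c1 * (n * h) := by positivity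
      have h8 : 0 ≤ (m1 : ℝ) * totalWeight L := by positivity
      have h9 : 0 ≤ (Real.log 8 + Real.log 2) * (n * h) := by positivity
      nlinarith
    have h5 : (c1 + m1 + Real.log 8 + Real.log 2) * (totalWeight L + n * h) ≤
        (c1 + m1 + Real.log 8 + Real.log 2 + 2 * (c2 + m2) + 1) * (totalWeight L + n * h) := by
      apply mul_le_mul_of_nonneg_right _ (by positivity)
      have : 0 ≤ 2 * (c2 + (m2 : ℝ)) + 1 := by positivity
      linarith
    linarith
  · intro T hT
    have h3 := support_le T (mul_ne_zero (by norm_num : (2 : L) ≠ 0) hab') hT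
    have h4 := Pool.Agent.Helper259.HtExt.logHeight_ext (K := K) (L := L)
      ![2 * (4 * (a : K) ^ 3 + 27 * (b : K) ^ 2), 1]
    have h5 : (fun i => algebraMap K L ((![2 * (4 * (a : K) ^ 3 + 27 * (b : K) ^ 2), 1] :
        Fin 2 → K) i)) =
        ![2 * (4 * (algebraMap K L a) ^ 3 + 27 * (algebraMap K L b) ^ 2), 1] := by
      ext i
      fin_cases i <;> simp [map_ofNat]
    rw [h5, ← logHeight₁_eq_logHeight] at h4
    have h6 := h2 K a b
    have h7 : (fun i => (MvPolynomial.aeval ![(a : K), (b : K)]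
        ((![2 * (4 * (MvPolynomial.X 0 : MvPolynomial (Fin 2) ℤ) ^ 3 +
        27 * (MvPolynomial.X 1) ^ 2), 1] : Fin 2 → MvPolynomial (Fin 2) ℤ) i) : K)) =
        ![2 * (4 * (a : K) ^ 3 + 27 * (b : K) ^ 2), 1] := by
      ext i
      fin_cases i <;> simp [map_ofNat]
    rw [h7] at h6
    have h8 := mul_le_mul_of_nonneg_left h6 hn0
    have h9 : n * (c2 * totalWeight K + m2 * h) = c2 * totalWeight L + m2 * (n * h) := by
      rw [← hWL]
      ring
    rw [h9] at h8
    have h10 : 0 ≤ c2 * (n * h) := by positivity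
    have h11 : 0 ≤ (m2 : ℝ) * totalWeight L := by positivity
    have h12 : 2 * (c2 + m2) * (totalWeight L + n * h) ≤
        (c1 + m1 + Real.log 8 + Real.log 2 + 2 * (c2 + m2) + 1) * (totalWeight L + n * h) := by
      apply mul_le_mul_of_nonneg_right _ (by positivity)
      have : 0 ≤ c1 + (m1 : ℝ) + Real.log 8 + Real.log 2 + 1 := by positivity
      linarith
    nlinarith

end Pool.Agent.TH910.LS
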