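import Mathlib
import Pool.Agent.TH910.LS.VarDup
import Pool.Agent.TH951.LS.Rel

/-!
# Forms of powers of elliptic curves with nearly integral `j`
-/

set_option autoImplicit false
set_option linter.unusedSectionVars false

open WeierstrassCurve Height NumberField IsDedekindDomain Matrix Filter Topology

namespace Pool.Agent.TH910.LS

open Pool.Agent.TH942

section

variable {K : Type} [Field K] [NumberField K] {L : Type} [Field L] [NumberField L] [Algebra K L]
  [DecidableEq L] {a b : 𝓞 K} {g : ℕ}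

lemma subvar_tors (m : ℕ) (hg : 0 < g) {ρ : (L ≃ₐ[K] L) →* Matrix (Fin g) (Fin g) ℤ}
    {M : Matrix (Fin g) (Fin g) ℤ} {P : Fin g → Pts L a b} (hM : Polar ρ M)
    (ht : IsOfFinAddOrder P) (h1 : addOrderOf P ≤ m.factorial) :
    SubvarLe (m.factorial + (3 ^ (g * g)) ^ (2 * g)) ρ M P := by
  have hMd : 0 < M.det := det_pos_int hM.1
  refine ⟨0, Matrix.of fun _ j => j.elim0, hg, ⟨Matrix.of fun j _ => j.elim0, ?_⟩, ?_, ?_,
    addOrderOf P, ht.addOrderOf_pos, by omega, fun j => j.elim0, ?_⟩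
  · ext i
    exact i.elim0
  · intro σ
    refine ⟨0, ?_⟩
    ext i j
    exact j.elim0
  · rw [Matrix.det_isEmpty, Nat.factorial_zero]
    have h2 : 0 < (m.factorial + (3 ^ (g * g)) ^ (2 * g) : ℕ) := by positivity
    have h3 : (0 : ℤ) < ((m.factorial + (3 ^ (g * g)) ^ (2 * g) : ℕ) : ℤ) := by
      exact_mod_cast h2
    have h4 : (0 : ℤ) < ((m.factorial + (3 ^ (g * g)) ^ (2 * g) : ℕ) : ℤ) *
        (g.factorial * M.det) := by positivity
    push_cast at h4 ⊢
    omega
  · intro i
    have h2 := congrFun (addOrderOf_nsmul_eq_zero P) i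
    simpa using h2

lemma subvar_stab (m : ℕ) [IsGalois K L] (hg : 0 < g)
    {ρ : (L ≃ₐ[K] L) →* Matrix (Fin g) (Fin g) ℤ}
    {M : Matrix (Fin g) (Fin g) ℤ} {P : Fin g → Pts L a b} (hf : Faithful ρ) (hM : Polar ρ M)
    (hP : FixedPt ρ P) {τ : L ≃ₐ[K] L} (hτ1 : τ ≠ 1) (hτ : ∀ i, gal τ (P i) = P i) :
    SubvarLe (m.factorial + (3 ^ (g * g)) ^ (2 * g)) ρ M P := by
  classical
  have : Fintype (L ≃ₐ[K] L) := inferInstance
  have hcard : Fintype.card (L ≃ₐ[K] L) ≤ 3 ^ (g * g) := minkowski ρ hf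
  have hMd : 0 < M.det := det_pos_int hM.1
  have := stabG_normal hP
  set H := stabG P with hHd
  have hτH : τ ∈ H := hτ
  set φ : Matrix (Fin g) (Fin g) ℤ := ∑ k : H, ρ k with hφ
  have hNpos : 0 < Fintype.card H := Fintype.card_pos
  have hN : (0 : ℤ) < (Fintype.card H : ℤ) := by exact_mod_cast hNpos
  have hNle : Fintype.card H ≤ 3 ^ (g * g) := (Fintype.card_subtype_le _).trans hcard
  obtain ⟨k, β, β', γ, hk, h1, h2, h3, h4⟩ := split_det hN φ M (sumH_sq ρ H)
    (sumH_ne ρ H hτH (fun h0 => hτ1 (hf _ h0))) hM.1 (sumH_adj ρ H hM.2)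
  refine ⟨k, β, hk, ⟨β', h1⟩, ?_, ?_, Fintype.card H, hNpos, ?_,
    fun j => ∑ l, γ j l • P l, ?_⟩
  · intro σ
    refine ⟨β' * (ρ σ * β), ?_⟩
    have e1 : (Fintype.card H : ℤ) • (ρ σ * β) = β * (γ * (ρ σ * β)) := by
      have e2 : φ * β = (Fintype.card H : ℤ) • β := by
        rw [← h2, Matrix.mul_assoc, h3, Matrix.mul_smul, Matrix.mul_one]
      rw [← Matrix.mul_assoc β, h2, ← Matrix.mul_assoc, ← sumH_comm ρ H σ, Matrix.mul_assoc, e2,
        Matrix.mul_smul]
    have e3 : (Fintype.card H : ℤ) • (β' * (ρ σ * β)) = γ * (ρ σ * β) := by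
      rw [← Matrix.mul_smul, e1, ← Matrix.mul_assoc, h1, Matrix.one_mul]
    have e4 : (Fintype.card H : ℤ) • (ρ σ * β) =
        (Fintype.card H : ℤ) • (β * (β' * (ρ σ * β))) := by
      rw [e1, ← e3, Matrix.mul_smul]
    exact smul_right_injective _ hN.ne' e4
  · have e1 : (k.factorial : ℤ) ≤ g.factorial := by
      exact_mod_cast Nat.factorial_le hk.le
    have e2 : 0 < (βᵀ * M * β).det := det_pos_int (posDef_restrict hM.1 h1)
    have e3 : ((Fintype.card H : ℤ)) ^ (2 * g) ≤
        ((m.factorial + (3 ^ (g * g)) ^ (2 * g) : ℕ) : ℤ) := by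
      have e4 : (Fintype.card H) ^ (2 * g) ≤ m.factorial + (3 ^ (g * g)) ^ (2 * g) :=
        (Nat.pow_le_pow_left hNle _).trans (Nat.le_add_left _ _)
      exact_mod_cast e4
    calc (k.factorial : ℤ) * (βᵀ * M * β).det
        ≤ g.factorial * ((Fintype.card H : ℤ) ^ (2 * g) * M.det) := by
          apply mul_le_mul e1 h4 e2.le (by positivity)
      _ ≤ g.factorial * (((m.factorial + (3 ^ (g * g)) ^ (2 * g) : ℕ) : ℤ) * M.det) := by
          apply mul_le_mul_of_nonneg_left _ (by positivity)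
          exact mul_le_mul_of_nonneg_right e3 hMd.le
      _ = _ := by ring
  · have e1 : Fintype.card H ≤ (3 ^ (g * g)) ^ (2 * g) :=
      hNle.trans (Nat.le_self_pow (by omega) _)
    omega
  · intro i
    have e1 : Fintype.card H • P i = ∑ j, φ i j • P j := by
      have e2 : ∑ j, φ i j • P j = ∑ k : H, ∑ j, ρ k i j • P j := by
        simp only [hφ, Matrix.sum_apply, Finset.sum_smul]
        rw [Finset.sum_comm]
      rw [e2]
      have e3 : ∀ k : H, ∑ j, ρ k i j • P j = P i := fun k => stabG_act hP k.2 i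
      simp only [e3, Finset.sum_const, Finset.card_univ]
    rw [e1, ← h2]
    simp only [Finset.smul_sum, smul_smul, Matrix.mul_apply, Finset.sum_smul]
    rw [Finset.sum_comm]

end

/-- the absolute logarithmic height -/
noncomputable def absH {K : Type} [Field K] [NumberField K] (x : K) : ℝ :=
  logHeight₁ x / Module.finrank ℚ K

/-- `j` is integral outside `M` up to the proportion `δ`: for some positive integer `b` with
`log b ≤ δ h(j)` and some `k`, the number `b M ^ k j` is an algebraic integer. -/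
def NearInt {K : Type} [Field K] [NumberField K] (δ : ℝ) (M : ℕ) (j : K) : Prop :=
  ∃ b k : ℕ, 0 < b ∧ Real.log b ≤ δ * absH j ∧ IsIntegral ℤ ((b : K) * (M : K) ^ k * j)

lemma absH_ext {K : Type} [Field K] [NumberField K] (L : Type) [Field L] [NumberField L]
    [Algebra K L] (x : K) : absH (algebraMap K L x) = absH x := by
  unfold absH
  have h4 := Pool.Agent.Helper259.HtExt.logHeight_ext (K := K) (L := L) ![x, 1]
  have h5 : (fun i => algebraMap K L ((![x, 1] : Fin 2 → K) i)) = ![algebraMap K L x, 1] := by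
    ext i
    fin_cases i <;> simp
  rw [h5, ← logHeight₁_eq_logHeight, ← logHeight₁_eq_logHeight] at h4
  rw [h4, ← Module.finrank_mul_finrank ℚ K L]
  have h1 : (0 : ℝ) < Module.finrank ℚ K := by exact_mod_cast Module.finrank_pos
  have h2 : (0 : ℝ) < Module.finrank K L := by exact_mod_cast Module.finrank_pos
  push_cast
  field_simp

/-- **Forms of powers of elliptic curves with nearly integral `j`.** -/
theorem var_forms (D g : ℕ) (hg : 0 < g) (κ : ℝ) (hκ : 0 ≤ κ) :
    ∃ c₁ δ : ℝ, 0 < c₁ ∧ 0 < δ ∧ ∃ c₂ : ℕ, ∀ M₀ : ℕ, M₀ ≠ 0 → ∃ A : ℝ,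
    ∀ (K : Type) [Field K] [NumberField K], Module.finrank ℚ K ≤ D →
    ∀ a b : 𝓞 K, 4 * (a : K) ^ 3 + 27 * (b : K) ^ 2 ≠ 0 →
      NearInt δ M₀ (jinv (a : K) b) → A < absH (jinv (a : K) b) →
      absH (a : K) + absH (b : K) ≤ κ * absH (jinv (a : K) b) →
    ∀ (L : Type) [Field L] [NumberField L] [Algebra K L] [IsGalois K L] [DecidableEq L]
      (ρ : (L ≃ₐ[K] L) →* Matrix (Fin g) (Fin g) ℤ) (M : Matrix (Fin g) (Fin g) ℤ)
      (P : Fin g → Pts L a b) (T : Finset (HeightOneSpectrum (𝓞 L))),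
      Faithful ρ → Polar ρ M → FixedPt ρ P → RamPrimes K T →
      SubvarLe c₂ ρ M P ∨ (¬ IsOfFinAddOrder P ∧
        c₁ * (absH (jinv (a : K) b) + logNorms T / Module.finrank ℚ L) ≤
          chatM M P / Module.finrank ℚ L) := by
  obtain ⟨κ₀, hκ₀, hvar⟩ := var_const
  obtain ⟨N, c, δ, hc, hδ, hfam⟩ := TH951.LS.family.{0} (D * 3 ^ (g * g))
  set d : ℝ := 3 ^ (g * g) with hd
  have hd0 : 0 < d := by positivity
  set E : ℝ := (1 + κ₀ * (1 + κ) * (1 + d)) * (4 ^ N / c) + 4 * d with hE
  have hE0 : 0 < E := by positivity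
  refine ⟨1 / E, δ, by positivity, hδ, (2 * N + 1).factorial + (3 ^ (g * g)) ^ (2 * g),
    fun M₀ hM₀ => ?_⟩
  obtain ⟨A, hA, hfam⟩ := hfam M₀ hM₀
  refine ⟨max A 1, ?_⟩
  intro K _ _ hK a b hab hj hAj hab2 L _ _ _ _ _ ρ M P T hf hM hP hT
  classical
  have hcard : Fintype.card (L ≃ₐ[K] L) ≤ 3 ^ (g * g) := minkowski ρ hf
  have hKL : Module.finrank K L ≤ 3 ^ (g * g) := by
    rw [← IsGalois.card_aut_eq_finrank, Nat.card_eq_fintype_card]
    exact hcard
  have hn : Module.finrank ℚ L ≤ D * 3 ^ (g * g) := by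
    rw [← Module.finrank_mul_finrank ℚ K L]
    exact Nat.mul_le_mul hK hKL
  have hab' : 4 * (algebraMap K L a) ^ 3 + 27 * (algebraMap K L b) ^ 2 ≠ 0 := by
    have h1 : algebraMap K L (4 * (a : K) ^ 3 + 27 * (b : K) ^ 2) ≠ 0 := by
      rw [ne_eq, map_eq_zero]
      exact hab
    rw [map_add, map_mul, map_mul, map_pow, map_pow, map_ofNat, map_ofNat] at h1
    exact h1
  set nL : ℝ := ((Module.finrank ℚ L : ℕ) : ℝ) with hnL
  have hnL0 : 0 < nL := by
    rw [hnL]
    exact_mod_cast (Module.finrank_pos : 0 < Module.finrank ℚ L)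
  set j : K := jinv (a : K) b with hjd
  have hjL : jinv (algebraMap K L a) (algebraMap K L b) = algebraMap K L j := by
    rw [hjd]
    unfold jinv
    simp [map_ofNat]
  have hHj : 1 < absH j := lt_of_le_of_lt (le_max_right _ _) hAj
  have hHj0 : 0 < absH j := by linarith
  have hell : (sw (algebraMap K L (a : K)) (algebraMap K L (b : K))).IsElliptic := sw_ell hab'
  have hjj : (sw (algebraMap K L (a : K)) (algebraMap K L (b : K))).j = algebraMap K L j := by
    rw [← hjL]
    exact jinv_eq _ _ hell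
  have hlim : ∀ Q : Pts L a b, Tendsto (fun n : ℕ =>
      logHeight ((2 ^ n • Q).xRep) / (4 ^ n * Module.finrank ℚ L)) atTop
      (𝓝 (chat Q / nL)) := by
    intro Q
    have h := ((chat_spec hab').1 Q).div_const nL
    refine h.congr fun n => ?_
    rw [div_div]
    rfl
  obtain ⟨b', k, hb, hbδ, hint⟩ := hj
  have habsL : logHeight₁ ((sw (algebraMap K L (a : K)) (algebraMap K L (b : K))).j) /
      Module.finrank ℚ L = absH j := by
    rw [hjj]
    exact absH_ext L j
  have key : ∀ Q : Pts L a b, (∃ n : ℕ, 0 < n ∧ n ≤ 2 * N + 1 ∧ n • Q = 0) ∨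
      c * absH j / 4 ^ N ≤ chat Q / nL := by
    intro Q
    refine TH951.LS.of_family (sw (algebraMap K L (a : K)) (algebraMap K L (b : K))) hlim
      (mul_pos hc hHj0) (fun Q hQ => ?_) Q
    obtain ⟨i, hi⟩ := hfam L hn (sw (algebraMap K L (a : K)) (algebraMap K L (b : K))) b' k hb
      (by
        rw [hjj]
        have := hint.map ((algebraMap K L).toIntAlgHom)
        simpa using this)
      (by
        rw [habsL]
        exact hbδ)
      (by
        rw [habsL]
        exact lt_of_le_of_lt (le_max_left _ _) hAj) ∅ (by simp) _ hlim Q hQ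
    refine ⟨i, ?_⟩
    rw [habsL] at hi
    simpa using hi
  have htor : ∀ Q : Pts L a b, IsOfFinAddOrder Q → (2 * N + 1).factorial • Q = 0 := by
    intro Q hQ
    obtain ⟨-, hq0, hq, -⟩ := chat_spec hab'
    have h0 : chat Q = 0 := q_tors (q := fun P => chat P) hq hQ
    rcases key Q with ⟨n, hn, hnN, h⟩ | h
    · obtain ⟨m, hm⟩ := Nat.dvd_factorial hn hnN
      rw [hm, mul_comm, mul_nsmul', h, nsmul_zero]
    · rw [h0, zero_div] at h
      have : 0 < c * absH j / 4 ^ N := by positivity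
      linarith
  by_cases hH : ∀ σ ≠ 1, ∃ i, gal σ (P i) ≠ P i
  · by_cases ht : IsOfFinAddOrder P
    · left
      refine subvar_tors _ hg hM ht ?_
      apply Nat.le_of_dvd (Nat.factorial_pos _)
      apply addOrderOf_dvd_of_nsmul_eq_zero
      funext i
      have hk : IsOfFinAddOrder (P i) := by
        obtain ⟨n, hn, h⟩ := isOfFinAddOrder_iff_nsmul_eq_zero.1 ht
        exact isOfFinAddOrder_iff_nsmul_eq_zero.2 ⟨n, hn, congrFun h i⟩
      exact htor _ hk
    · right
      refine ⟨ht, ?_⟩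
      obtain ⟨hC, hB⟩ := hvar K a b hab L
      set C : ℝ := κ₀ * (totalWeight L +
        Module.finrank K L * (logHeight₁ (a : K) + logHeight₁ (b : K))) with hCd
      have hC0 : 0 ≤ C := by
        have := zero_le_logHeight₁ (a : K)
        have := zero_le_logHeight₁ (b : K)
        positivity
      have hCle : C ≤ nL * (κ₀ * (1 + κ) * absH j) := by
        have h1 : (totalWeight L : ℝ) = nL := by
          rw [NumberField.totalWeight_eq_finrank]
        have h2 : (Module.finrank K L : ℝ) * (logHeight₁ (a : K) + logHeight₁ (b : K)) =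
            nL * (absH (a : K) + absH (b : K)) := by
          have h3 : (0 : ℝ) < Module.finrank ℚ K := by exact_mod_cast Module.finrank_pos
          rw [hnL, ← Module.finrank_mul_finrank ℚ K L]
          unfold absH
          push_cast
          field_simp
        rw [hCd, h1, h2]
        have h3 : nL + nL * (absH (a : K) + absH (b : K)) ≤ nL * ((1 + κ) * absH j) := by
          have h4 : 1 + (absH (a : K) + absH (b : K)) ≤ (1 + κ) * absH j := by linarith
          have h5 := mul_le_mul_of_nonneg_left h4 hnL0.le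
          linarith
        have h6 := mul_le_mul_of_nonneg_left h3 hκ₀.le
        linarith
      have hε : 0 < nL * (c * absH j / 4 ^ N) := by positivity
      obtain ⟨h1, h2⟩ := forms_L a b hab (3 ^ (g * g)) L hKL hC0 hε hC (fun Q hQ => by
        rcases key Q with ⟨n, hn, -, h⟩ | h
        · exact absurd (isOfFinAddOrder_iff_nsmul_eq_zero.2 ⟨n, hn, h⟩) hQ
        · rw [le_div_iff₀ hnL0] at h
          linarith) hB g M hM.1 (fun σ => ρ σ⁻¹) (fun σ => hM.2 σ⁻¹) P (fixed_iff ρ hP) hH ht T hT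
      set X : ℝ := chatM M P / nL with hX
      have hXe : chatM M P = nL * X := by
        rw [hX]
        field_simp
      have hX1 : absH j ≤ (4 ^ N / c) * X := by
        rw [hXe] at h1
        have h3 := le_of_mul_le_mul_left h1 hnL0
        rw [div_mul_eq_mul_div, le_div_iff₀ hc]
        rw [div_le_iff₀ (by positivity)] at h3
        linarith
      have hX2 : logNorms T / nL ≤ κ₀ * (1 + κ) * absH j + d * (4 * X + κ₀ * (1 + κ) * absH j) := by
        rw [div_le_iff₀ hnL0]
        unfold logNorms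
        refine h2.trans ?_
        rw [hXe]
        push_cast
        rw [← hd]
        have h3 : d * (4 * (nL * X) + C) ≤
            d * (4 * (nL * X) + nL * (κ₀ * (1 + κ) * absH j)) := by
          apply mul_le_mul_of_nonneg_left _ hd0.le
          linarith
        nlinarith
      rw [one_div, inv_mul_le_iff₀ hE0, hE]
      have h5 : absH j + (κ₀ * (1 + κ) * absH j + d * (4 * X + κ₀ * (1 + κ) * absH j)) =
          (1 + κ₀ * (1 + κ) * (1 + d)) * absH j + 4 * d * X := by ring
      have h6 : (1 + κ₀ * (1 + κ) * (1 + d)) * absH j ≤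
          (1 + κ₀ * (1 + κ) * (1 + d)) * ((4 ^ N / c) * X) :=
        mul_le_mul_of_nonneg_left hX1 (by positivity)
      linarith
  · left
    push Not at hH
    obtain ⟨τ, hτ1, hτ⟩ := hH
    exact subvar_stab _ hg hf hM hP hτ1 hτ

end Pool.Agent.TH910.LS
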