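import Mathlib
import Pool.Agent.TH910.LS.VarMain

/-!
# Forms of powers of elliptic curves with nearly integral `j`: points with a dense orbit
-/

set_option autoImplicit false
set_option linter.unusedSectionVars false

open WeierstrassCurve Height NumberField IsDedekindDomain Matrix Filter Topology

namespace Pool.Agent.TH910.LS

open Pool.Agent.TH942

/-- **Points that generate the splitting field.** -/
theorem var_gen (D g : ℕ) (κ : ℝ) (hκ : 0 ≤ κ) :
    ∃ c₁ δ : ℝ, 0 < c₁ ∧ 0 < δ ∧ ∀ M₀ : ℕ, M₀ ≠ 0 → ∃ A : ℝ,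
    ∀ (K : Type) [Field K] [NumberField K], Module.finrank ℚ K ≤ D →
    ∀ a b : 𝓞 K, 4 * (a : K) ^ 3 + 27 * (b : K) ^ 2 ≠ 0 →
      NearInt δ M₀ (jinv (a : K) b) → A < absH (jinv (a : K) b) →
      absH (a : K) + absH (b : K) ≤ κ * absH (jinv (a : K) b) →
    ∀ (L : Type) [Field L] [NumberField L] [Algebra K L] [IsGalois K L] [DecidableEq L]
      (ρ : (L ≃ₐ[K] L) →* Matrix (Fin g) (Fin g) ℤ) (M : Matrix (Fin g) (Fin g) ℤ)
      (P : Fin g → Pts L a b) (T : Finset (HeightOneSpectrum (𝓞 L))),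
      Polar ρ M → FixedPt ρ P → RamPrimes K T → Generates P → ¬ IsOfFinAddOrder P →
        c₁ * (absH (jinv (a : K) b) + logNorms T / Module.finrank ℚ L) ≤
          chatM M P / Module.finrank ℚ L := by
  obtain ⟨κ₀, hκ₀, hvar⟩ := var_const
  obtain ⟨N, c, δ, hc, hδ, hfam⟩ := TH951.LS.family.{0} (D * 3 ^ (g * g))
  set d : ℝ := 3 ^ (g * g) with hd
  have hd0 : 0 < d := by positivity
  set E : ℝ := (1 + κ₀ * (1 + κ) * (1 + d)) * (4 ^ N / c) + 4 * d with hE
  have hE0 : 0 < E := by positivity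
  refine ⟨1 / E, δ, by positivity, hδ, fun M₀ hM₀ => ?_⟩
  obtain ⟨A, hA, hfam⟩ := hfam M₀ hM₀
  refine ⟨max A 1, ?_⟩
  intro K _ _ hK a b hab hj hAj hab2 L _ _ _ _ _ ρ M P T hM hP hT hH ht
  classical
  have hf : ∀ σ, ρ σ = 1 → σ = 1 := by
    intro σ hσ
    by_contra hne
    obtain ⟨i, hi⟩ := hH σ⁻¹ (inv_ne_one.2 hne)
    apply hi
    rw [fixed_iff ρ hP, inv_inv, hσ, act_one]
  have hcard : Fintype.card (L ≃ₐ[K] L) ≤ 3 ^ (g * g) := minkowski ρ hf
  have hKL : Module.finrank K L ≤ 3 ^ (g * g) := by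
    rw [← IsGalois.card_aut_eq_finrank, Nat.card_eq_fintype_card]
    exact hcard
  have hn : Module.finrank ℚ L ≤ D * 3 ^ (g * g) := by
    rw [← Module.finrank_mul_finrank ℚ K L]
    exact Nat.mul_le_mul hK hKL
  have hab' : 4 * (algebraMap K L a) ^ 3 + 27 * (algebraMap K L b) ^ 2 ≠ 0 := by
    have h1 : algebraMap K L (4 * (a : K) ^ 3 + 27 * (b : K) ^ 2) ≠ 0 := by
      rw [ne_eq, map_eq_zero]
      exact hab
    rw [map_add, map_mul, map_mul, map_pow, map_pow, map_ofNat, map_ofNat] at h1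
    exact h1
  set nL : ℝ := ((Module.finrank ℚ L : ℕ) : ℝ) with hnL
  have hnL0 : 0 < nL := by
    rw [hnL]
    exact_mod_cast (Module.finrank_pos : 0 < Module.finrank ℚ L)
  set j : K := jinv (a : K) b with hjd
  have hjL : jinv (algebraMap K L a) (algebraMap K L b) = algebraMap K L j := by
    rw [hjd]
    unfold jinv
    simp [map_ofNat]
  have hHj : 1 < absH j := lt_of_le_of_lt (le_max_right _ _) hAj
  have hHj0 : 0 < absH j := by linarith
  have hell : (sw (algebraMap K L (a : K)) (algebraMap K L (b : K))).IsElliptic := sw_ell hab'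
  have hjj : (sw (algebraMap K L (a : K)) (algebraMap K L (b : K))).j = algebraMap K L j := by
    rw [← hjL]
    exact jinv_eq _ _ hell
  have hlim : ∀ Q : Pts L a b, Tendsto (fun n : ℕ =>
      logHeight ((2 ^ n • Q).xRep) / (4 ^ n * Module.finrank ℚ L)) atTop
      (𝓝 (chat Q / nL)) := by
    intro Q
    have h := ((chat_spec hab').1 Q).div_const nL
    refine h.congr fun n => ?_
    rw [div_div]
    rfl
  obtain ⟨b', k, hb, hbδ, hint⟩ := hj
  have habsL : logHeight₁ ((sw (algebraMap K L (a : K)) (algebraMap K L (b : K))).j) /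
      Module.finrank ℚ L = absH j := by
    rw [hjj]
    exact absH_ext L j
  have key : ∀ Q : Pts L a b, (∃ n : ℕ, 0 < n ∧ n ≤ 2 * N + 1 ∧ n • Q = 0) ∨
      c * absH j / 4 ^ N ≤ chat Q / nL := by
    intro Q
    refine TH951.LS.of_family (sw (algebraMap K L (a : K)) (algebraMap K L (b : K))) hlim
      (mul_pos hc hHj0) (fun Q hQ => ?_) Q
    obtain ⟨i, hi⟩ := hfam L hn (sw (algebraMap K L (a : K)) (algebraMap K L (b : K))) b' k hb
      (by
        rw [hjj]
        have := hint.map ((algebraMap K L).toIntAlgHom)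
        simpa using this)
      (by
        rw [habsL]
        exact hbδ)
      (by
        rw [habsL]
        exact lt_of_le_of_lt (le_max_left _ _) hAj) ∅ (by simp) _ hlim Q hQ
    refine ⟨i, ?_⟩
    rw [habsL] at hi
    simpa using hi
  obtain ⟨hC, hB⟩ := hvar K a b hab L
  set C : ℝ := κ₀ * (totalWeight L +
    Module.finrank K L * (logHeight₁ (a : K) + logHeight₁ (b : K))) with hCd
  have hC0 : 0 ≤ C := by
    have := zero_le_logHeight₁ (a : K)
    have := zero_le_logHeight₁ (b : K)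
    positivity
  have hCle : C ≤ nL * (κ₀ * (1 + κ) * absH j) := by
    have h1 : (totalWeight L : ℝ) = nL := by
      rw [NumberField.totalWeight_eq_finrank]
    have h2 : (Module.finrank K L : ℝ) * (logHeight₁ (a : K) + logHeight₁ (b : K)) =
        nL * (absH (a : K) + absH (b : K)) := by
      have h3 : (0 : ℝ) < Module.finrank ℚ K := by exact_mod_cast Module.finrank_pos
      rw [hnL, ← Module.finrank_mul_finrank ℚ K L]
      unfold absH
      push_cast
      field_simp
    rw [hCd, h1, h2]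
    have h3 : nL + nL * (absH (a : K) + absH (b : K)) ≤ nL * ((1 + κ) * absH j) := by
      have h4 : 1 + (absH (a : K) + absH (b : K)) ≤ (1 + κ) * absH j := by linarith
      have h5 := mul_le_mul_of_nonneg_left h4 hnL0.le
      linarith
    have h6 := mul_le_mul_of_nonneg_left h3 hκ₀.le
    linarith
  have hε : 0 < nL * (c * absH j / 4 ^ N) := by positivity
  obtain ⟨h1, h2⟩ := forms_L a b hab (3 ^ (g * g)) L hKL hC0 hε hC (fun Q hQ => by
    rcases key Q with ⟨n, hn, -, h⟩ | h
    · exact absurd (isOfFinAddOrder_iff_nsmul_eq_zero.2 ⟨n, hn, h⟩) hQ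
    · rw [le_div_iff₀ hnL0] at h
      linarith) hB g M hM.1 (fun σ => ρ σ⁻¹) (fun σ => hM.2 σ⁻¹) P (fixed_iff ρ hP) hH ht T hT
  set X : ℝ := chatM M P / nL with hX
  have hXe : chatM M P = nL * X := by
    rw [hX]
    field_simp
  have hX1 : absH j ≤ (4 ^ N / c) * X := by
    rw [hXe] at h1
    have h3 := le_of_mul_le_mul_left h1 hnL0
    rw [div_mul_eq_mul_div, le_div_iff₀ hc]
    rw [div_le_iff₀ (by positivity)] at h3
    linarith
  have hX2 : logNorms T / nL ≤ κ₀ * (1 + κ) * absH j + d * (4 * X + κ₀ * (1 + κ) * absH j) := by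
    rw [div_le_iff₀ hnL0]
    unfold logNorms
    refine h2.trans ?_
    rw [hXe]
    push_cast
    rw [← hd]
    have h3 : d * (4 * (nL * X) + C) ≤
        d * (4 * (nL * X) + nL * (κ₀ * (1 + κ) * absH j)) := by
      apply mul_le_mul_of_nonneg_left _ hd0.le
      linarith
    nlinarith
  rw [one_div, inv_mul_le_iff₀ hE0, hE]
  have h5 : absH j + (κ₀ * (1 + κ) * absH j + d * (4 * X + κ₀ * (1 + κ) * absH j)) =
      (1 + κ₀ * (1 + κ) * (1 + d)) * absH j + 4 * d * X := by ring
  have h6 : (1 + κ₀ * (1 + κ) * (1 + d)) * absH j ≤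
      (1 + κ₀ * (1 + κ) * (1 + d)) * ((4 ^ N / c) * X) :=
    mul_le_mul_of_nonneg_left hX1 (by positivity)
  linarith

end Pool.Agent.TH910.LS
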